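import Mathlib

set_option autoImplicit false

open MeasureTheory ProbabilityTheory Filter Topology

namespace Pool.Agent.R976.Adder

variable {Ω : Type*} [MeasurableSpace Ω]

/-- The data: independent `U n`, uniform on `{0, …, n}`, and the sequence `X`. -/
structure Setup (P : Measure Ω) (U : (n : ℕ) → Ω → Fin (n + 1)) (X : ℕ → Ω → ℝ) : Prop where
  meas : ∀ n, Measurable (U n)
  indep : iIndepFun U P
  unif : ∀ (n : ℕ) (k : Fin (n + 1)), P.real {ω | U n ω = k} = 1 / ((n : ℝ) + 1)
  zero : ∀ ω, X 0 ω = 1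
  succ : ∀ n ω, X (n + 1) ω = X n ω + X (U n ω) ω

/-- `f` depends on `U 0, …, U (n - 1)` only. -/
def Dep (U : (n : ℕ) → Ω → Fin (n + 1)) (n : ℕ) (f : Ω → ℝ) : Prop :=
  ∀ ω ω', (∀ k < n, U k ω = U k ω') → f ω = f ω'

section

variable {P : Measure Ω} [IsProbabilityMeasure P] {U : (n : ℕ) → Ω → Fin (n + 1)} {X : ℕ → Ω → ℝ}
  (S : Setup P U X)

omit [MeasurableSpace Ω] in
lemma Dep.mono {n m : ℕ} (h : n ≤ m) {f : Ω → ℝ} (hf : Dep U n f) : Dep U m f :=
  fun ω ω' hk => hf ω ω' fun k hkn => hk k (hkn.trans_le h)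

omit [MeasurableSpace Ω] in
/-- Factorization through the finitely many values of `U 0, …, U (n - 1)`. -/
lemma Dep.factor {n : ℕ} {f : Ω → ℝ} (hf : Dep U n f) :
    ∃ φ : ((k : Finset.range n) → Fin ((k : ℕ) + 1)) → ℝ,
      f = φ ∘ fun ω (k : Finset.range n) => U k ω := by
  classical
  refine ⟨fun w => if h : ∃ ω, (fun (k : Finset.range n) => U k ω) = w then f h.choose else 0, ?_⟩
  funext ω
  have h : ∃ ω', (fun (k : Finset.range n) => U k ω') = fun (k : Finset.range n) => U k ω := ⟨ω, rfl⟩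
  simp only [Function.comp_apply]
  rw [dif_pos h]
  refine hf _ _ fun k hk => ?_
  exact (congrFun h.choose_spec ⟨k, Finset.mem_range.2 hk⟩).symm

include S

omit [IsProbabilityMeasure P] in
lemma Dep.measurable {n : ℕ} {f : Ω → ℝ} (hf : Dep U n f) : Measurable f := by
  obtain ⟨φ, rfl⟩ := hf.factor
  exact (measurable_of_finite φ).comp (measurable_pi_lambda _ fun k => S.meas k)

lemma Dep.integrable {n : ℕ} {f : Ω → ℝ} (hf : Dep U n f) : Integrable f P := by
  have hm := Dep.measurable S hf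
  obtain ⟨φ, rfl⟩ := hf.factor
  obtain ⟨C, hC⟩ := (Set.toFinite (Set.range fun w => ‖φ w‖)).bddAbove
  refine Integrable.of_bound hm.aestronglyMeasurable C (Eventually.of_forall fun ω => ?_)
  exact hC ⟨_, rfl⟩

lemma indep_ind {n : ℕ} {f : Ω → ℝ} (hf : Dep U n f) (k : Fin (n + 1)) :
    ∫ ω, {ω | U n ω = k}.indicator f ω ∂P = (1 / ((n : ℝ) + 1)) * ∫ ω, f ω ∂P := by
  classical
  have hm := Dep.measurable S hf
  obtain ⟨φ, hφ⟩ := hf.factor
  have h1 := S.indep.indepFun_finset (Finset.range n) {n} (by simp) S.meas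
  have h2 : IndepFun f (fun ω => ({k} : Set (Fin (n + 1))).indicator (fun _ => (1:ℝ)) (U n ω)) P := by
    have := h1.comp (φ := φ)
      (ψ := fun w => ({k} : Set (Fin (n + 1))).indicator (fun _ => (1:ℝ)) (w ⟨n, by simp⟩))
      (measurable_of_finite φ) (measurable_of_finite _)
    rw [hφ]
    exact this
  have h3 : ∀ ω, {ω | U n ω = k}.indicator f ω =
      f ω * ({k} : Set (Fin (n + 1))).indicator (fun _ => (1:ℝ)) (U n ω) := by
    intro ω
    by_cases h : U n ω = k
    · simp [Set.indicator, h]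
    · simp [Set.indicator, h]
  simp_rw [h3]
  rw [h2.integral_fun_mul_eq_mul_integral hm.aestronglyMeasurable
    ((measurable_of_finite (fun j : Fin (n + 1) =>
      ({k} : Set (Fin (n + 1))).indicator (fun _ => (1:ℝ)) j)).comp (S.meas n)).aestronglyMeasurable]
  have h4 : ∫ ω, ({k} : Set (Fin (n + 1))).indicator (fun _ => (1:ℝ)) (U n ω) ∂P = 1 / ((n : ℝ) + 1) := by
    rw [← S.unif n k]
    have : (fun ω => ({k} : Set (Fin (n + 1))).indicator (fun _ => (1:ℝ)) (U n ω)) =
        {ω | U n ω = k}.indicator 1 := by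
      funext ω
      by_cases h : U n ω = k
      · simp [Set.indicator, h]
      · simp [Set.indicator, h]
    rw [this, integral_indicator_one]
    exact S.meas n (measurableSet_singleton k)
  rw [h4, mul_comm]

/-- Averaging over the last choice. -/
lemma avg {n : ℕ} (f : Fin (n + 1) → Ω → ℝ) (hf : ∀ k, Dep U n (f k)) :
    ∫ ω, f (U n ω) ω ∂P = (1 / ((n : ℝ) + 1)) * ∑ k, ∫ ω, f k ω ∂P := by
  classical
  have h1 : ∀ ω, f (U n ω) ω = ∑ k, {ω | U n ω = k}.indicator (f k) ω := by
    intro ω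
    rw [Finset.sum_eq_single (U n ω)]
    · simp [Set.indicator]
    · intro b _ hb
      simp [Set.indicator, hb.symm]
    · simp
  simp_rw [h1]
  have hint : ∀ k : Fin (n + 1), Integrable ({ω | U n ω = k}.indicator (f k)) P := fun k =>
    (Dep.integrable S (hf k)).indicator (S.meas n (measurableSet_singleton k))
  rw [integral_finsetSum _ fun k _ => hint k, Finset.mul_sum]
  exact Finset.sum_congr rfl fun k _ => indep_ind S (hf k) k

omit [IsProbabilityMeasure P] in
lemma depX (n : ℕ) : ∀ i ≤ n, Dep U n (X i) := by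
  intro i
  induction i using Nat.strong_induction_on with
  | _ i ih =>
    intro hi ω ω' hk
    cases i with
    | zero => rw [S.zero, S.zero]
    | succ i =>
      rw [S.succ, S.succ, hk i (by omega), ih i (by omega) (by omega) ω ω' hk]
      rw [ih (U i ω') (by have := (U i ω').2; omega) (by have := (U i ω').2; omega) ω ω' hk]

omit [IsProbabilityMeasure P] in
lemma one_le : ∀ n ω, 1 ≤ X n ω := by
  intro n
  induction n using Nat.strong_induction_on with
  | _ n ih =>
    intro ω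
    cases n with
    | zero => rw [S.zero]
    | succ n =>
      rw [S.succ]
      have h1 := ih n (by omega) ω
      have h2 := ih (U n ω) (by have := (U n ω).2; omega) ω
      linarith

omit [IsProbabilityMeasure P] in
lemma X_mono (ω : Ω) : Monotone fun n => X n ω := by
  refine monotone_nat_of_le_succ fun n => ?_
  rw [S.succ]
  have := one_le S (U n ω) ω
  linarith

omit [IsProbabilityMeasure P] in
lemma X_le (ω : Ω) (n : ℕ) : X n ω ≤ 2 ^ n := by
  induction n with
  | zero => rw [S.zero]; simp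
  | succ n ih =>
    rw [S.succ, pow_succ]
    have := X_mono S ω (show ((U n ω : Fin (n + 1)) : ℕ) ≤ n by have := (U n ω).2; omega)
    simp only at this
    linarith

end

/-- The power sums of the past. -/
noncomputable def T (X : ℕ → Ω → ℝ) (n : ℕ) (b : ℕ) (ω : Ω) : ℝ := ∑ i ∈ Finset.range (n + 1), X i ω ^ b

/-- The product of power sums. -/
noncomputable def Tp (X : ℕ → Ω → ℝ) (n : ℕ) (L : List ℕ) (ω : Ω) : ℝ := (L.map fun b => T X n b ω).prod

/-- The mixed moments. -/
noncomputable def V (P : Measure Ω) (X : ℕ → Ω → ℝ) (n a : ℕ) (L : List ℕ) : ℝ :=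
  ∫ ω, X n ω ^ a * Tp X n L ω ∂P

section

variable {P : Measure Ω} [IsProbabilityMeasure P] {U : (n : ℕ) → Ω → Fin (n + 1)} {X : ℕ → Ω → ℝ}
  (S : Setup P U X)

include S

omit [IsProbabilityMeasure P] in
lemma depT (n b : ℕ) : Dep U n (T X n b) := by
  intro ω ω' hk
  refine Finset.sum_congr rfl fun i hi => ?_
  rw [depX S n i (by have := Finset.mem_range.1 hi; omega) ω ω' hk]

omit [IsProbabilityMeasure P] in
lemma depTp (n : ℕ) (L : List ℕ) : Dep U n (Tp X n L) := by
  intro ω ω' hk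
  unfold Tp
  congr 1
  refine List.map_congr_left fun b _ => depT S n b ω ω' hk

omit [IsProbabilityMeasure P] in
lemma T_nonneg (n b : ℕ) (ω : Ω) : 0 ≤ T X n b ω :=
  Finset.sum_nonneg fun i _ => pow_nonneg (zero_le_one.trans (one_le S i ω)) _

omit [IsProbabilityMeasure P] [MeasurableSpace Ω] S in
lemma T_succ (n b : ℕ) (ω : Ω) : T X (n + 1) b ω = T X n b ω + X (n + 1) ω ^ b := by
  unfold T
  rw [Finset.sum_range_succ]

omit [IsProbabilityMeasure P] in
lemma Tp_nonneg (n : ℕ) (L : List ℕ) (ω : Ω) : 0 ≤ Tp X n L ω := by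
  unfold Tp
  refine List.prod_nonneg fun x hx => ?_
  rw [List.mem_map] at hx
  obtain ⟨b, _, rfl⟩ := hx
  exact T_nonneg S n b ω

omit [IsProbabilityMeasure P] [MeasurableSpace Ω] S in
lemma Tp_cons (n b : ℕ) (L : List ℕ) (ω : Ω) : Tp X n (b :: L) ω = T X n b ω * Tp X n L ω := by
  simp [Tp]

/-- The telescoping bound for the product of power sums. -/
lemma Tp_succ_le (n : ℕ) (L : List ℕ) (ω : Ω) :
    Tp X (n + 1) L ω ≤ Tp X n L ω +
      ∑ i : Fin L.length, X (n + 1) ω ^ (L.get i) * Tp X (n + 1) (L.eraseIdx i) ω := by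
  induction L with
  | nil => simp [Tp]
  | cons b L ih =>
    rw [Tp_cons, Tp_cons]
    show _ ≤ _ + ∑ i : Fin (L.length + 1),
      X (n + 1) ω ^ ((b :: L).get i) * Tp X (n + 1) ((b :: L).eraseIdx i) ω
    rw [Fin.sum_univ_succ]
    simp only [List.get_cons_zero, Fin.val_zero, List.eraseIdx_cons_zero,
      Fin.val_succ, List.eraseIdx_cons_succ, Tp_cons]
    have hT := T_nonneg S n b ω
    have hY : 0 ≤ X (n + 1) ω ^ b := pow_nonneg (zero_le_one.trans (one_le S _ ω)) _
    have h1 := mul_le_mul_of_nonneg_left ih hT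
    have h2 : T X n b ω * ∑ i : Fin L.length, X (n + 1) ω ^ (L.get i) * Tp X (n + 1) (L.eraseIdx i) ω ≤
        ∑ i : Fin L.length, X (n + 1) ω ^ ((b :: L).get i.succ) *
          (T X (n + 1) b ω * Tp X (n + 1) (L.eraseIdx i) ω) := by
      rw [Finset.mul_sum]
      refine Finset.sum_le_sum fun i _ => ?_
      show _ ≤ X (n + 1) ω ^ (L.get i) * (T X (n + 1) b ω * Tp X (n + 1) (L.eraseIdx i) ω)
      have h3 : 0 ≤ X (n + 1) ω ^ (L.get i) := pow_nonneg (zero_le_one.trans (one_le S _ ω)) _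
      have h4 := Tp_nonneg S (n + 1) (L.eraseIdx i) ω
      have h5 : T X n b ω ≤ T X (n + 1) b ω := by rw [T_succ]; linarith
      have h6 := mul_le_mul_of_nonneg_right h5 (mul_nonneg h3 h4)
      linarith
    rw [T_succ] at h2 ⊢
    linarith

lemma V_int (n a : ℕ) (L : List ℕ) : Integrable (fun ω => X n ω ^ a * Tp X n L ω) P := by
  refine Dep.integrable S (n := n) fun ω ω' hk => ?_
  rw [depX S n n le_rfl ω ω' hk, depTp S n L ω ω' hk]

omit [IsProbabilityMeasure P] in
lemma V_nonneg (n a : ℕ) (L : List ℕ) : 0 ≤ V P X n a L :=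
  integral_nonneg fun ω => mul_nonneg (pow_nonneg (zero_le_one.trans (one_le S _ ω)) _)
    (Tp_nonneg S n L ω)

/-- The one step identity. -/
lemma step_eq (n a : ℕ) (L : List ℕ) :
    ∫ ω, X (n + 1) ω ^ a * Tp X n L ω ∂P = V P X n a L + (1 / ((n : ℝ) + 1)) *
      ∑ b ∈ Finset.range a, (a.choose (b + 1) : ℝ) * V P X n (a - (b + 1)) ((b + 1) :: L) := by
  have h1 : ∀ ω, X (n + 1) ω ^ a * Tp X n L ω =
      (fun (k : Fin (n + 1)) ω => (X k ω + X n ω) ^ a * Tp X n L ω) (U n ω) ω := by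
    intro ω
    simp only
    rw [S.succ, add_comm]
  have hdep : ∀ k : Fin (n + 1), Dep U n (fun ω => (X k ω + X n ω) ^ a * Tp X n L ω) := by
    intro k ω ω' hk
    simp only
    rw [depX S n n le_rfl ω ω' hk, depTp S n L ω ω' hk, depX S n k (by have := k.2; omega) ω ω' hk]
  simp_rw [h1]
  rw [avg S (fun (k : Fin (n + 1)) ω => (X k ω + X n ω) ^ a * Tp X n L ω) hdep,
    ← integral_finsetSum _ fun k _ => Dep.integrable S (hdep k)]
  have h2 : ∀ ω, ∑ k : Fin (n + 1), (X k ω + X n ω) ^ a * Tp X n L ω =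
      ((n : ℝ) + 1) * (X n ω ^ a * Tp X n L ω) +
      ∑ b ∈ Finset.range a, (a.choose (b + 1) : ℝ) * (X n ω ^ (a - (b + 1)) * Tp X n ((b + 1) :: L) ω) := by
    intro ω
    have h3 : ∀ k : Fin (n + 1), (X k ω + X n ω) ^ a * Tp X n L ω =
        X n ω ^ a * Tp X n L ω + ∑ b ∈ Finset.range a,
          X k ω ^ (b + 1) * ((a.choose (b + 1) : ℝ) * (X n ω ^ (a - (b + 1)) * Tp X n L ω)) := by
      intro k
      rw [add_pow, Finset.sum_range_succ', add_mul, Finset.sum_mul, add_comm]
      congr 1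
      · simp
      · exact Finset.sum_congr rfl fun b _ => by ring
    simp_rw [h3]
    rw [Finset.sum_add_distrib, Finset.sum_const, Finset.card_univ, Fintype.card_fin, nsmul_eq_mul,
      Finset.sum_comm]
    push_cast
    congr 1
    refine Finset.sum_congr rfl fun b _ => ?_
    rw [← Finset.sum_mul, Tp_cons, T, Finset.sum_range fun i => X i ω ^ (b + 1)]
    ring
  simp_rw [h2]
  rw [integral_add ((V_int S n a L).const_mul _) (integrable_finsetSum _ fun b _ =>
    (V_int S n _ _).const_mul _), integral_const_mul, integral_finsetSum _ fun b _ =>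
    (V_int S n _ _).const_mul _]
  have h4 : ((n : ℝ) + 1) ≠ 0 := by positivity
  simp_rw [integral_const_mul]
  rw [mul_add, ← mul_assoc, one_div, inv_mul_cancel₀ h4, one_mul]
  rfl

/-- The recursive inequality for the mixed moments. -/
lemma V_step (n a : ℕ) (L : List ℕ) :
    V P X (n + 1) a L ≤ V P X n a L + (1 / ((n : ℝ) + 1)) *
      ∑ b ∈ Finset.range a, (a.choose (b + 1) : ℝ) * V P X n (a - (b + 1)) ((b + 1) :: L) +
      ∑ i : Fin L.length, V P X (n + 1) (a + L.get i) (L.eraseIdx i) := by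
  rw [← step_eq S n a L]
  have hi1 : Integrable (fun ω => X (n + 1) ω ^ a * Tp X n L ω) P := by
    refine Dep.integrable S (n := n + 1) fun ω ω' hk => ?_
    rw [depX S (n + 1) (n + 1) le_rfl ω ω' hk, (depTp S n L).mono (Nat.le_succ n) ω ω' hk]
  unfold V
  rw [← integral_finsetSum _ fun i _ => V_int S (n + 1) _ _, ← integral_add hi1
    (integrable_finsetSum _ fun i _ => V_int S (n + 1) _ _)]
  refine integral_mono (V_int S (n + 1) a L) (hi1.add
    (integrable_finsetSum _ fun i _ => V_int S (n + 1) _ _)) fun ω => ?_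
  have h1 := Tp_succ_le S n L ω
  have h2 : 0 ≤ X (n + 1) ω ^ a := pow_nonneg (zero_le_one.trans (one_le S _ ω)) _
  have h3 := mul_le_mul_of_nonneg_left h1 h2
  rw [mul_add, Finset.mul_sum] at h3
  refine h3.trans (le_of_eq ?_)
  congr 1
  refine Finset.sum_congr rfl fun i _ => ?_
  rw [pow_add]; ring

end

end Pool.Agent.R976.Adder
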