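import Pool.Agent.R976.Adder

set_option autoImplicit false

open MeasureTheory ProbabilityTheory Filter Topology

namespace Pool.Agent.R976.Adder

variable {Ω : Type*} [MeasurableSpace Ω]
variable {P : Measure Ω} [IsProbabilityMeasure P] {U : (n : ℕ) → Ω → Fin (n + 1)} {X : ℕ → Ω → ℝ}

/-- products of the weights -/
noncomputable def Psi (x : ℕ → ℝ) (j : ℕ) : ℝ := ∏ k ∈ Finset.range j, x (k + 1)

/-- the majorant -/
noncomputable def bet (x : ℕ → ℝ) (C L' : ℝ) (j n : ℕ) : ℝ :=
  C * Real.exp (2 * L' * √(n : ℝ)) * Psi x j * √(n : ℝ) ^ j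

lemma Psi_pos {x : ℕ → ℝ} (hx : ∀ j, 0 < x j) (j : ℕ) : 0 < Psi x j :=
  Finset.prod_pos fun _ _ => hx _

lemma Psi_succ (x : ℕ → ℝ) (j : ℕ) : Psi x (j + 1) = Psi x j * x (j + 1) := by
  rw [Psi, Finset.prod_range_succ]; rfl

/-- The scalar inequality. -/
lemma scalar (s s' c A L L' : ℝ) (j : ℕ) (hs : 0 ≤ s) (hs' : s' ^ 2 = s ^ 2 + 1) (hs'0 : 0 < s')
    (hc : 0 ≤ c) (hcL : c ≤ L) (hA : 0 ≤ A) (hAc : A + c ≤ L) (hLL : L < L') (h1 : L ≤ s')
    (h2 : L * L' ≤ s' * (L' - L)) (hj : j = 0 → c = 0) :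
    s ^ j + A * s ^ (j + 1) / (s ^ 2 + 1) + c * (Real.exp (2 * L' * (s' - s)) * s' ^ (j - 1)) ≤
      Real.exp (2 * L' * (s' - s)) * s' ^ j := by
  have hL : 0 ≤ L := hc.trans hcL
  have hss : s ≤ s' := by nlinarith
  have hd : 1 / s' ≤ 2 * (s' - s) := by
    rw [div_le_iff₀ hs'0]
    nlinarith
  have hrho : 1 + L' / s' ≤ Real.exp (2 * L' * (s' - s)) := by
    have h3 := Real.add_one_le_exp (2 * L' * (s' - s))
    have h4 : L' / s' ≤ 2 * L' * (s' - s) := by
      have : L' / s' = L' * (1 / s') := by ring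
      rw [this]
      nlinarith
    linarith
  set r := Real.exp (2 * L' * (s' - s)) with hr
  rw [← hs']
  cases j with
  | zero =>
    rw [hj rfl]
    simp only [pow_zero, zero_add, pow_one, zero_mul, add_zero, mul_one]
    have h5 : A * s / s' ^ 2 ≤ L' / s' := by
      rw [div_le_div_iff₀ (by positivity) hs'0]
      have : A * s ≤ L' * s' := by nlinarith
      nlinarith
    linarith
  | succ j =>
    simp only [Nat.add_sub_cancel]
    have hp : 0 < s' ^ j := by positivity
    have h5 : s ^ (j + 1) ≤ s' ^ (j + 1) := pow_le_pow_left₀ hs hss _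
    have h6 : A * s ^ (j + 1 + 1) / s' ^ 2 ≤ A * s' ^ j := by
      rw [div_le_iff₀ (by positivity)]
      have h7 : s ^ (j + 1 + 1) ≤ s' ^ (j + 1 + 1) := pow_le_pow_left₀ hs hss _
      have h8 : s' ^ (j + 1 + 1) = s' ^ j * s' ^ 2 := by ring
      rw [mul_assoc, ← h8]
      exact mul_le_mul_of_nonneg_left h7 hA
    have h9 : (1 + L' / s') * (s' - c) ≤ r * (s' - c) :=
      mul_le_mul_of_nonneg_right hrho (by linarith)
    have h10 : s' + A ≤ (1 + L' / s') * (s' - c) := by
      have h11 : (1 + L' / s') * (s' - c) = s' - c + L' - c * L' / s' := by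
        field_simp
        ring
      have h12 : c * L' / s' ≤ L' - L := by
        rw [div_le_iff₀ hs'0]
        nlinarith
      rw [h11]; linarith
    have h13 : s' ^ j * (s' + A) ≤ s' ^ j * (r * (s' - c)) :=
      mul_le_mul_of_nonneg_left (h10.trans h9) hp.le
    have h14 : s' ^ (j + 1) = s' ^ j * s' := pow_succ _ _
    rw [h14] at h5 ⊢
    nlinarith

section

variable (S : Setup P U X)

include S

/-- The crude bound. -/
lemma crude (n a : ℕ) (L : List ℕ) :
    V P X n a L ≤ (2 ^ n : ℝ) ^ (a + L.sum) * ((n : ℝ) + 1) ^ L.length := by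
  have h1 : ∀ ω, X n ω ^ a * Tp X n L ω ≤ (2 ^ n : ℝ) ^ (a + L.sum) * ((n : ℝ) + 1) ^ L.length := by
    intro ω
    have hX : ∀ i ≤ n, X i ω ≤ 2 ^ n := fun i hi => (X_mono S ω hi).trans (X_le S ω n)
    have hT : ∀ b, T X n b ω ≤ ((n : ℝ) + 1) * (2 ^ n : ℝ) ^ b := by
      intro b
      unfold T
      have : ∀ i ∈ Finset.range (n + 1), X i ω ^ b ≤ (2 ^ n : ℝ) ^ b := fun i hi =>
        pow_le_pow_left₀ (zero_le_one.trans (one_le S i ω)) (hX i (by
          have := Finset.mem_range.1 hi; omega)) _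
      refine (Finset.sum_le_sum this).trans (le_of_eq ?_)
      rw [Finset.sum_const, Finset.card_range, nsmul_eq_mul]
      push_cast; ring
    have hTp : Tp X n L ω ≤ (2 ^ n : ℝ) ^ L.sum * ((n : ℝ) + 1) ^ L.length := by
      induction L with
      | nil => simp [Tp]
      | cons b L ih =>
        rw [Tp_cons, List.sum_cons, List.length_cons]
        calc T X n b ω * Tp X n L ω ≤ (((n : ℝ) + 1) * (2 ^ n : ℝ) ^ b) *
              ((2 ^ n : ℝ) ^ L.sum * ((n : ℝ) + 1) ^ L.length) :=
              mul_le_mul (hT b) ih (Tp_nonneg S n L ω) (by positivity)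
          _ = _ := by rw [pow_add, pow_succ]; ring
    calc X n ω ^ a * Tp X n L ω ≤ (2 ^ n : ℝ) ^ a * ((2 ^ n : ℝ) ^ L.sum * ((n : ℝ) + 1) ^ L.length) :=
          mul_le_mul (pow_le_pow_left₀ (zero_le_one.trans (one_le S n ω)) (hX n le_rfl) _) hTp
            (Tp_nonneg S n L ω) (by positivity)
      _ = _ := by rw [pow_add]; ring
  unfold V
  refine (integral_mono (V_int S n a L) (integrable_const _) h1).trans (le_of_eq ?_)
  simp

omit [MeasurableSpace Ω] [IsProbabilityMeasure P] S in
lemma sum_choose (a : ℕ) : ∑ b ∈ Finset.range a, (a.choose (b + 1) : ℝ) = 2 ^ a - 1 := by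
  have h := Nat.sum_range_choose a
  rw [Finset.sum_range_succ'] at h
  have h2 : ((∑ b ∈ Finset.range a, a.choose (b + 1) + a.choose 0 : ℕ) : ℝ) = ((2 ^ a : ℕ) : ℝ) := by
    rw [h]
  push_cast at h2
  simp at h2
  linarith

omit [MeasurableSpace Ω] [IsProbabilityMeasure P] S in
lemma length_le_sum : ∀ (L : List ℕ), (∀ b ∈ L, 1 ≤ b) → L.length ≤ L.sum := by
  intro L
  induction L with
  | nil => simp
  | cons b L ih =>
    intro h
    have h1 := ih fun c hc => h c (List.mem_cons_of_mem _ hc)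
    have h2 := h b List.mem_cons_self
    rw [List.length_cons, List.sum_cons]; omega

/-- **Upper bound.** -/
theorem upper (m : ℕ) (x : ℕ → ℝ) (hx : ∀ j, 0 < x j) (L L' : ℝ)
    (hL : ∀ j ≤ m, (2 ^ (m - j) - 1) * x (j + 1) + j / x j ≤ L) (hLL : L < L') :
    ∃ C : ℝ, 0 < C ∧ ∀ᶠ n : ℕ in atTop, ∫ ω, X n ω ^ m ∂P ≤ C * Real.exp (2 * L' * √(n : ℝ)) := by
  have hL0 : 0 ≤ L := by
    refine le_trans ?_ (hL 0 (Nat.zero_le _))
    have h1 : (1:ℝ) ≤ 2 ^ (m - 0) := one_le_pow₀ (by norm_num)
    have := hx 1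
    simp only [Nat.cast_zero, zero_div, add_zero, zero_add]
    nlinarith
  -- threshold
  obtain ⟨n0, hn0⟩ : ∃ n0 : ℕ, 1 ≤ n0 ∧ L ≤ √(n0 : ℝ) ∧ L * L' ≤ √(n0 : ℝ) * (L' - L) := by
    have ht : Tendsto (fun n : ℕ => √(n : ℝ)) atTop atTop :=
      Real.tendsto_sqrt_atTop.comp tendsto_natCast_atTop_atTop
    have h1 := ht.eventually_ge_atTop L
    have h2 := ht.eventually_ge_atTop (L * L' / (L' - L))
    obtain ⟨n, h3, h4, h5⟩ := (h1.and (h2.and (eventually_ge_atTop 1))).exists
    refine ⟨n, h5, h3, ?_⟩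
    rwa [div_le_iff₀ (by linarith)] at h4
  obtain ⟨hn1, hnL, hnLL⟩ := hn0
  set C : ℝ := (2 ^ n0 : ℝ) ^ m * ∑ j ∈ Finset.range (m + 1), ((n0 : ℝ) + 1) ^ j / Psi x j with hC
  have hCpos : 0 < C := by
    rw [hC]
    refine mul_pos (by positivity) (Finset.sum_pos (fun j _ => ?_) ⟨0, by simp⟩)
    have := Psi_pos hx j
    positivity
  have key : ∀ n, n0 ≤ n → ∀ (j a : ℕ) (Q : List ℕ), Q.length = j → (∀ b ∈ Q, 1 ≤ b) →
      a + Q.sum = m → V P X n a Q ≤ bet x C L' j n := by
    intro n hn
    induction n, hn using Nat.le_induction with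
    | base =>
      intro j a Q hj hQ ha
      have h1 := crude S n0 a Q
      rw [ha, hj] at h1
      refine h1.trans ?_
      have hjm : j ≤ m := by have := length_le_sum Q hQ; omega
      have hP := Psi_pos hx j
      have h2 : ((n0 : ℝ) + 1) ^ j / Psi x j ≤
          ∑ j ∈ Finset.range (m + 1), ((n0 : ℝ) + 1) ^ j / Psi x j :=
        Finset.single_le_sum (f := fun j => ((n0 : ℝ) + 1) ^ j / Psi x j)
          (fun i _ => by have := Psi_pos hx i; positivity) (Finset.mem_range.2 (by omega))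
      have h3 : (2 ^ n0 : ℝ) ^ m * ((n0 : ℝ) + 1) ^ j ≤ C * Psi x j := by
        rw [hC, mul_assoc]
        refine mul_le_mul_of_nonneg_left ?_ (by positivity)
        rwa [div_le_iff₀ hP] at h2
      have h4 : 1 ≤ √(n0 : ℝ) := Real.one_le_sqrt.2 (by exact_mod_cast hn1)
      have h5 : 1 ≤ √(n0 : ℝ) ^ j := one_le_pow₀ h4
      have h6 : 1 ≤ Real.exp (2 * L' * √(n0 : ℝ)) := by
        apply Real.one_le_exp
        have : 0 ≤ L' := by linarith
        positivity
      unfold bet
      calc (2 ^ n0 : ℝ) ^ m * ((n0 : ℝ) + 1) ^ j ≤ C * Psi x j := h3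
        _ = C * 1 * Psi x j * 1 := by ring
        _ ≤ C * Real.exp (2 * L' * √(n0 : ℝ)) * Psi x j * √(n0 : ℝ) ^ j := by gcongr
    | succ n hn ih =>
      intro j
      induction j using Nat.strong_induction_on with
      | _ j ihj =>
      intro a Q hj hQ ha
      have hjm : j ≤ m := by have := length_le_sum Q hQ; omega
      have hsum := length_le_sum Q hQ
      refine (V_step S n a Q).trans ?_
      have h1 := ih j a Q hj hQ ha
      have h2 : ∑ b ∈ Finset.range a, (a.choose (b + 1) : ℝ) * V P X n (a - (b + 1)) ((b + 1) :: Q) ≤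
          (2 ^ (m - j) - 1) * bet x C L' (j + 1) n := by
        have h3 : ∀ b ∈ Finset.range a, (a.choose (b + 1) : ℝ) * V P X n (a - (b + 1)) ((b + 1) :: Q) ≤
            (a.choose (b + 1) : ℝ) * bet x C L' (j + 1) n := by
          intro b hb
          have hb' := Finset.mem_range.1 hb
          refine mul_le_mul_of_nonneg_left (ih (j + 1) _ _ (by simp [hj]) ?_ ?_) (by positivity)
          · intro c hc
            rcases List.mem_cons.1 hc with rfl | hc
            · omega
            · exact hQ c hc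
          · rw [List.sum_cons]; omega
        refine (Finset.sum_le_sum h3).trans ?_
        rw [← Finset.sum_mul, sum_choose]
        have h4 : 0 ≤ bet x C L' (j + 1) n := by
          unfold bet
          have := Psi_pos hx (j + 1)
          positivity
        refine mul_le_mul_of_nonneg_right ?_ h4
        have h5 : (2:ℝ) ^ a ≤ 2 ^ (m - j) := pow_le_pow_right₀ (by norm_num) (by omega)
        linarith
      have h3 : ∑ i : Fin Q.length, V P X (n + 1) (a + Q.get i) (Q.eraseIdx i) ≤
          j * bet x C L' (j - 1) (n + 1) := by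
        have h4 : ∀ i : Fin Q.length, V P X (n + 1) (a + Q.get i) (Q.eraseIdx i) ≤
            bet x C L' (j - 1) (n + 1) := by
          intro i
          have hi := i.2
          refine ihj (j - 1) (by omega) _ _ ?_ ?_ ?_
          · rw [List.length_eraseIdx_of_lt hi, hj]
          · intro c hc
            exact hQ c (List.mem_of_mem_eraseIdx hc)
          · have : (Q.get i) + (Q.eraseIdx i).sum = Q.sum := by
              have hp := List.getElem_cons_eraseIdx_perm hi
              have := hp.sum_eq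
              rw [List.sum_cons] at this
              simpa using this
            omega
        refine (Finset.sum_le_sum fun i _ => h4 i).trans (le_of_eq ?_)
        rw [Finset.sum_const, Finset.card_univ, Fintype.card_fin, hj, nsmul_eq_mul]
      have hs : √((n : ℝ) + 1) ^ 2 = √(n : ℝ) ^ 2 + 1 := by
        rw [Real.sq_sqrt (by positivity), Real.sq_sqrt (by positivity)]
      have hs0 : 0 < √((n : ℝ) + 1) := Real.sqrt_pos.2 (by positivity)
      have hmono : √(n0 : ℝ) ≤ √((n : ℝ) + 1) := Real.sqrt_le_sqrt (by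
        have : (n0 : ℝ) ≤ n := by exact_mod_cast hn
        linarith)
      have hxj := hx j
      have hxj1 := hx (j + 1)
      have hA0 : 0 ≤ ((2:ℝ) ^ (m - j) - 1) * x (j + 1) := by
        have : (1:ℝ) ≤ 2 ^ (m - j) := one_le_pow₀ (by norm_num)
        nlinarith
      have hc0 : 0 ≤ (j : ℝ) / x j := by positivity
      have hAc := hL j hjm
      have hsc := scalar (√(n : ℝ)) (√((n : ℝ) + 1)) (j / x j) ((2 ^ (m - j) - 1) * x (j + 1)) L L' j
        (Real.sqrt_nonneg _) hs hs0 hc0 (by linarith) hA0 (by linarith) hLL (hnL.trans hmono)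
        (hnLL.trans (mul_le_mul_of_nonneg_right hmono (by linarith)))
        (by rintro rfl; simp)
      rw [Real.sq_sqrt (by positivity)] at hsc
      have hE : Real.exp (2 * L' * √((n : ℝ) + 1)) =
          Real.exp (2 * L' * √(n : ℝ)) * Real.exp (2 * L' * (√((n : ℝ) + 1) - √(n : ℝ))) := by
        rw [← Real.exp_add]; congr 1; ring
      have hPj := Psi_pos hx j
      have hmul := mul_le_mul_of_nonneg_left hsc
        (show 0 ≤ C * Real.exp (2 * L' * √(n : ℝ)) * Psi x j by positivity)
      have e1 : bet x C L' j (n + 1) = C * Real.exp (2 * L' * √(n : ℝ)) * Psi x j *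
          (Real.exp (2 * L' * (√((n : ℝ) + 1) - √(n : ℝ))) * √((n : ℝ) + 1) ^ j) := by
        unfold bet
        push_cast
        rw [hE]; ring
      have e2 : (j : ℝ) * bet x C L' (j - 1) (n + 1) = C * Real.exp (2 * L' * √(n : ℝ)) * Psi x j *
          (j / x j * (Real.exp (2 * L' * (√((n : ℝ) + 1) - √(n : ℝ))) * √((n : ℝ) + 1) ^ (j - 1))) := by
        cases j with
        | zero => simp
        | succ j =>
          unfold bet
          push_cast
          rw [hE, Psi_succ]
          field_simp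
      have e3 : 1 / ((n : ℝ) + 1) * ((2 ^ (m - j) - 1) * bet x C L' (j + 1) n) =
          C * Real.exp (2 * L' * √(n : ℝ)) * Psi x j *
          ((2 ^ (m - j) - 1) * x (j + 1) * √(n : ℝ) ^ (j + 1) / ((n : ℝ) + 1)) := by
        unfold bet
        rw [Psi_succ]
        field_simp
      have e4 : bet x C L' j n = C * Real.exp (2 * L' * √(n : ℝ)) * Psi x j * √(n : ℝ) ^ j := rfl
      have h2' := mul_le_mul_of_nonneg_left h2 (show (0:ℝ) ≤ 1 / ((n : ℝ) + 1) by positivity)
      rw [e1]
      rw [e3] at h2'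
      rw [e2] at h3
      rw [e4] at h1
      rw [mul_add, mul_add] at hmul
      linarith
  refine ⟨C, hCpos, ?_⟩
  filter_upwards [eventually_ge_atTop n0] with n hn
  have := key n hn 0 m [] rfl (by simp) (by simp)
  simp only [V, Tp, bet, Psi, List.map_nil, List.prod_nil, mul_one, Finset.range_zero, Finset.prod_empty, pow_zero] at this
  exact this

end

end Pool.Agent.R976.Adder
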