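import Pool.Agent.R976.AdderGrowth

set_option autoImplicit false

open MeasureTheory ProbabilityTheory Filter Topology

namespace Pool.Agent.R976.Adder

lemma add_pow_ge (x y : ℝ) (hx : 0 ≤ x) (hxy : x ≤ y) (m : ℕ) :
    y ^ m + (2 ^ m - 1) * x ^ m ≤ (x + y) ^ m := by
  induction m with
  | zero => simp
  | succ m ih =>
    have h0 : 0 ≤ x + y := by linarith
    have h1 := mul_le_mul_of_nonneg_right ih h0
    have h2 : x ^ m ≤ y ^ m := pow_le_pow_left₀ hx hxy m
    have h3 : (1:ℝ) ≤ 2 ^ m := one_le_pow₀ (by norm_num)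
    have h4 : 0 ≤ x ^ m := pow_nonneg hx m
    have h5 : 0 ≤ (2 ^ m - 1) * x ^ m * (y - x) :=
      mul_nonneg (mul_nonneg (by linarith) h4) (by linarith)
    have h6 : 0 ≤ x * (y ^ m - x ^ m) := mul_nonneg hx (by linarith)
    rw [pow_succ, pow_succ, pow_succ, pow_succ]
    nlinarith

/-- Growth of a sequence from a recursive lower bound. -/
lemma seq_lower (M : ℕ → ℝ) (hM : ∀ n, 0 < M n) (A γ κ' : ℝ) (hA : 0 < A) (hγ : 0 < γ) (hκ : 0 < κ')
    (hrec : ∀ n, M n + A / ((n : ℝ) + 1) * ∑ i ∈ Finset.range (n + 1), M i ≤ M (n + 1))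
    (h1 : γ / 2 < A * κ') (h2 : κ' * γ < 2) :
    ∃ κ : ℝ, 0 < κ ∧ ∀ᶠ n : ℕ in atTop, κ * Real.exp (γ * √(n : ℝ)) ≤ M n := by
  have ht : Tendsto (fun n : ℕ => √(n : ℝ)) atTop atTop :=
    Real.tendsto_sqrt_atTop.comp tendsto_natCast_atTop_atTop
  -- thresholds
  obtain ⟨n0, hn0, hs1, hs2, hs3⟩ : ∃ n0 : ℕ, 1 ≤ n0 ∧ γ ≤ 2 * √(n0 : ℝ) ∧
      κ' ≤ (2 - κ' * γ) * √(n0 : ℝ) ∧ (γ / 2 + γ ^ 2 / 4 + 1) ≤ (A * κ' - γ / 2) * √(n0 : ℝ) := by
    have e1 := ht.eventually_ge_atTop (γ / 2)
    have e2 := ht.eventually_ge_atTop (κ' / (2 - κ' * γ))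
    have e3 := ht.eventually_ge_atTop ((γ / 2 + γ ^ 2 / 4 + 1) / (A * κ' - γ / 2))
    obtain ⟨n, f1, f2, f3, f4⟩ := (e1.and (e2.and (e3.and (eventually_ge_atTop 1)))).exists
    rw [div_le_iff₀ (by linarith)] at f2 f3
    exact ⟨n, f4, by linarith, by linarith, by linarith⟩
  set κ : ℝ := min (M n0) (M n0 / (κ' * √(n0 : ℝ))) / Real.exp (γ * √(n0 : ℝ)) with hκdef
  have hsn0 : 1 ≤ √(n0 : ℝ) := Real.one_le_sqrt.2 (by exact_mod_cast hn0)
  have hκpos : 0 < κ := by
    rw [hκdef]
    have := hM n0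
    positivity
  have key : ∀ n, n0 ≤ n → κ * Real.exp (γ * √(n : ℝ)) ≤ M n ∧
      κ * κ' * √(n : ℝ) * Real.exp (γ * √(n : ℝ)) ≤ ∑ i ∈ Finset.range (n + 1), M i := by
    intro n hn
    induction n, hn using Nat.le_induction with
    | base =>
      have he := Real.exp_pos (γ * √(n0 : ℝ))
      have e1 : κ * Real.exp (γ * √(n0 : ℝ)) = min (M n0) (M n0 / (κ' * √(n0 : ℝ))) := by
        rw [hκdef]; field_simp
      constructor
      · rw [e1]; exact min_le_left _ _
      · have e2 : κ * κ' * √(n0 : ℝ) * Real.exp (γ * √(n0 : ℝ)) =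
            min (M n0) (M n0 / (κ' * √(n0 : ℝ))) * (κ' * √(n0 : ℝ)) := by
          rw [← e1]; ring
        rw [e2]
        have e3 : min (M n0) (M n0 / (κ' * √(n0 : ℝ))) * (κ' * √(n0 : ℝ)) ≤ M n0 := by
          have : 0 < κ' * √(n0 : ℝ) := by positivity
          rw [← le_div_iff₀ this]
          exact min_le_right _ _
        refine e3.trans ?_
        exact Finset.single_le_sum (f := M) (fun i _ => (hM i).le) (Finset.mem_range.2 (Nat.lt_succ_self _))
    | succ n hn ih =>
      obtain ⟨ih1, ih2⟩ := ih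
      have hmono : √(n0 : ℝ) ≤ √(n : ℝ) := Real.sqrt_le_sqrt (by exact_mod_cast hn)
      have hs : √((n : ℝ) + 1) ^ 2 = √(n : ℝ) ^ 2 + 1 := by
        rw [Real.sq_sqrt (by positivity), Real.sq_sqrt (by positivity)]
      have hnn : (n : ℝ) = √(n : ℝ) ^ 2 := (Real.sq_sqrt (by positivity)).symm
      have hcast : ((n + 1 : ℕ) : ℝ) = (n : ℝ) + 1 := by push_cast; ring
      have hrec' := hrec n
      rw [Finset.sum_range_succ _ (n + 1)]
      rw [hcast]
      set s := √(n : ℝ) with hsdef
      set s' := √((n : ℝ) + 1) with hs'def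
      have hs1' : 1 ≤ s := hsn0.trans hmono
      have hs'0 : 0 < s' := Real.sqrt_pos.2 (by positivity)
      have hss : s < s' := by nlinarith
      have hd : s' - s ≤ 1 / (2 * s) := by
        rw [le_div_iff₀ (by positivity)]
        nlinarith
      set g := Real.exp (γ * s) with hg
      have hgpos : 0 < g := Real.exp_pos _
      have hg' : Real.exp (γ * s') = g * Real.exp (γ * (s' - s)) := by
        rw [hg, ← Real.exp_add]; congr 1; ring
      have hr1 : Real.exp (γ * (s' - s)) ≤ 1 + γ / (2 * s) + (γ / (2 * s)) ^ 2 := by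
        have hx : γ * (s' - s) ≤ γ / (2 * s) := by
          have := mul_le_mul_of_nonneg_left hd hγ.le
          have e : γ * (1 / (2 * s)) = γ / (2 * s) := by ring
          linarith
        have hx1 : γ / (2 * s) ≤ 1 := by
          rw [div_le_one (by positivity)]; nlinarith
        have hx0 : 0 ≤ γ / (2 * s) := by positivity
        have := Real.abs_exp_sub_one_sub_id_le (x := γ / (2 * s)) (by rw [abs_of_nonneg hx0]; exact hx1)
        have h3 := (abs_le.1 this).2
        have h4 := Real.exp_le_exp.2 hx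
        linarith
      have hr2 : 1 - γ * (s' - s) ≤ Real.exp (-(γ * (s' - s))) := by
        have := Real.add_one_le_exp (-(γ * (s' - s)))
        linarith
      -- first component
      have hM1 : κ * Real.exp (γ * s') ≤ M (n + 1) := by
        rw [hg']
        refine le_trans ?_ hrec'
        have e1 : A / ((n : ℝ) + 1) * (κ * κ' * s * g) ≤
            A / ((n : ℝ) + 1) * ∑ i ∈ Finset.range (n + 1), M i :=
          mul_le_mul_of_nonneg_left ih2 (by positivity)
        have e2 : κ * (g * Real.exp (γ * (s' - s))) ≤ κ * g + A / ((n : ℝ) + 1) * (κ * κ' * s * g) := by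
          have e3 : κ * g + A / ((n : ℝ) + 1) * (κ * κ' * s * g) =
              κ * g * (1 + A * κ' * s / ((n : ℝ) + 1)) := by ring
          rw [e3, ← mul_assoc]
          refine mul_le_mul_of_nonneg_left (hr1.trans ?_) (by positivity)
          have e4 : γ / (2 * s) + (γ / (2 * s)) ^ 2 ≤ A * κ' * s / ((n : ℝ) + 1) := by
            rw [le_div_iff₀ (by positivity)]
            have e5 : (γ / (2 * s) + (γ / (2 * s)) ^ 2) * ((n : ℝ) + 1) =
                (γ / 2 * s + γ ^ 2 / 4) * ((s ^ 2 + 1) / s ^ 2) := by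
              rw [hnn]
              field_simp
              ring
            rw [e5]
            have e6 : (s ^ 2 + 1) / s ^ 2 = 1 + 1 / s ^ 2 := by field_simp
            rw [e6]
            have e7 : (γ / 2 * s + γ ^ 2 / 4) * (1 / s ^ 2) ≤ 1 + γ / 2 := by
              have g1 : γ ≤ 2 * s := by linarith
              have g2 : γ ^ 2 ≤ 4 * s ^ 2 := by
                have := pow_le_pow_left₀ hγ.le g1 2
                rw [mul_pow] at this
                linarith
              have g3 : s ≤ s ^ 2 := by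
                have := mul_le_mul_of_nonneg_left hs1' (by positivity : 0 ≤ s)
                rw [mul_one] at this
                rw [sq]; exact this
              have g4 := mul_le_mul_of_nonneg_left g3 (by positivity : 0 ≤ γ / 2)
              rw [mul_one_div, div_le_iff₀ (by positivity)]
              have g5 : (1 + γ / 2) * s ^ 2 = s ^ 2 + γ / 2 * s ^ 2 := by ring
              rw [g5]
              linarith
            have e8 : γ / 2 + γ ^ 2 / 4 + 1 ≤ (A * κ' - γ / 2) * s :=
              hs3.trans (mul_le_mul_of_nonneg_left hmono (by linarith))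
            have e9 : (γ / 2 * s + γ ^ 2 / 4) * (1 + 1 / s ^ 2) =
                (γ / 2 * s + γ ^ 2 / 4) + (γ / 2 * s + γ ^ 2 / 4) * (1 / s ^ 2) := by ring
            have e10 : (A * κ' - γ / 2) * s = A * κ' * s - γ / 2 * s := by ring
            rw [e9]
            linarith
          linarith
        linarith
      refine ⟨hM1, ?_⟩
      -- second component
      have e1 : κ * κ' * s' * Real.exp (γ * s') ≤ κ * κ' * s * g + κ * Real.exp (γ * s') := by
        have e2 : g = Real.exp (γ * s') * Real.exp (-(γ * (s' - s))) := by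
          rw [hg, ← Real.exp_add]; congr 1; ring
        have e3 : κ * κ' * s * g + κ * Real.exp (γ * s') =
            κ * Real.exp (γ * s') * (κ' * s * Real.exp (-(γ * (s' - s))) + 1) := by
          rw [e2]; ring
        have e4 : κ * κ' * s' * Real.exp (γ * s') = κ * Real.exp (γ * s') * (κ' * s') := by ring
        rw [e3, e4]
        refine mul_le_mul_of_nonneg_left ?_ (by positivity)
        have e5 : κ' * s * (1 - γ * (s' - s)) ≤ κ' * s * Real.exp (-(γ * (s' - s))) :=
          mul_le_mul_of_nonneg_left hr2 (by positivity)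
        have e6 : κ' * (s' - s) * (1 + γ * s) ≤ 1 := by
          have e7 : κ' * (s' - s) * (1 + γ * s) ≤ κ' * (1 / (2 * s)) * (1 + γ * s) := by gcongr
          refine e7.trans ?_
          have e8 : κ' * (1 / (2 * s)) * (1 + γ * s) = (κ' + κ' * γ * s) / (2 * s) := by
            field_simp
          rw [e8, div_le_one (by positivity)]
          have e9 : κ' ≤ (2 - κ' * γ) * s :=
            hs2.trans (mul_le_mul_of_nonneg_left hmono (by linarith))
          linarith
        nlinarith
      linarith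
  exact ⟨κ, hκpos, by filter_upwards [eventually_ge_atTop n0] with n hn using (key n hn).1⟩

section

variable {Ω : Type*} [MeasurableSpace Ω]
variable {P : Measure Ω} [IsProbabilityMeasure P] {U : (n : ℕ) → Ω → Fin (n + 1)} {X : ℕ → Ω → ℝ}
  (S : Setup P U X)

include S

lemma powInt (n m : ℕ) : Integrable (fun ω => X n ω ^ m) P := by
  refine Dep.integrable S (n := n) fun ω ω' hk => ?_
  rw [depX S n n le_rfl ω ω' hk]

lemma one_le_moment (n m : ℕ) : 1 ≤ ∫ ω, X n ω ^ m ∂P := by
  have h := integral_mono (integrable_const (1:ℝ)) (powInt S n m)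
    (fun ω => one_le_pow₀ (one_le S n ω))
  simpa using h

/-- The recursive lower bound for the moments. -/
lemma moment_rec (m n : ℕ) :
    ∫ ω, X n ω ^ m ∂P + (2 ^ m - 1) / ((n : ℝ) + 1) * ∑ i ∈ Finset.range (n + 1), ∫ ω, X i ω ^ m ∂P ≤
      ∫ ω, X (n + 1) ω ^ m ∂P := by
  have h1 : ∀ ω, X (n + 1) ω ^ m = (fun (k : Fin (n + 1)) ω => (X k ω + X n ω) ^ m) (U n ω) ω := by
    intro ω
    simp only
    rw [S.succ, add_comm]
  have hdep : ∀ k : Fin (n + 1), Dep U n (fun ω => (X k ω + X n ω) ^ m) := by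
    intro k ω ω' hk
    simp only
    rw [depX S n n le_rfl ω ω' hk, depX S n k (by have := k.2; omega) ω ω' hk]
  simp_rw [h1]
  rw [avg S (fun (k : Fin (n + 1)) ω => (X k ω + X n ω) ^ m) hdep]
  have h2 : ∀ k : Fin (n + 1), ∫ ω, X n ω ^ m ∂P + (2 ^ m - 1) * ∫ ω, X k ω ^ m ∂P ≤
      ∫ ω, (X k ω + X n ω) ^ m ∂P := by
    intro k
    rw [← integral_const_mul, ← integral_add (powInt S n m) ((powInt S k m).const_mul _)]
    refine integral_mono ((powInt S n m).add ((powInt S k m).const_mul _))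
      (Dep.integrable S (hdep k)) fun ω => ?_
    exact add_pow_ge _ _ (zero_le_one.trans (one_le S k ω))
      (X_mono S ω (show (k : ℕ) ≤ n by have := k.2; omega)) m
  have h3 := Finset.sum_le_sum fun (k : Fin (n + 1)) (_ : k ∈ Finset.univ) => h2 k
  rw [Finset.sum_add_distrib, Finset.sum_const, Finset.card_univ, Fintype.card_fin, nsmul_eq_mul,
    ← Finset.mul_sum] at h3
  have h4 := mul_le_mul_of_nonneg_left h3 (show (0:ℝ) ≤ 1 / ((n : ℝ) + 1) by positivity)
  refine le_trans (le_of_eq ?_) h4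
  rw [Finset.sum_range fun i => ∫ ω, X i ω ^ m ∂P]
  push_cast
  field_simp

/-- **Lower bound.** -/
theorem lower (m : ℕ) (γ : ℝ) (hγ : 0 < γ) (hγA : γ ^ 2 < 4 * (2 ^ m - 1)) :
    ∃ κ : ℝ, 0 < κ ∧ ∀ᶠ n : ℕ in atTop, κ * Real.exp (γ * √(n : ℝ)) ≤ ∫ ω, X n ω ^ m ∂P := by
  have hA : (0:ℝ) < 2 ^ m - 1 := by nlinarith
  have h1 : γ / 2 / (2 ^ m - 1) < 2 / γ := by
    rw [div_div, div_lt_div_iff₀ (by positivity) hγ]
    nlinarith
  obtain ⟨κ', h2, h3⟩ := exists_between h1
  have hκ' : 0 < κ' := lt_of_le_of_lt (by positivity) h2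
  rw [div_lt_iff₀ hA] at h2
  rw [lt_div_iff₀ hγ] at h3
  exact seq_lower (fun n => ∫ ω, X n ω ^ m ∂P) (fun n => lt_of_lt_of_le one_pos (one_le_moment S n m))
    (2 ^ m - 1) γ κ' hA hγ hκ' (moment_rec S m) (by linarith) h3

end

end Pool.Agent.R976.Adder
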