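import Mathlib

set_option autoImplicit false

open MeasureTheory Filter Topology

namespace Pool.Agent.R976.Alt

variable {E : Type*} {𝒜 : Set (Set E)}

/-- `CM 𝒜 n f`: the successive differences of `f` of order at most `n`, along sets of `𝒜`, are
nonnegative. -/
def CM (𝒜 : Set (Set E)) : ℕ → (Set E → ℝ) → Prop
  | 0, f => ∀ K ∈ 𝒜, 0 ≤ f K
  | n + 1, f => (∀ K ∈ 𝒜, 0 ≤ f K) ∧ ∀ A ∈ 𝒜, CM 𝒜 n (fun K => f K - f (K ∪ A))

lemma CM.nonneg {n : ℕ} {f : Set E → ℝ} (h : CM 𝒜 n f) : ∀ K ∈ 𝒜, 0 ≤ f K := by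
  cases n with
  | zero => exact h
  | succ n => exact h.1

lemma CM.congr {n : ℕ} {f g : Set E → ℝ} (hU : ∀ A ∈ 𝒜, ∀ B ∈ 𝒜, A ∪ B ∈ 𝒜)
    (h : CM 𝒜 n f) (hfg : ∀ K ∈ 𝒜, f K = g K) : CM 𝒜 n g := by
  induction n generalizing f g with
  | zero => intro K hK; rw [← hfg K hK]; exact h K hK
  | succ n ih =>
    refine ⟨fun K hK => by rw [← hfg K hK]; exact h.1 K hK, fun A hA => ?_⟩
    exact ih (h.2 A hA) fun K hK => by rw [hfg K hK, hfg _ (hU K hK A hA)]

lemma CM.pred {n : ℕ} {f : Set E → ℝ} (h : CM 𝒜 (n + 1) f) : CM 𝒜 n f := by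
  induction n generalizing f with
  | zero => exact h.1
  | succ n ih => exact ⟨h.1, fun A hA => ih (h.2 A hA)⟩

lemma CM.shift {n : ℕ} {f : Set E → ℝ} (hU : ∀ A ∈ 𝒜, ∀ B ∈ 𝒜, A ∪ B ∈ 𝒜)
    (h : CM 𝒜 n f) {A : Set E} (hA : A ∈ 𝒜) : CM 𝒜 n (fun K => f (K ∪ A)) := by
  induction n generalizing f with
  | zero => intro K hK; exact h _ (hU K hK A hA)
  | succ n ih =>
    refine ⟨fun K hK => h.1 _ (hU K hK A hA), fun B hB => ?_⟩
    have := ih (h.2 B hB)
    refine this.congr hU fun K hK => ?_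
    simp only
    rw [Set.union_assoc, Set.union_comm A B, ← Set.union_assoc]

lemma CM.add {n : ℕ} {f g : Set E → ℝ} (hf : CM 𝒜 n f) (hg : CM 𝒜 n g) :
    CM 𝒜 n (fun K => f K + g K) := by
  induction n generalizing f g with
  | zero => intro K hK; exact add_nonneg (hf K hK) (hg K hK)
  | succ n ih =>
    refine ⟨fun K hK => add_nonneg (hf.1 K hK) (hg.1 K hK), fun A hA => ?_⟩
    have := ih (hf.2 A hA) (hg.2 A hA)
    have e : (fun K => f K + g K - (f (K ∪ A) + g (K ∪ A))) =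
        fun K => f K - f (K ∪ A) + (g K - g (K ∪ A)) := by funext K; ring
    rw [e]; exact this

lemma CM.mul {n : ℕ} {f g : Set E → ℝ} (hU : ∀ A ∈ 𝒜, ∀ B ∈ 𝒜, A ∪ B ∈ 𝒜)
    (hf : CM 𝒜 n f) (hg : CM 𝒜 n g) : CM 𝒜 n (fun K => f K * g K) := by
  induction n generalizing f g with
  | zero => intro K hK; exact mul_nonneg (hf K hK) (hg K hK)
  | succ n ih =>
    refine ⟨fun K hK => mul_nonneg (hf.1 K hK) (hg.1 K hK), fun A hA => ?_⟩
    have h1 := ih (hf.2 A hA) hg.pred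
    have h2 := ih (hf.pred.shift hU hA) (hg.2 A hA)
    have e : (fun K => f K * g K - f (K ∪ A) * g (K ∪ A)) =
        fun K => (f K - f (K ∪ A)) * g K + f (K ∪ A) * (g K - g (K ∪ A)) := by funext K; ring
    rw [e]; exact h1.add h2

/-- The reciprocal. -/
lemma CM.inv {n : ℕ} {h : Set E → ℝ} (hU : ∀ A ∈ 𝒜, ∀ B ∈ 𝒜, A ∪ B ∈ 𝒜)
    (hpos : ∀ K ∈ 𝒜, 0 < h K) (hd : ∀ n, ∀ A ∈ 𝒜, CM 𝒜 n (fun K => h (K ∪ A) - h K)) :
    CM 𝒜 n (fun K => (h K)⁻¹) := by
  induction n with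
  | zero => intro K hK; exact (inv_pos.2 (hpos K hK)).le
  | succ n ih =>
    refine ⟨fun K hK => (inv_pos.2 (hpos K hK)).le, fun A hA => ?_⟩
    have h1 := ((hd n A hA).mul hU ih).mul hU (ih.shift hU hA)
    refine h1.congr hU fun K hK => ?_
    have p1 := hpos K hK
    have p2 := hpos _ (hU K hK A hA)
    field_simp

lemma CM.lim {n : ℕ} {f : ℕ → Set E → ℝ} {g : Set E → ℝ} (hU : ∀ A ∈ 𝒜, ∀ B ∈ 𝒜, A ∪ B ∈ 𝒜)
    (hf : ∀ k, CM 𝒜 n (f k)) (hlim : ∀ K ∈ 𝒜, Tendsto (fun k => f k K) atTop (𝓝 (g K))) :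
    CM 𝒜 n g := by
  induction n generalizing f g with
  | zero => intro K hK; exact ge_of_tendsto' (hlim K hK) fun k => hf k K hK
  | succ n ih =>
    refine ⟨fun K hK => ge_of_tendsto' (hlim K hK) fun k => (hf k).1 K hK, fun A hA => ?_⟩
    exact ih (fun k => (hf k).2 A hA) fun K hK => (hlim K hK).sub (hlim _ (hU K hK A hA))

/-- Multiplicative indicators. -/
lemma CM_mulind {n : ℕ} {g : Set E → ℝ} (hU : ∀ A ∈ 𝒜, ∀ B ∈ 𝒜, A ∪ B ∈ 𝒜)
    (hg : ∀ A ∈ 𝒜, ∀ B ∈ 𝒜, g (A ∪ B) = g A * g B)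
    (h0 : ∀ A, 0 ≤ g A) (h1 : ∀ A, g A ≤ 1) {c : ℝ} (hc : 0 ≤ c) : CM 𝒜 n (fun K => c * g K) := by
  induction n generalizing c with
  | zero => intro K _; exact mul_nonneg hc (h0 K)
  | succ n ih =>
    refine ⟨fun K _ => mul_nonneg hc (h0 K), fun A hA => ?_⟩
    have := ih (c := c * (1 - g A)) (mul_nonneg hc (by linarith [h1 A]))
    refine this.congr hU fun K hK => ?_
    show _ = c * g K - c * g (K ∪ A)
    rw [hg K hK A hA]; ring

/-- Maxitive functions. -/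
lemma CM_max {n : ℕ} {η : Set E → ℝ} (hη : ∀ A B, η (A ∪ B) = max (η A) (η B)) (a : ℝ) :
    CM 𝒜 n (fun K => max (a - η K) 0) := by
  induction n generalizing a with
  | zero => intro K _; exact le_max_right _ _
  | succ n ih =>
    refine ⟨fun K _ => le_max_right _ _, fun A _ => ?_⟩
    have := ih (min a (η A))
    have e : (fun K => max (a - η K) 0 - max (a - η (K ∪ A)) 0) =
        fun K => max (min a (η A) - η K) 0 := by
      funext K
      rw [hη]
      rcases le_total a (η A) with h1 | h1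
      · rw [min_eq_left h1]
        rw [show max (a - max (η K) (η A)) 0 = 0 from max_eq_right (by
          have := le_max_right (η K) (η A); linarith)]
        ring
      · rw [min_eq_right h1]
        rcases le_total (η K) (η A) with h2 | h2
        · rw [max_eq_right h2, max_eq_left (show 0 ≤ a - η K by linarith),
            max_eq_left (show 0 ≤ a - η A by linarith), max_eq_left (show 0 ≤ η A - η K by linarith)]
          ring
        · rw [max_eq_left h2, max_eq_right (show η A - η K ≤ 0 by linarith)]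
          ring
    rw [e]; exact this

lemma CM_incr {n : ℕ} {η : Set E → ℝ} (hη : ∀ A B, η (A ∪ B) = max (η A) (η B)) (A : Set E) :
    CM 𝒜 n (fun K => η (K ∪ A) - η K) := by
  have e : (fun K => η (K ∪ A) - η K) = fun K => max (η A - η K) 0 := by
    funext K
    rw [hη]
    rcases le_total (η K) (η A) with h | h
    · rw [max_eq_right h, max_eq_left (by linarith)]
    · rw [max_eq_left h, max_eq_right (by linarith)]; ring
  rw [e]; exact CM_max hη _

/-- Integration of a family. -/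
lemma CM_integral {Ω : Type*} [MeasurableSpace Ω] {μ : Measure Ω} {n : ℕ} {f : Ω → Set E → ℝ}
    (hU : ∀ A ∈ 𝒜, ∀ B ∈ 𝒜, A ∪ B ∈ 𝒜) (hf : ∀ ω, CM 𝒜 n (f ω))
    (hi : ∀ K ∈ 𝒜, Integrable (fun ω => f ω K) μ) : CM 𝒜 n (fun K => ∫ ω, f ω K ∂μ) := by
  induction n generalizing f with
  | zero => intro K hK; exact integral_nonneg fun ω => hf ω K hK
  | succ n ih =>
    refine ⟨fun K hK => integral_nonneg fun ω => (hf ω).1 K hK, fun A hA => ?_⟩
    have h1 := ih (f := fun ω K => f ω K - f ω (K ∪ A)) (fun ω => (hf ω).2 A hA)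
      (fun K hK => (hi K hK).sub (hi _ (hU K hK A hA)))
    exact h1.congr hU fun K hK => integral_sub (hi K hK) (hi _ (hU K hK A hA))

/-- `v` is `n`-alternating on the family `𝒜`. -/
def Alternating (𝒜 : Set (Set E)) (v : Set E → ℝ) (n : ℕ) : Prop :=
  ∀ A : Fin n → Set E, (∀ i, A i ∈ 𝒜) →
    v (⋂ i, A i) ≤ ∑ I ∈ (Finset.univ : Finset (Finset (Fin n))) with I.Nonempty,
      (-1 : ℝ) ^ (I.card + 1) * v (⋃ i ∈ I, A i)

lemma CM.sum {ι : Type*} [DecidableEq ι] {f : Set E → ℝ}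
    (A : ι → Set E) (hA : ∀ i, A i ∈ 𝒜) (s : Finset ι)
    (hf : CM 𝒜 s.card f) {K : Set E} (hK : K ∈ 𝒜) :
    0 ≤ ∑ I ∈ s.powerset, (-1 : ℝ) ^ I.card * f (K ∪ ⋃ i ∈ I, A i) := by
  induction s using Finset.induction_on generalizing f with
  | empty => simpa using hf K hK
  | insert i s hi ih =>
    rw [Finset.card_insert_of_notMem hi] at hf
    have h1 := ih (hf.2 (A i) (hA i))
    rw [Finset.sum_powerset_insert hi]
    refine le_trans h1 (le_of_eq ?_)
    rw [← Finset.sum_add_distrib]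
    refine Finset.sum_congr rfl fun I hI => ?_
    have hiI : i ∉ I := fun h => hi (Finset.mem_powerset.1 hI h)
    rw [Finset.card_insert_of_notMem hiI]
    have e : K ∪ ⋃ j ∈ insert i I, A j = (K ∪ ⋃ j ∈ I, A j) ∪ A i := by
      rw [Finset.set_biUnion_insert, Set.union_comm (A i), Set.union_assoc]
    rw [e]
    ring

/-- A completely monotone complement gives an alternating set function. -/
theorem alternating_of_CM {n : ℕ} {v : Set E → ℝ}
    (hI : ∀ A ∈ 𝒜, ∀ B ∈ 𝒜, A ∩ B ∈ 𝒜) (hn : 1 ≤ n) (hv : CM 𝒜 n (fun K => 1 - v K)) :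
    Alternating 𝒜 v n := by
  classical
  intro A hA
  have hint : ∀ s : Finset (Fin n), s.Nonempty → (⋂ i ∈ s, A i) ∈ 𝒜 := by
    intro s hs
    induction hs using Finset.Nonempty.cons_induction with
    | singleton a => simpa using hA a
    | cons a s ha hs ih =>
      rw [Finset.cons_eq_insert, Finset.set_biInter_insert]
      exact hI _ (hA a) _ ih
  have hne : (Finset.univ : Finset (Fin n)).Nonempty := ⟨⟨0, hn⟩, Finset.mem_univ _⟩
  have hK : (⋂ i, A i) ∈ 𝒜 := by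
    have := hint Finset.univ hne
    simpa using this
  have h := CM.sum (𝒜 := 𝒜) A hA Finset.univ (f := fun K => 1 - v K)
    (by rwa [Finset.card_univ, Fintype.card_fin]) hK
  rw [Finset.powerset_univ] at h
  have h2 : ∑ I : Finset (Fin n), (-1 : ℝ) ^ I.card = 0 := by
    have := Finset.sum_powerset_neg_one_pow_card_of_nonempty hne
    have h3 : ((∑ m ∈ (Finset.univ : Finset (Fin n)).powerset, (-1 : ℤ) ^ m.card : ℤ) : ℝ) = 0 := by
      rw [this]; simp
    rw [Finset.powerset_univ] at h3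
    push_cast at h3
    exact h3
  have h3 : ∑ I : Finset (Fin n), (-1 : ℝ) ^ I.card * (1 - v ((⋂ i, A i) ∪ ⋃ i ∈ I, A i)) =
      - ∑ I : Finset (Fin n), (-1 : ℝ) ^ I.card * v ((⋂ i, A i) ∪ ⋃ i ∈ I, A i) := by
    simp_rw [mul_sub, mul_one]
    rw [Finset.sum_sub_distrib, h2, zero_sub]
  rw [h3, ← Finset.sum_filter_add_sum_filter_not Finset.univ (fun I : Finset (Fin n) => I.Nonempty)] at h
  have h4 : ∑ I ∈ (Finset.univ : Finset (Finset (Fin n))) with ¬ I.Nonempty,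
      (-1 : ℝ) ^ I.card * v ((⋂ i, A i) ∪ ⋃ i ∈ I, A i) = v (⋂ i, A i) := by
    have : (Finset.univ : Finset (Finset (Fin n))).filter (fun I => ¬ I.Nonempty) = {∅} := by
      ext I; simp [Finset.not_nonempty_iff_eq_empty]
    rw [this]; simp
  have h5 : ∑ I ∈ (Finset.univ : Finset (Finset (Fin n))) with I.Nonempty,
      (-1 : ℝ) ^ I.card * v ((⋂ i, A i) ∪ ⋃ i ∈ I, A i) =
      - ∑ I ∈ (Finset.univ : Finset (Finset (Fin n))) with I.Nonempty,
      (-1 : ℝ) ^ (I.card + 1) * v (⋃ i ∈ I, A i) := by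
    rw [← Finset.sum_neg_distrib]
    refine Finset.sum_congr rfl fun I hI => ?_
    obtain ⟨i, hi⟩ := (Finset.mem_filter.1 hI).2
    have e : (⋂ i, A i) ∪ ⋃ i ∈ I, A i = ⋃ i ∈ I, A i := by
      refine Set.union_eq_right.2 fun x hx => ?_
      exact Set.mem_iUnion₂.2 ⟨i, hi, Set.mem_iInter.1 hx i⟩
    rw [e, pow_succ]; ring
  rw [h4, h5] at h
  linarith

end Pool.Agent.R976.Alt
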