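import Mathlib

set_option autoImplicit false

open MeasureTheory ProbabilityTheory Filter Topology
open scoped RealInnerProductSpace

namespace Pool.Agent.R976.Cone

/-- `ℝ^d` with its Euclidean structure. -/
abbrev E (d : ℕ) := EuclideanSpace ℝ (Fin d)

/-- `σ` is the rotation invariant probability measure on the unit sphere of `ℝ^d`. -/
structure IsSph {d : ℕ} (σ : Measure (E d)) : Prop where
  prob : IsProbabilityMeasure σ
  norm_eq : ∀ᵐ x ∂σ, ‖x‖ = 1
  inv : ∀ T : E d ≃ₗᵢ[ℝ] E d, σ.map T = σ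

variable {d : ℕ} {σ : Measure (E d)}

lemma exists_rot {v w : E d} (h : ‖v‖ = ‖w‖) : ∃ T : E d ≃ₗᵢ[ℝ] E d, T v = w :=
  ⟨_, Submodule.reflection_sub h⟩

lemma IsSph.integral_comp (hσ : IsSph σ) (T : E d ≃ₗᵢ[ℝ] E d) (g : E d → ℝ) :
    ∫ a, g (T a) ∂σ = ∫ a, g a ∂σ := by
  conv_rhs => rw [← hσ.inv T]
  exact (T.toHomeomorph.measurableEmbedding.integral_map g).symm

lemma IsSph.law_eq (hσ : IsSph σ) {v w : E d} (h : ‖v‖ = ‖w‖) (f : ℝ → ℝ) :
    ∫ a, f ⟪v, a⟫ ∂σ = ∫ a, f ⟪w, a⟫ ∂σ := by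
  obtain ⟨T, hT⟩ := exists_rot h
  rw [← hσ.integral_comp T (fun a => f ⟪w, a⟫)]
  refine integral_congr_ae (Eventually.of_forall fun a => ?_)
  simp only
  rw [← hT, T.inner_map_map]

lemma IsSph.law_set (hσ : IsSph σ) {v w : E d} (h : ‖v‖ = ‖w‖) {s : Set ℝ} (hs : MeasurableSet s) :
    σ {a | ⟪v, a⟫ ∈ s} = σ {a | ⟪w, a⟫ ∈ s} := by
  obtain ⟨T, hT⟩ := exists_rot h
  have hm : MeasurableSet {a : E d | ⟪w, a⟫ ∈ s} :=
    (continuous_const.inner continuous_id).measurable hs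
  have h1 : σ {a | ⟪w, a⟫ ∈ s} = σ.map T {a | ⟪w, a⟫ ∈ s} := by rw [hσ.inv T]
  rw [h1, Measure.map_apply T.continuous.measurable hm]
  congr 1
  ext a
  simp only [Set.mem_ofPred_eq, Set.mem_preimage]
  rw [← hT, T.inner_map_map]

lemma bdd_integrable [IsProbabilityMeasure σ] (hσ : IsSph σ) {f : E d → ℝ} (hf : Measurable f)
    (K : ℝ) (hK : ∀ a, ‖a‖ = 1 → |f a| ≤ K) : Integrable f σ :=
  Integrable.of_bound hf.aestronglyMeasurable K (hσ.norm_eq.mono fun a ha => hK a ha)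

lemma coord_le {a w : E d} (ha : ‖a‖ = 1) (hw : ‖w‖ = 1) : |⟪w, a⟫| ≤ 1 := by
  have := abs_real_inner_le_norm w a
  rwa [ha, hw, mul_one] at this

/-- the standard basis vectors -/
noncomputable def eb (k : Fin d) : E d := EuclideanSpace.single k 1

lemma eb_norm (k : Fin d) : ‖eb k‖ = 1 := by simp [eb]

lemma eb_inner (k : Fin d) (a : E d) : ⟪eb k, a⟫ = a k := by
  rw [eb, EuclideanSpace.inner_single_left]; simp

lemma sum_sq {a : E d} (ha : ‖a‖ = 1) : ∑ k, a k ^ 2 = 1 := by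
  rw [← EuclideanSpace.real_norm_sq_eq, ha]; norm_num

lemma IsSph.second (hσ : IsSph σ) (hd : 0 < d) {w : E d} (hw : ‖w‖ = 1) :
    ∫ a, ⟪w, a⟫ ^ 2 ∂σ = 1 / d := by
  have := hσ.prob
  have h1 : ∀ k : Fin d, ∫ a, a k ^ 2 ∂σ = ∫ a, ⟪w, a⟫ ^ 2 ∂σ := by
    intro k
    have := hσ.law_eq (v := eb k) (w := w) (by rw [eb_norm, hw]) (fun x => x ^ 2)
    simp only [eb_inner] at this
    exact this
  have h2 : ∑ k : Fin d, ∫ a, a k ^ 2 ∂σ = 1 := by
    rw [← integral_finsetSum]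
    · have : ∫ a, ∑ k : Fin d, a k ^ 2 ∂σ = ∫ a, (1:ℝ) ∂σ :=
        integral_congr_ae (hσ.norm_eq.mono fun a ha => sum_sq ha)
      rw [this]; simp
    · intro k _
      refine bdd_integrable hσ (by fun_prop) 1 fun a ha => ?_
      have := coord_le ha (eb_norm k)
      rw [eb_inner] at this
      rw [abs_pow]
      exact pow_le_one₀ (abs_nonneg _) this
  rw [Finset.sum_congr rfl fun k _ => h1 k, Finset.sum_const, Finset.card_univ, Fintype.card_fin,
    nsmul_eq_mul] at h2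
  have : (d:ℝ) ≠ 0 := by positivity
  field_simp
  linarith

lemma IsSph.first (hσ : IsSph σ) (w : E d) : ∫ a, ⟪w, a⟫ ∂σ = 0 := by
  have h := hσ.integral_comp (LinearIsometryEquiv.neg ℝ) (fun a => ⟪w, a⟫)
  simp only [LinearIsometryEquiv.coe_neg, inner_neg_right, integral_neg] at h
  linarith

lemma IsSph.second' (hσ : IsSph σ) (hd : 0 < d) (w : E d) :
    ∫ a, ⟪w, a⟫ ^ 2 ∂σ = ‖w‖ ^ 2 / d := by
  by_cases h : w = 0
  · subst h; simp
  · have hn : ‖w‖ ≠ 0 := norm_ne_zero_iff.2 h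
    have h1 : ‖(‖w‖⁻¹ • w)‖ = 1 := by rw [norm_smul, norm_inv, norm_norm, inv_mul_cancel₀ hn]
    have h2 := hσ.second hd h1
    have e : ∀ a : E d, ⟪‖w‖⁻¹ • w, a⟫ ^ 2 = (‖w‖⁻¹) ^ 2 * ⟪w, a⟫ ^ 2 := by
      intro a; rw [real_inner_smul_left]; ring
    simp_rw [e] at h2
    rw [integral_const_mul] at h2
    field_simp at h2
    have : (d:ℝ) ≠ 0 := by positivity
    field_simp
    linarith

lemma IsSph.fourth (hσ : IsSph σ) (hd : 0 < d) {w : E d} (hw : ‖w‖ = 1) :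
    ∫ a, ⟪w, a⟫ ^ 4 ∂σ = 3 / (d * (d + 2)) := by
  have := hσ.prob
  have hb : ∀ (k l : Fin d), Integrable (fun a : E d => a k ^ 2 * a l ^ 2) σ := by
    intro k l
    refine bdd_integrable hσ (by fun_prop) 1 fun a ha => ?_
    have h1 := coord_le ha (eb_norm k)
    have h2 := coord_le ha (eb_norm l)
    rw [eb_inner] at h1 h2
    rw [abs_mul, abs_pow, abs_pow]
    exact mul_le_one₀ (pow_le_one₀ (abs_nonneg _) h1) (by positivity) (pow_le_one₀ (abs_nonneg _) h2)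
  set M := ∫ a, ⟪w, a⟫ ^ 4 ∂σ with hM
  have h1 : ∀ k : Fin d, ∫ a, a k ^ 2 * a k ^ 2 ∂σ = M := by
    intro k
    have := hσ.law_eq (v := eb k) (w := w) (by rw [eb_norm, hw]) (fun x => x ^ 4)
    simp only [eb_inner] at this
    rw [hM, ← this]
    congr 1; funext a; ring
  have h2 : ∀ k l : Fin d, k ≠ l → ∫ a, a k ^ 2 * a l ^ 2 ∂σ = M / 3 := by
    intro k l hkl
    have hort : ⟪eb k, eb l⟫ = (0:ℝ) := by
      rw [eb_inner]; simp [eb, hkl]
    have n1 : ‖eb k + eb l‖ ^ 2 = 2 := by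
      rw [@norm_add_sq_real, hort, eb_norm, eb_norm]; norm_num
    have n2 : ‖eb k - eb l‖ ^ 2 = 2 := by
      rw [@norm_sub_sq_real, hort, eb_norm, eb_norm]; norm_num
    have n1' : ‖eb k + eb l‖ = √2 := by rw [← n1, Real.sqrt_sq (norm_nonneg _)]
    have n2' : ‖eb k - eb l‖ = √2 := by rw [← n2, Real.sqrt_sq (norm_nonneg _)]
    have n3 : ‖√2 • w‖ = √2 := by rw [norm_smul, hw, Real.norm_of_nonneg (Real.sqrt_nonneg _), mul_one]
    have e1 := hσ.law_eq (v := eb k + eb l) (w := √2 • w) (by rw [n1', n3]) (fun x => x ^ 4)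
    have e2 := hσ.law_eq (v := eb k - eb l) (w := √2 • w) (by rw [n2', n3]) (fun x => x ^ 4)
    have e3 : ∫ a, ⟪√2 • w, a⟫ ^ 4 ∂σ = 4 * M := by
      rw [hM, ← integral_const_mul]
      congr 1; funext a
      rw [real_inner_smul_left, mul_pow]
      rw [show (√2 : ℝ) ^ 4 = (√2 ^ 2) ^ 2 by ring, Real.sq_sqrt (by norm_num)]
      norm_num
    rw [e3] at e1 e2
    have i1 : Integrable (fun a => ⟪eb k + eb l, a⟫ ^ 4) σ := by
      refine bdd_integrable hσ (by fun_prop) (2 ^ 4) fun a ha => ?_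
      rw [abs_pow]
      refine pow_le_pow_left₀ (abs_nonneg _) ?_ 4
      rw [inner_add_left]
      exact (abs_add_le _ _).trans (by linarith [coord_le ha (eb_norm k), coord_le ha (eb_norm l)])
    have i2 : Integrable (fun a => ⟪eb k - eb l, a⟫ ^ 4) σ := by
      refine bdd_integrable hσ (by fun_prop) (2 ^ 4) fun a ha => ?_
      rw [abs_pow]
      refine pow_le_pow_left₀ (abs_nonneg _) ?_ 4
      rw [inner_sub_left]
      exact (abs_sub _ _).trans (by linarith [coord_le ha (eb_norm k), coord_le ha (eb_norm l)])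
    have e4 : ∫ a, (⟪eb k + eb l, a⟫ ^ 4 + ⟪eb k - eb l, a⟫ ^ 4) ∂σ = 8 * M := by
      rw [integral_add i1 i2, e1, e2]; ring
    have e5 : ∀ a : E d, (⟪eb k + eb l, a⟫ ^ 4 + ⟪eb k - eb l, a⟫ ^ 4) =
        2 * (a k ^ 2 * a k ^ 2) + 12 * (a k ^ 2 * a l ^ 2) + 2 * (a l ^ 2 * a l ^ 2) := by
      intro a
      rw [inner_add_left, inner_sub_left, eb_inner, eb_inner]; ring
    simp_rw [e5] at e4
    have j1 : Integrable (fun a : E d => 2 * (a k ^ 2 * a k ^ 2)) σ := (hb k k).const_mul 2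
    have j2 : Integrable (fun a : E d => 12 * (a k ^ 2 * a l ^ 2)) σ := (hb k l).const_mul 12
    have j3 : Integrable (fun a : E d => 2 * (a l ^ 2 * a l ^ 2)) σ := (hb l l).const_mul 2
    have j4 : Integrable (fun a : E d => 2 * (a k ^ 2 * a k ^ 2) + 12 * (a k ^ 2 * a l ^ 2)) σ :=
      j1.add j2
    rw [integral_add j4 j3, integral_add j1 j2, integral_const_mul,
      integral_const_mul, integral_const_mul, h1 k, h1 l] at e4
    linarith
  have h3 : ∑ k : Fin d, ∑ l : Fin d, ∫ a, a k ^ 2 * a l ^ 2 ∂σ = 1 := by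
    have : ∀ k : Fin d, ∑ l : Fin d, ∫ a, a k ^ 2 * a l ^ 2 ∂σ =
        ∫ a, ∑ l : Fin d, a k ^ 2 * a l ^ 2 ∂σ := fun k =>
      (integral_finsetSum _ fun l _ => hb k l).symm
    simp_rw [this]
    rw [← integral_finsetSum _ fun k _ => integrable_finsetSum _ fun l _ => hb k l]
    have : ∫ a, ∑ k : Fin d, ∑ l : Fin d, a k ^ 2 * a l ^ 2 ∂σ = ∫ a, (1:ℝ) ∂σ := by
      refine integral_congr_ae (hσ.norm_eq.mono fun a ha => ?_)
      simp only
      rw [← Finset.sum_mul_sum, sum_sq ha, mul_one]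
    rw [this]; simp
  have h4 : ∀ k : Fin d, ∑ l : Fin d, ∫ a, a k ^ 2 * a l ^ 2 ∂σ = M + (d - 1) * (M / 3) := by
    intro k
    rw [← Finset.add_sum_erase _ _ (Finset.mem_univ k), h1 k,
      Finset.sum_congr rfl fun l hl => h2 k l (Finset.ne_of_mem_erase hl).symm, Finset.sum_const,
      Finset.card_erase_of_mem (Finset.mem_univ k), Finset.card_univ, Fintype.card_fin, nsmul_eq_mul,
      Nat.cast_sub (by omega)]
    push_cast; ring
  rw [Finset.sum_congr rfl fun k _ => h4 k, Finset.sum_const, Finset.card_univ, Fintype.card_fin,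
    nsmul_eq_mul] at h3
  have hd' : (0:ℝ) < d := by positivity
  field_simp
  linarith

/-- Lower bound for the first absolute moment. -/
lemma IsSph.abs_ge (hσ : IsSph σ) (hd : 0 < d) {w : E d} (hw : ‖w‖ = 1) :
    1 / √(3 * d) ≤ ∫ a, |⟪w, a⟫| ∂σ := by
  have := hσ.prob
  have hd' : (0:ℝ) < d := by positivity
  set s : ℝ := √(d / 3) with hs
  have hs0 : 0 < s := Real.sqrt_pos.2 (by positivity)
  have hs2 : s ^ 2 = d / 3 := Real.sq_sqrt (by positivity)
  have key : ∀ x : ℝ, (3 * s * x ^ 2 - s ^ 3 * x ^ 4) / 2 ≤ |x| := by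
    intro x
    set y := |x| * s with hy
    have hy0 : 0 ≤ y := by positivity
    have h1 : (3 * y ^ 2 - y ^ 4) / 2 ≤ y := by
      have : 0 ≤ y * (y - 1) ^ 2 * (y + 2) := by positivity
      nlinarith
    have h2 : y ^ 2 = x ^ 2 * s ^ 2 := by rw [hy, mul_pow, sq_abs]
    have h3 : y ^ 4 = x ^ 4 * s ^ 4 := by
      rw [show y ^ 4 = (y ^ 2) ^ 2 by ring, h2]; ring
    rw [h2, h3] at h1
    have h4 : s * ((3 * s * x ^ 2 - s ^ 3 * x ^ 4) / 2) ≤ s * |x| := by
      calc s * ((3 * s * x ^ 2 - s ^ 3 * x ^ 4) / 2) = (3 * (x ^ 2 * s ^ 2) - x ^ 4 * s ^ 4) / 2 := by ring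
        _ ≤ y := h1
        _ = s * |x| := by rw [hy]; ring
    exact le_of_mul_le_mul_left h4 hs0
  have i1 : Integrable (fun a : E d => |⟪w, a⟫|) σ := by
    refine bdd_integrable hσ (by fun_prop) 1 fun a ha => ?_
    rw [abs_abs]; exact coord_le ha hw
  have i2 : Integrable (fun a : E d => ⟪w, a⟫ ^ 2) σ := by
    refine bdd_integrable hσ (by fun_prop) 1 fun a ha => ?_
    rw [abs_pow]; exact pow_le_one₀ (abs_nonneg _) (coord_le ha hw)
  have i4 : Integrable (fun a : E d => ⟪w, a⟫ ^ 4) σ := by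
    refine bdd_integrable hσ (by fun_prop) 1 fun a ha => ?_
    rw [abs_pow]; exact pow_le_one₀ (abs_nonneg _) (coord_le ha hw)
  have h1 : ∫ a, (3 * s * ⟪w, a⟫ ^ 2 - s ^ 3 * ⟪w, a⟫ ^ 4) / 2 ∂σ ≤ ∫ a, |⟪w, a⟫| ∂σ :=
    integral_mono (((i2.const_mul _).sub (i4.const_mul _)).div_const 2) i1 fun a => key _
  refine le_trans ?_ h1
  rw [integral_div, integral_sub (i2.const_mul _) (i4.const_mul _), integral_const_mul,
    integral_const_mul, hσ.second hd hw, hσ.fourth hd hw]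
  have e1 : s ^ 3 = s * (d / 3) := by rw [show s ^ 3 = s * s ^ 2 by ring, hs2]
  have e2 : 1 / √(3 * d) = s / d := by
    have h3 : √(3 * d) = 3 * s := by
      rw [hs, show (3 * d : ℝ) = 3 ^ 2 * (d / 3) by ring, Real.sqrt_mul (by norm_num),
        Real.sqrt_sq (by norm_num)]
    rw [h3]
    field_simp
    rw [hs2]; ring
  rw [e1, e2]
  have e3 : (3 * s * (1 / d) - s * (d / 3) * (3 / (d * (d + 2)))) / 2 - s / d =
      s / (d * (d + 2)) := by
    field_simp; ring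
  have : 0 ≤ s / (d * (d + 2)) := by positivity
  linarith

end Pool.Agent.R976.Cone
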