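import Pool.Agent.R976.ConeVar

set_option autoImplicit false

open MeasureTheory ProbabilityTheory Filter Topology
open scoped RealInnerProductSpace

namespace Pool.Agent.R976.Cone

variable {d : ℕ} {σ : Measure (E d)}

/-- The solid angle `σ (C ∩ S^{d-1})`. -/
noncomputable def angle {d : ℕ} (σ : Measure (E d)) (C : Set (E d)) : ℝ :=
  σ.real (C ∩ Metric.sphere 0 1)

/-- The rescaled solid angle. -/
noncomputable def Z {d : ℕ} (σ : Measure (E d)) (x : Fin d → E d) : ℝ :=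
  2 ^ d * angle σ (posHull x)

lemma angle_eq (hσ : IsSph σ) (x : Fin d → E d) : angle σ (posHull x) = ∫ ξ, ind (x, ξ) ∂σ := by
  have := hσ.prob
  have hm : MeasurableSet (posHull x) := measurable_prodMk_left (x := x) meas_graph
  have h1 : ∫ ξ, ind (x, ξ) ∂σ = ∫ ξ, (posHull x).indicator (fun _ => (1:ℝ)) ξ ∂σ := rfl
  rw [h1, integral_indicator hm, setIntegral_const, smul_eq_mul, mul_one, angle]
  refine measureReal_congr ?_
  have h2 : ∀ᵐ ξ ∂σ, ξ ∈ Metric.sphere (0 : E d) 1 := by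
    filter_upwards [hσ.norm_eq] with ξ hξ
    rw [mem_sphere_zero_iff_norm]; exact hξ
  filter_upwards [h2] with ξ hξ
  apply propext
  exact ⟨fun h => h.1, fun h => ⟨h, hξ⟩⟩

lemma Z_nonneg (x : Fin d → E d) : 0 ≤ Z σ x := by
  unfold Z angle; positivity

lemma Z_meas (hσ : IsSph σ) : Measurable (Z σ) := by
  have := hσ.prob
  unfold Z
  simp_rw [angle_eq hσ]
  exact (ind_meas.stronglyMeasurable.integral_prod_right').measurable.const_mul _

lemma Z_le (hσ : IsSph σ) (x : Fin d → E d) : Z σ x ≤ 2 ^ d := by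
  have := hσ.prob
  unfold Z angle
  have h : σ.real (posHull x ∩ Metric.sphere 0 1) ≤ 1 := measureReal_le_one
  calc (2:ℝ) ^ d * σ.real (posHull x ∩ Metric.sphere 0 1) ≤ 2 ^ d * 1 :=
        mul_le_mul_of_nonneg_left h (by positivity)
    _ = 2 ^ d := mul_one _

lemma Z_biased (hσ : IsSph σ) (hd : 0 < d) :
    ∫ x, Z σ x * ‖∑ i, x i‖ ^ 2 ∂(Measure.pi fun _ : Fin d => σ) ≤ (2 * d + 1) / 3 := by
  have := hσ.prob
  refine le_trans (le_of_eq ?_) (biased hσ hd)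
  have hi : Integrable (fun p => ind p * ‖SS Finset.univ p‖ ^ 2)
      ((Measure.pi fun _ : Fin d => σ).prod σ) := by
    refine (SS_int hσ Finset.univ).bdd_mul (c := 1) ind_meas.aestronglyMeasurable
      (Eventually.of_forall fun p => ?_)
    rw [Real.norm_eq_abs]; exact ind_bd p
  rw [integral_prod _ hi, ← integral_const_mul]
  refine integral_congr_ae (Eventually.of_forall fun x => ?_)
  show Z σ x * ‖∑ i, x i‖ ^ 2 = 2 ^ d * ∫ ξ, ind (x, ξ) * ‖∑ i, x i‖ ^ 2 ∂σ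
  rw [integral_mul_const, ← angle_eq hσ]
  unfold Z; ring

lemma sum_var (hσ : IsSph σ) (hd : 0 < d) :
    Integrable (fun x : Fin d → E d => (‖∑ i, x i‖ ^ 2 - d) ^ 2) (Measure.pi fun _ : Fin d => σ) ∧
    ∫ x, (‖∑ i, x i‖ ^ 2 - d) ^ 2 ∂(Measure.pi fun _ : Fin d => σ) ≤ 2 * d := by
  have := hσ.prob
  have hd' : (0:ℝ) < d := by positivity
  have h1 := var_SS hσ hd Finset.univ
  rw [Finset.card_univ, Fintype.card_fin] at h1
  have h2 := SS_int2 hσ Finset.univ (d : ℝ)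
  have h3 := integral_prod _ h2
  have e : ∀ x : Fin d → E d, ∫ ξ : E d, (‖SS Finset.univ (x, ξ)‖ ^ 2 - (d:ℝ)) ^ 2 ∂σ =
      (‖∑ i, x i‖ ^ 2 - d) ^ 2 := by
    intro x
    show ∫ ξ : E d, (‖∑ i, x i‖ ^ 2 - (d:ℝ)) ^ 2 ∂σ = _
    simp
  simp_rw [e] at h3
  refine ⟨?_, ?_⟩
  · have := h2.integral_prod_left
    simp_rw [e] at this
    exact this
  · rw [← h3, h1]
    rw [div_le_iff₀ hd']
    nlinarith

lemma Zphi_int (hσ : IsSph σ) :
    Integrable (fun x : Fin d → E d => Z σ x * ‖∑ i, x i‖ ^ 2) (Measure.pi fun _ : Fin d => σ) := by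
  have := hσ.prob
  have h1 : ∀ᵐ x ∂(Measure.pi fun _ : Fin d => σ), ∀ k, ‖x k‖ = 1 :=
    ae_all_iff.2 fun k => (measurePreserving_eval (fun _ : Fin d => σ) k).quasiMeasurePreserving.ae
      hσ.norm_eq
  have hc : Measurable fun x : Fin d → E d => ‖∑ i, x i‖ ^ 2 := by fun_prop
  refine Integrable.of_bound ((Z_meas hσ).mul hc).aestronglyMeasurable
    (2 ^ d * (d:ℝ) ^ 2) (h1.mono fun x hx => ?_)
  rw [Real.norm_eq_abs, abs_mul, abs_of_nonneg (Z_nonneg x), abs_pow, abs_norm]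
  refine mul_le_mul (Z_le hσ x) ?_ (by positivity) (by positivity)
  refine pow_le_pow_left₀ (norm_nonneg _) ?_ 2
  refine (norm_sum_le _ _).trans ?_
  rw [Finset.sum_congr rfl fun i _ => hx i]
  simp

/-- The main estimate for truncated expectations. -/
lemma trunc_bound (hσ : IsSph σ) (hd : 0 < d) {δ M : ℝ} (hδ : 0 < δ) (hδ1 : δ < 1) (hM : 0 ≤ M) :
    ∫ x, min (max (Z σ x) 0) M ∂(Measure.pi fun _ : Fin d => σ) ≤
      (2 * d + 1) / 3 / ((1 - δ) * d) + M * (2 / (δ ^ 2 * d)) := by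
  have := hσ.prob
  have hd' : (0:ℝ) < d := by positivity
  obtain ⟨iv, hv⟩ := sum_var hσ hd
  have h1δ : 0 < 1 - δ := by linarith
  have hpt : ∀ x : Fin d → E d, min (max (Z σ x) 0) M ≤
      (1 / ((1 - δ) * d)) * (Z σ x * ‖∑ i, x i‖ ^ 2) +
        (M / (δ ^ 2 * d ^ 2)) * (‖∑ i, x i‖ ^ 2 - d) ^ 2 := by
    intro x
    have hZ := Z_nonneg (σ := σ) x
    rw [max_eq_left hZ]
    rcases le_or_gt ((1 - δ) * d) (‖∑ i, x i‖ ^ 2) with h | h
    · have h2 : Z σ x ≤ (1 / ((1 - δ) * d)) * (Z σ x * ‖∑ i, x i‖ ^ 2) := by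
        rw [one_div, inv_mul_eq_div, le_div_iff₀ (by positivity)]
        exact mul_le_mul_of_nonneg_left h hZ
      have h3 : 0 ≤ (M / (δ ^ 2 * d ^ 2)) * (‖∑ i, x i‖ ^ 2 - d) ^ 2 := by positivity
      exact (min_le_left _ _).trans (by linarith)
    · have h2 : M ≤ (M / (δ ^ 2 * d ^ 2)) * (‖∑ i, x i‖ ^ 2 - d) ^ 2 := by
        have h4 : (δ * d) ^ 2 ≤ (‖∑ i, x i‖ ^ 2 - d) ^ 2 := by
          rw [← neg_sq (‖∑ i, x i‖ ^ 2 - d)]
          exact pow_le_pow_left₀ (by positivity) (by linarith) 2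
        rw [div_mul_eq_mul_div, le_div_iff₀ (by positivity)]
        exact mul_le_mul_of_nonneg_left (by linarith [mul_pow δ (d:ℝ) 2]) hM
      have h3 : 0 ≤ (1 / ((1 - δ) * d)) * (Z σ x * ‖∑ i, x i‖ ^ 2) := by positivity
      exact (min_le_right _ _).trans (by linarith)
  have hi1 : Integrable (fun x => min (max (Z σ x) 0) M) (Measure.pi fun _ : Fin d => σ) := by
    refine Integrable.of_bound (((Z_meas hσ).max measurable_const).min
      measurable_const).aestronglyMeasurable M (Eventually.of_forall fun x => ?_)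
    rw [Real.norm_eq_abs, abs_of_nonneg (le_min (le_max_right _ _) hM)]
    exact min_le_right _ _
  have j1 : Integrable (fun x : Fin d → E d => (1 / ((1 - δ) * d)) * (Z σ x * ‖∑ i, x i‖ ^ 2))
      (Measure.pi fun _ : Fin d => σ) := (Zphi_int hσ).const_mul _
  have j2 : Integrable (fun x : Fin d → E d => (M / (δ ^ 2 * d ^ 2)) * (‖∑ i, x i‖ ^ 2 - d) ^ 2)
      (Measure.pi fun _ : Fin d => σ) := iv.const_mul _
  have h2 : ∫ x, min (max (Z σ x) 0) M ∂(Measure.pi fun _ : Fin d => σ) ≤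
      ∫ x, ((1 / ((1 - δ) * d)) * (Z σ x * ‖∑ i, x i‖ ^ 2) +
        (M / (δ ^ 2 * d ^ 2)) * (‖∑ i, x i‖ ^ 2 - d) ^ 2) ∂(Measure.pi fun _ : Fin d => σ) :=
    integral_mono hi1 (j1.add j2) hpt
  rw [integral_add j1 j2, integral_const_mul, integral_const_mul] at h2
  refine h2.trans ?_
  have h3 : (1 / ((1 - δ) * d)) * (∫ x, (Z σ x * ‖∑ i, x i‖ ^ 2) ∂(Measure.pi fun _ : Fin d => σ)) ≤
      (1 / ((1 - δ) * d)) * ((2 * d + 1) / 3) :=
    mul_le_mul_of_nonneg_left (Z_biased hσ hd) (by positivity)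
  have h4 : (M / (δ ^ 2 * d ^ 2)) * (∫ x, (‖∑ i, x i‖ ^ 2 - d) ^ 2 ∂(Measure.pi fun _ : Fin d => σ)) ≤
      (M / (δ ^ 2 * d ^ 2)) * (2 * d) :=
    mul_le_mul_of_nonneg_left hv (by positivity)
  have e3 : (1 / ((1 - δ) * d)) * ((2 * d + 1) / 3) = (2 * d + 1) / 3 / ((1 - δ) * d) := by ring
  have e4 : (M / (δ ^ 2 * d ^ 2)) * (2 * d) = M * (2 / (δ ^ 2 * d)) := by field_simp
  linarith

end Pool.Agent.R976.Cone
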