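import Pool.Agent.R976.ConeSum

set_option autoImplicit false

open MeasureTheory ProbabilityTheory Filter Topology
open scoped RealInnerProductSpace

namespace Pool.Agent.R976.Cone

variable {d : ℕ} {σ : Measure (E d)}

lemma mp_flip (hσ : IsSph σ) (ε : Fin d → Bool) :
    MeasurePreserving (flip ε) (Measure.pi fun _ : Fin d => σ) (Measure.pi fun _ => σ) := by
  have := hσ.prob
  refine measurePreserving_pi (fun _ : Fin d => σ) (fun _ : Fin d => σ) (f := fun k x => sg (ε k) • x)
    fun k => ?_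
  cases hek : ε k
  · have e : (fun x : E d => sg false • x) = (LinearIsometryEquiv.neg ℝ : E d ≃ₗᵢ[ℝ] E d) := by
      funext x; simp [sg]
    show MeasurePreserving (fun x : E d => sg false • x) σ σ
    rw [e]
    exact ⟨(LinearIsometryEquiv.neg ℝ : E d ≃ₗᵢ[ℝ] E d).continuous.measurable, hσ.inv _⟩
  · have e : (fun x : E d => sg true • x) = id := by
      funext x; simp [sg]
    show MeasurePreserving (fun x : E d => sg true • x) σ σ
    rw [e]
    exact MeasurePreserving.id σ

lemma mp_flip2 (hσ : IsSph σ) (ε : Fin d → Bool) :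
    MeasurePreserving (fun p : (Fin d → E d) × E d => (flip ε p.1, p.2))
      ((Measure.pi fun _ : Fin d => σ).prod σ) ((Measure.pi fun _ : Fin d => σ).prod σ) := by
  have := hσ.prob
  exact (mp_flip hσ ε).prod (MeasurePreserving.id σ)

/-- Resampling of a coordinate of the first component. -/
def V (i : Fin d) (p : (Fin d → E d) × E d) (a : E d) : (Fin d → E d) × E d :=
  (Function.update p.1 i a, p.2)

lemma mp_V (hσ : IsSph σ) (i : Fin d) :
    MeasurePreserving (fun q : ((Fin d → E d) × E d) × E d => V i q.1 q.2)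
      (((Measure.pi fun _ : Fin d => σ).prod σ).prod σ) ((Measure.pi fun _ : Fin d => σ).prod σ) := by
  have := hσ.prob
  have h1 := measurePreserving_prodAssoc (Measure.pi fun _ : Fin d => σ) σ σ
  have h2 : MeasurePreserving (Prod.map id Prod.swap : (Fin d → E d) × (E d × E d) → _)
      ((Measure.pi fun _ : Fin d => σ).prod (σ.prod σ))
      ((Measure.pi fun _ : Fin d => σ).prod (σ.prod σ)) :=
    (MeasurePreserving.id _).prod Measure.measurePreserving_swap
  have h3 := h1.symm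
  have h4 : MeasurePreserving (Prod.map (fun p : (Fin d → E d) × E d => Function.update p.1 i p.2) id)
      (((Measure.pi fun _ : Fin d => σ).prod σ).prod σ) ((Measure.pi fun _ : Fin d => σ).prod σ) :=
    (mp_update i).prod (MeasurePreserving.id σ)
  exact ((h4.comp h3).comp h2).comp h1

lemma resample (hσ : IsSph σ) (i : Fin d) {G : (Fin d → E d) × E d → ℝ}
    (hG : Integrable G ((Measure.pi fun _ : Fin d => σ).prod σ)) :
    Integrable (fun p => ∫ a, G (V i p a) ∂σ) ((Measure.pi fun _ : Fin d => σ).prod σ) ∧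
    ∫ p, G p ∂((Measure.pi fun _ : Fin d => σ).prod σ) =
      ∫ p, ∫ a, G (V i p a) ∂σ ∂((Measure.pi fun _ : Fin d => σ).prod σ) := by
  have := hσ.prob
  have h1 : Integrable (fun q : ((Fin d → E d) × E d) × E d => G (V i q.1 q.2))
      (((Measure.pi fun _ : Fin d => σ).prod σ).prod σ) := (mp_V hσ i).integrable_comp_of_integrable hG
  refine ⟨h1.integral_prod_left, ?_⟩
  have h2 := integral_prod _ h1
  rw [← h2, ← integral_map (φ := fun q : ((Fin d → E d) × E d) × E d => V i q.1 q.2)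
    (mp_V hσ i).measurable.aemeasurable, (mp_V hσ i).map_eq]
  rw [(mp_V hσ i).map_eq]
  exact hG.aestronglyMeasurable

lemma ae_resample (hσ : IsSph σ) (i : Fin d) {q : (Fin d → E d) × E d → Prop}
    (hq : ∀ᵐ p ∂((Measure.pi fun _ : Fin d => σ).prod σ), q p) :
    ∀ᵐ p ∂((Measure.pi fun _ : Fin d => σ).prod σ), ∀ᵐ a ∂σ, q (V i p a) := by
  have := hσ.prob
  exact Measure.ae_ae_of_ae_prod ((mp_V hσ i).quasiMeasurePreserving.ae hq)

lemma exists_w (p : (Fin d → E d) × E d) {i j : Fin d} (hij : i ≠ j) :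
    ∃ w : E d, ‖w‖ = 1 ∧ ⟪w, p.2⟫ = 0 ∧ ∀ l, l ≠ i → l ≠ j → ⟪w, p.1 l⟫ = 0 := by
  classical
  set S : Finset (E d) := insert p.2 (((Finset.univ.erase i).erase j).image p.1) with hS
  have hcard : S.card ≤ d - 1 := by
    refine (Finset.card_insert_le _ _).trans ?_
    have h1 : (((Finset.univ.erase i).erase j).image p.1).card ≤ d - 1 - 1 := by
      refine Finset.card_image_le.trans ?_
      rw [Finset.card_erase_of_mem (Finset.mem_erase.2 ⟨hij.symm, Finset.mem_univ j⟩),
        Finset.card_erase_of_mem (Finset.mem_univ i), Finset.card_univ, Fintype.card_fin]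
    have h2 : 2 ≤ d := by
      have := i.2; have := j.2
      have : (i : ℕ) ≠ j := fun h => hij (Fin.ext h)
      omega
    omega
  have hd : 0 < d := lt_of_le_of_lt (Nat.zero_le _) i.2
  have hV : Submodule.span ℝ (S : Set (E d)) ≠ ⊤ := by
    intro htop
    have h1 := finrank_span_finset_le_card (R := ℝ) S
    rw [Set.finrank, htop, finrank_top, finrank_euclideanSpace_fin] at h1
    omega
  have h1 : (Submodule.span ℝ (S : Set (E d)))ᗮ ≠ ⊥ := fun h => hV (Submodule.orthogonal_eq_bot_iff.1 h)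
  obtain ⟨w, hw, hw0⟩ := Submodule.exists_mem_ne_zero_of_ne_bot h1
  have hn : ‖w‖ ≠ 0 := norm_ne_zero_iff.2 hw0
  have hort : ∀ u ∈ S, ⟪‖w‖⁻¹ • w, u⟫ = 0 := by
    intro u hu
    rw [real_inner_smul_left, Submodule.inner_left_of_mem_orthogonal (Submodule.subset_span hu) hw,
      mul_zero]
  refine ⟨‖w‖⁻¹ • w, ?_, hort _ (Finset.mem_insert_self _ _), fun l hi hj => hort _ ?_⟩
  · rw [norm_smul, norm_inv, norm_norm, inv_mul_cancel₀ hn]
  · refine Finset.mem_insert_of_mem (Finset.mem_image_of_mem _ ?_)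
    exact Finset.mem_erase.2 ⟨hj, Finset.mem_erase.2 ⟨hi, Finset.mem_univ l⟩⟩

lemma sgn_integral (hσ : IsSph σ) (hd : 0 < d) {w : E d} (hw : ‖w‖ = 1) :
    ∫ a, ∫ b, -(sgn ⟪w, a⟫ * sgn ⟪w, b⟫) * ⟪a, b⟫ ∂σ ∂σ ≤ -(1 / (3 * d)) := by
  have := hσ.prob
  have hd' : (0:ℝ) < d := by positivity
  have hsm : Measurable fun b : E d => sgn ⟪w, b⟫ := sgn_meas.comp (by fun_prop)
  have hi : Integrable (fun b : E d => sgn ⟪w, b⟫ • b) σ := by
    refine Integrable.of_bound (hsm.smul measurable_id).aestronglyMeasurable 1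
      (hσ.norm_eq.mono fun b hb => ?_)
    rw [norm_smul, Real.norm_eq_abs, abs_sgn, hb, mul_one]
  set v := ∫ b, sgn ⟪w, b⟫ • b ∂σ with hv
  have h1 : ∀ c : E d, ∫ b, sgn ⟪w, b⟫ * ⟪c, b⟫ ∂σ = ⟪c, v⟫ := by
    intro c
    rw [hv, ← integral_inner hi c]
    refine integral_congr_ae (Eventually.of_forall fun b => ?_)
    simp only
    rw [real_inner_smul_right]
  have h2 : ∀ a, ∫ b, -(sgn ⟪w, a⟫ * sgn ⟪w, b⟫) * ⟪a, b⟫ ∂σ = -(sgn ⟪w, a⟫ * ⟪v, a⟫) := by
    intro a
    rw [real_inner_comm a v, ← h1 a, ← integral_const_mul, ← integral_neg]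
    refine integral_congr_ae (Eventually.of_forall fun b => ?_)
    simp only; ring
  simp_rw [h2]
  rw [integral_neg, h1 v]
  have h3 : ⟪w, v⟫ = ∫ a, |⟪w, a⟫| ∂σ := by
    rw [← h1 w]
    refine integral_congr_ae (Eventually.of_forall fun b => ?_)
    simp only
    rw [sgn_mul]
  have h4 := hσ.abs_ge hd hw
  rw [← h3] at h4
  have h5 : ⟪w, v⟫ ≤ ‖v‖ := by
    have := real_inner_le_norm w v
    rwa [hw, one_mul] at this
  have h6 : (1 / √(3 * d)) ^ 2 ≤ ‖v‖ ^ 2 := pow_le_pow_left₀ (by positivity) (h4.trans h5) 2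
  rw [div_pow, one_pow, Real.sq_sqrt (by positivity)] at h6
  rw [real_inner_self_eq_norm_sq]
  linarith

lemma norm_ae (hσ : IsSph σ) : ∀ᵐ p ∂((Measure.pi fun _ : Fin d => σ).prod σ),
    (∀ k, ‖p.1 k‖ = 1) ∧ ‖p.2‖ = 1 := by
  have := hσ.prob
  have h1 : ∀ᵐ x ∂(Measure.pi fun _ : Fin d => σ), ∀ k, ‖x k‖ = 1 :=
    ae_all_iff.2 fun k => (measurePreserving_eval (fun _ : Fin d => σ) k).quasiMeasurePreserving.ae
      hσ.norm_eq
  have h2 : ∀ᵐ p ∂((Measure.pi fun _ : Fin d => σ).prod σ), ∀ k, ‖p.1 k‖ = 1 :=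
    Measure.quasiMeasurePreserving_fst.ae h1
  have h3 : ∀ᵐ p ∂((Measure.pi fun _ : Fin d => σ).prod σ), ‖p.2‖ = 1 :=
    Measure.quasiMeasurePreserving_snd.ae hσ.norm_eq
  filter_upwards [h2, h3] with p h2 h3
  exact ⟨h2, h3⟩

/-- The indicator of the cone. -/
noncomputable def ind (p : (Fin d → E d) × E d) : ℝ := (graph d).indicator (fun _ => (1:ℝ)) p

lemma ind_meas : Measurable (ind (d := d)) := measurable_const.indicator meas_graph

lemma ind_bd (p : (Fin d → E d) × E d) : |ind p| ≤ 1 := by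
  unfold ind
  by_cases h : p ∈ graph d
  · rw [Set.indicator_of_mem h]; simp
  · rw [Set.indicator_of_notMem h]; simp

lemma ind_nonneg (p : (Fin d → E d) × E d) : 0 ≤ ind p :=
  Set.indicator_nonneg (fun _ _ => zero_le_one) p

lemma inner_meas (i j : Fin d) : Measurable fun p : (Fin d → E d) × E d => ⟪p.1 i, p.1 j⟫ := by
  have h1 : Continuous fun p : (Fin d → E d) × E d => p.1 i := (continuous_apply i).comp continuous_fst
  have h2 : Continuous fun p : (Fin d → E d) × E d => p.1 j := (continuous_apply j).comp continuous_fst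
  exact (h1.inner h2).measurable

lemma flip_meas (ε : Fin d → Bool) :
    Measurable fun p : (Fin d → E d) × E d => (flip ε p.1, p.2) := by
  refine Measurable.prodMk (measurable_pi_lambda _ fun k => ?_) measurable_snd
  exact ((measurable_pi_apply k).comp measurable_fst).const_smul (sg (ε k))

/-- The mixed moment over the cone. -/
noncomputable def T (σ : Measure (E d)) (i j : Fin d) : ℝ :=
  ∫ p, ind p * ⟪p.1 i, p.1 j⟫ ∂((Measure.pi fun _ : Fin d => σ).prod σ)

lemma T_integrable (hσ : IsSph σ) (i j : Fin d) :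
    Integrable (fun p => ind p * ⟪p.1 i, p.1 j⟫) ((Measure.pi fun _ : Fin d => σ).prod σ) := by
  have := hσ.prob
  refine Integrable.of_bound (ind_meas.mul (inner_meas i j)).aestronglyMeasurable 1
    ((norm_ae hσ).mono fun p hp => ?_)
  rw [Real.norm_eq_abs, abs_mul]
  exact mul_le_one₀ (ind_bd p) (abs_nonneg _) (coord_le (hp.1 j) (hp.1 i))

lemma T_flip (hσ : IsSph σ) (i j : Fin d) (ε : Fin d → Bool) :
    T σ i j = ∫ p, ind (flip ε p.1, p.2) * (sg (ε i) * sg (ε j)) * ⟪p.1 i, p.1 j⟫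
      ∂((Measure.pi fun _ : Fin d => σ).prod σ) := by
  have := hσ.prob
  have h1 := integral_map (μ := (Measure.pi fun _ : Fin d => σ).prod σ)
    (φ := fun p : (Fin d → E d) × E d => (flip ε p.1, p.2)) (flip_meas ε).aemeasurable
    (f := fun p => ind p * ⟪p.1 i, p.1 j⟫) (ind_meas.mul (inner_meas i j)).aestronglyMeasurable
  rw [(mp_flip2 hσ ε).map_eq] at h1
  unfold T
  rw [h1]
  refine integral_congr_ae (Eventually.of_forall fun p => ?_)
  simp only [flip]
  rw [real_inner_smul_left, real_inner_smul_right]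
  ring

lemma T_sum (hσ : IsSph σ) (i j : Fin d) :
    2 ^ d * T σ i j = ∫ p, R i j p * ⟪p.1 i, p.1 j⟫ ∂((Measure.pi fun _ : Fin d => σ).prod σ) := by
  have := hσ.prob
  have h1 : ∑ _ε : Fin d → Bool, T σ i j = 2 ^ d * T σ i j := by
    rw [Finset.sum_const, Finset.card_univ, nsmul_eq_mul]
    simp
  rw [← h1, Finset.sum_congr rfl fun ε _ => T_flip hσ i j ε, ← integral_finsetSum]
  · refine integral_congr_ae (Eventually.of_forall fun p => ?_)
    simp only [R, Finset.sum_mul]
    rfl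
  · intro ε _
    refine Integrable.of_bound (((ind_meas.comp (flip_meas ε)).mul_const _).mul
      (inner_meas i j)).aestronglyMeasurable 1 ((norm_ae hσ).mono fun p hp => ?_)
    rw [Real.norm_eq_abs, abs_mul, abs_mul, abs_mul, abs_sg, abs_sg, mul_one, mul_one]
    exact mul_le_one₀ (ind_bd _) (abs_nonneg _) (coord_le (hp.1 j) (hp.1 i))

lemma R_meas (i j : Fin d) : Measurable (R i j) := by
  unfold R
  refine Finset.measurable_sum _ fun ε _ => ?_
  exact (ind_meas.comp (flip_meas ε)).mul_const _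

lemma T_diag (hσ : IsSph σ) (hd : 0 < d) (i : Fin d) : 2 ^ d * T σ i i = 1 := by
  have := hσ.prob
  rw [T_sum hσ]
  have h : ∫ p, R i i p * ⟪p.1 i, p.1 i⟫ ∂((Measure.pi fun _ : Fin d => σ).prod σ) =
      ∫ _p, (1:ℝ) ∂((Measure.pi fun _ : Fin d => σ).prod σ) := by
    refine integral_congr_ae ?_
    filter_upwards [hσ.GP_ae hd, norm_ae hσ] with p h1 h2
    rw [R_diag h1, real_inner_self_eq_norm_sq, h2.1 i]
    norm_num
  rw [h]; simp

lemma T_off (hσ : IsSph σ) (hd : 0 < d) {i j : Fin d} (hij : i ≠ j) :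
    2 ^ d * T σ i j ≤ -(1 / (3 * d)) := by
  have := hσ.prob
  set Q := (Measure.pi fun _ : Fin d => σ).prod σ with hQ
  set G : (Fin d → E d) × E d → ℝ := fun p => R i j p * ⟪p.1 i, p.1 j⟫ with hG
  have hGi : Integrable G Q := by
    refine Integrable.of_bound ((R_meas i j).mul (inner_meas i j)).aestronglyMeasurable (2 ^ d)
      ((norm_ae hσ).mono fun p hp => ?_)
    rw [Real.norm_eq_abs, abs_mul]
    have h1 : |R i j p| ≤ 2 ^ d := by
      unfold R
      refine (Finset.abs_sum_le_sum_abs _ _).trans ?_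
      have : ∀ ε ∈ (Finset.univ : Finset (Fin d → Bool)),
          |(graph d).indicator (fun _ => (1:ℝ)) (flip ε p.1, p.2) * (sg (ε i) * sg (ε j))| ≤ 1 := by
        intro ε _
        rw [abs_mul, abs_mul, abs_sg, abs_sg, mul_one, mul_one]
        exact ind_bd _
      refine (Finset.sum_le_card_nsmul _ _ _ this).trans ?_
      rw [Finset.card_univ, nsmul_eq_mul]
      simp
    calc |R i j p| * |⟪p.1 i, p.1 j⟫| ≤ 2 ^ d * 1 :=
          mul_le_mul h1 (coord_le (hp.1 j) (hp.1 i)) (abs_nonneg _) (by positivity)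
      _ = 2 ^ d := mul_one _
  obtain ⟨i1, e1⟩ := resample hσ j hGi
  obtain ⟨i2, e2⟩ := resample hσ i i1
  rw [T_sum hσ, ← hQ]
  show ∫ p, G p ∂Q ≤ _
  rw [e1, e2]
  have hae := ae_resample hσ i (ae_resample hσ j (hσ.GP_ae hd))
  have hle : ∀ᵐ p ∂Q, ∫ a, ∫ b, G (V j (V i p a) b) ∂σ ∂σ ≤ -(1 / (3 * (d:ℝ))) := by
    filter_upwards [hae] with p hp
    obtain ⟨w, hw1, hw2, hwl⟩ := exists_w p hij
    have hw0 : w ≠ 0 := by
      intro h; rw [h, norm_zero] at hw1; exact zero_ne_one hw1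
    refine le_trans (le_of_eq ?_) (sgn_integral hσ hd hw1)
    refine integral_congr_ae ?_
    filter_upwards [hp] with a ha
    refine integral_congr_ae ?_
    filter_upwards [ha] with b hb
    have vi : (V j (V i p a) b).1 i = a := by
      simp only [V]
      rw [Function.update_of_ne hij, Function.update_self]
    have vj : (V j (V i p a) b).1 j = b := by
      simp only [V]
      rw [Function.update_self]
    have vl : ∀ l, l ≠ i → l ≠ j → (V j (V i p a) b).1 l = p.1 l := by
      intro l hi hj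
      simp only [V]
      rw [Function.update_of_ne hj, Function.update_of_ne hi]
    have := R_off hb hij hw0 hw2 (fun l hi hj => by rw [vl l hi hj]; exact hwl l hi hj)
    show R i j _ * _ = _
    rw [this, vi, vj]
  have h3 := integral_mono_ae i2 (integrable_const (-(1 / (3 * (d:ℝ))))) hle
  refine h3.trans ?_
  simp

end Pool.Agent.R976.Cone
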