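import Pool.Agent.R976.ConeFinal

set_option autoImplicit false

open MeasureTheory ProbabilityTheory Filter Topology
open scoped RealInnerProductSpace BoundedContinuousFunction

namespace Pool.Agent.R976.Cone

/-- The rotation invariant probability measure on the sphere exists. -/
theorem exists_sph {d : ℕ} (hd : 0 < d) : ∃ σ : Measure (E d), IsSph σ := by
  set B : Set (E d) := Metric.ball 0 1 with hB
  set μ : Measure (E d) := (volume B)⁻¹ • volume.restrict B with hμ
  have hne : Nonempty (Fin d) := ⟨⟨0, hd⟩⟩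
  have hnt : Nontrivial (E d) := by
    refine ⟨⟨eb ⟨0, hd⟩, 0, fun h => ?_⟩⟩
    have := eb_norm (d := d) ⟨0, hd⟩
    rw [h, norm_zero] at this
    exact zero_ne_one this
  have hB0 : volume B ≠ 0 := (Metric.measure_ball_pos volume 0 zero_lt_one).ne'
  have hBt : volume B ≠ ⊤ := measure_ball_lt_top.ne
  have hprob : IsProbabilityMeasure μ := by
    refine ⟨?_⟩
    rw [hμ, Measure.smul_apply, Measure.restrict_apply_univ, smul_eq_mul,
      ENNReal.inv_mul_cancel hB0 hBt]
  set N : E d → E d := fun x => ‖x‖⁻¹ • x with hN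
  have hNm : Measurable N := by fun_prop
  have hμinv : ∀ T : E d ≃ₗᵢ[ℝ] E d, μ.map T = μ := by
    intro T
    have h1 := T.measurePreserving
    have h2 : T ⁻¹' B = B := by
      ext x; simp [hB]
    have h3 : (volume.restrict B).map T = volume.restrict B := by
      have := h1.restrict_preimage (s := B) Metric.isOpen_ball.measurableSet
      rw [h2] at this
      exact this.map_eq
    rw [hμ, Measure.map_smul, h3]
  refine ⟨μ.map N, ?_, ?_, ?_⟩
  · exact Measure.isProbabilityMeasure_map hNm.aemeasurable
  · rw [ae_map_iff hNm.aemeasurable (measurableSet_eq_fun measurable_norm measurable_const)]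
    have h0 : ∀ᵐ x ∂μ, x ≠ 0 := by
      have : μ {0} = 0 := by
        rw [hμ, Measure.smul_apply, smul_eq_mul]
        have : volume.restrict B ({0} : Set (E d)) = 0 :=
          measure_mono_null (Set.Subset.refl _) (le_antisymm
            ((Measure.restrict_apply_le B {0}).trans (measure_singleton 0).le) zero_le)
        rw [this, mul_zero]
      rw [ae_iff]
      simpa using this
    filter_upwards [h0] with x hx
    show ‖(‖x‖⁻¹ • x)‖ = 1
    rw [norm_smul, norm_inv, norm_norm, inv_mul_cancel₀ (norm_ne_zero_iff.2 hx)]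
  · intro T
    rw [Measure.map_map T.continuous.measurable hNm]
    have : (T ∘ N) = N ∘ T := by
      funext x
      simp only [Function.comp_apply, hN]
      rw [map_smul, T.norm_map]
    rw [this, ← Measure.map_map hNm T.continuous.measurable, hμinv T]

/-- The truncation as a bounded continuous function. -/
noncomputable def trunc (M : ℝ) (hM : 0 ≤ M) : ℝ →ᵇ ℝ :=
  BoundedContinuousFunction.ofNormedAddCommGroup (fun z => min (max z 0) M) (by fun_prop) M
    (fun z => by
      rw [Real.norm_eq_abs, abs_of_nonneg (le_min (le_max_right _ _) hM)]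
      exact min_le_right _ _)

/-- `min (max (-z) 0) 1` -/
noncomputable def negp : ℝ →ᵇ ℝ :=
  BoundedContinuousFunction.ofNormedAddCommGroup (fun z => min (max (-z) 0) 1) (by fun_prop) 1
    (fun z => by
      rw [Real.norm_eq_abs, abs_of_nonneg (le_min (le_max_right _ _) zero_le_one)]
      exact min_le_right _ _)

/-- Every subsequential limit in distribution has mean at most `2 / 3`. -/
theorem limit_mean (σ : (d : ℕ) → Measure (E d)) (hσ : ∀ d, 0 < d → IsSph (σ d)) (k : ℕ → ℕ)
    (hk : Tendsto k atTop atTop) (μ : Measure ℝ) [IsProbabilityMeasure μ]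
    (hlim : ∀ f : ℝ →ᵇ ℝ, Tendsto (fun n => ∫ x, f (Z (σ (k n)) x)
      ∂(Measure.pi fun _ : Fin (k n) => σ (k n))) atTop (𝓝 (∫ y, f y ∂μ))) :
    (∀ᵐ y ∂μ, 0 ≤ y) ∧ Integrable (fun y => y) μ ∧ ∫ y, y ∂μ ≤ 2 / 3 := by
  have hkR : Tendsto (fun n => (k n : ℝ)) atTop atTop := tendsto_natCast_atTop_atTop.comp hk
  have hkpos : ∀ᶠ n in atTop, 0 < k n := hk.eventually (eventually_gt_atTop 0)
  -- truncated means
  have hM : ∀ (M : ℝ) (hM : 0 ≤ M), ∫ y, min (max y 0) M ∂μ ≤ 2 / 3 := by
    intro M hM
    have key : ∀ δ : ℝ, 0 < δ → δ < 1 → ∫ y, min (max y 0) M ∂μ ≤ 2 / 3 / (1 - δ) := by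
      intro δ hδ hδ1
      have h1 := hlim (trunc M hM)
      have h1δ : 0 < 1 - δ := by linarith
      have h2 : Tendsto (fun n => (2 * (k n : ℝ) + 1) / 3 / ((1 - δ) * (k n : ℝ)) +
          M * (2 / (δ ^ 2 * (k n : ℝ)))) atTop (𝓝 (2 / 3 / (1 - δ) + 0)) := by
        refine Tendsto.add ?_ ?_
        · have h3 : Tendsto (fun n => 2 / 3 / (1 - δ) + (1 / 3 / (1 - δ)) / (k n : ℝ)) atTop
              (𝓝 (2 / 3 / (1 - δ) + 0)) :=
            tendsto_const_nhds.add (hkR.const_div_atTop _)
          rw [add_zero] at h3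
          refine h3.congr' ?_
          filter_upwards [hkpos] with n hn
          have : (0:ℝ) < k n := by exact_mod_cast hn
          field_simp
        · have h3 : Tendsto (fun n => (M * (2 / δ ^ 2)) / (k n : ℝ)) atTop (𝓝 0) :=
            hkR.const_div_atTop _
          refine h3.congr' ?_
          filter_upwards [hkpos] with n hn
          have : (0:ℝ) < k n := by exact_mod_cast hn
          field_simp
      rw [add_zero] at h2
      refine le_of_tendsto_of_tendsto h1 h2 ?_
      filter_upwards [hkpos] with n hn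
      exact trunc_bound (hσ _ hn) hn hδ hδ1 hM
    have h4 : Tendsto (fun n : ℕ => 2 / 3 / (1 - 1 / ((n : ℝ) + 2))) atTop (𝓝 (2 / 3 / (1 - 0))) := by
      refine Tendsto.div tendsto_const_nhds (tendsto_const_nhds.sub ?_) (by norm_num)
      have : Tendsto (fun n : ℕ => (n : ℝ) + 2) atTop atTop :=
        tendsto_atTop_add_const_right _ _ tendsto_natCast_atTop_atTop
      exact this.const_div_atTop 1
    rw [sub_zero, div_one] at h4
    refine ge_of_tendsto' h4 fun n => ?_
    have hn : (0:ℝ) ≤ n := Nat.cast_nonneg n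
    refine key _ (by positivity) ?_
    rw [div_lt_one (by positivity)]
    linarith
  -- nonnegativity
  have hneg : ∫ y, min (max (-y) 0) 1 ∂μ = 0 := by
    have h1 := hlim negp
    have h2 : ∀ n, ∫ x, negp (Z (σ (k n)) x) ∂(Measure.pi fun _ : Fin (k n) => σ (k n)) = 0 := by
      intro n
      have : ∀ x : Fin (k n) → E (k n), negp (Z (σ (k n)) x) = 0 := by
        intro x
        show min (max (-(Z (σ (k n)) x)) 0) 1 = 0
        rw [max_eq_right (by linarith [Z_nonneg (σ := σ (k n)) x]), min_eq_left zero_le_one]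
      simp_rw [this]
      simp
    simp_rw [h2] at h1
    exact (tendsto_nhds_unique h1 tendsto_const_nhds)
  have hnn : ∀ᵐ y ∂μ, 0 ≤ y := by
    have hint : Integrable (fun y : ℝ => min (max (-y) 0) 1) μ := negp.integrable μ
    have h1 := (integral_eq_zero_iff_of_nonneg
      (fun y => le_min (le_max_right _ _) zero_le_one) hint).1 hneg
    filter_upwards [h1] with y hy
    by_contra h
    push Not at h
    simp only [Pi.zero_apply] at hy
    have h2 : 0 < min (max (-y) 0) 1 := lt_min (lt_max_of_lt_left (by linarith)) zero_lt_one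
    linarith
  -- monotone convergence
  have hlint : ∫⁻ y, ENNReal.ofReal y ∂μ ≤ ENNReal.ofReal (2 / 3) := by
    have h1 : Tendsto (fun N : ℕ => ∫⁻ y, ENNReal.ofReal (min (max y 0) N) ∂μ) atTop
        (𝓝 (∫⁻ y, ENNReal.ofReal y ∂μ)) := by
      refine lintegral_tendsto_of_tendsto_of_monotone (fun N => by fun_prop)
        (Eventually.of_forall fun y => ?_) (Eventually.of_forall fun y => ?_)
      · intro N N' hNN
        refine ENNReal.ofReal_le_ofReal (min_le_min le_rfl ?_)
        exact_mod_cast hNN
      · obtain ⟨N0, hN0⟩ := exists_nat_ge (max y 0)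
        have h2 : ENNReal.ofReal y = ENNReal.ofReal (max y 0) := by
          rcases le_total 0 y with h | h
          · rw [max_eq_left h]
          · rw [max_eq_right h, ENNReal.ofReal_of_nonpos h, ENNReal.ofReal_zero]
        rw [h2]
        refine tendsto_const_nhds.congr' ?_
        filter_upwards [eventually_ge_atTop N0] with N hN
        rw [min_eq_left (hN0.trans (by exact_mod_cast hN))]
    refine le_of_tendsto' h1 fun N => ?_
    have hint : Integrable (fun y : ℝ => min (max y 0) (N:ℝ)) μ :=
      (trunc (N:ℝ) (Nat.cast_nonneg N)).integrable μ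
    rw [← ofReal_integral_eq_lintegral_ofReal hint
      (Eventually.of_forall fun y => le_min (le_max_right _ _) (Nat.cast_nonneg N))]
    exact ENNReal.ofReal_le_ofReal (hM N (Nat.cast_nonneg N))
  have hi : Integrable (fun y : ℝ => y) μ := by
    refine ⟨measurable_id.aestronglyMeasurable, ?_⟩
    rw [hasFiniteIntegral_iff_ofReal hnn]
    exact lt_of_le_of_lt hlint ENNReal.ofReal_lt_top
  refine ⟨hnn, hi, ?_⟩
  rw [integral_eq_lintegral_of_nonneg_ae hnn hi.aestronglyMeasurable]
  exact ENNReal.toReal_le_of_le_ofReal (by norm_num) hlint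

end Pool.Agent.R976.Cone
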