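import Pool.Agent.R976.Cone

set_option autoImplicit false

open MeasureTheory ProbabilityTheory Filter Topology
open scoped RealInnerProductSpace

namespace Pool.Agent.R976.Cone

variable {d : ℕ} {σ : Measure (E d)}

/-- A moment curve. -/
noncomputable def mom (d : ℕ) (t : ℝ) : E d := WithLp.toLp 2 fun k => t ^ (k : ℕ)

lemma mom_inner (t : ℝ) (a : E d) : ⟪mom d t, a⟫ = ∑ k : Fin d, a k * t ^ (k : ℕ) := by
  rw [PiLp.inner_apply]
  refine Finset.sum_congr rfl fun k _ => ?_
  simp [mom]

lemma mom_ne (hd : 0 < d) (t : ℝ) : mom d t ≠ 0 := by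
  intro h
  have : mom d t ⟨0, hd⟩ = 0 := by rw [h]; rfl
  simp [mom] at this

open Polynomial in
lemma roots_le {a : E d} (ha : a ≠ 0) (N : ℕ) :
    ((Finset.range N).filter fun t : ℕ => ⟪mom d (t : ℝ), a⟫ = 0).card ≤ d := by
  classical
  set p : ℝ[X] := ∑ k : Fin d, C (a k) * X ^ (k : ℕ) with hp
  have hco : ∀ k : Fin d, p.coeff k = a k := by
    intro k
    rw [hp, finsetSum_coeff, Finset.sum_eq_single k]
    · simp
    · intro l _ hl
      have : (k : ℕ) ≠ l := fun h => hl (Fin.ext h.symm)
      simp [coeff_X_pow, this]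
    · intro h; exact absurd (Finset.mem_univ k) h
  have hp0 : p ≠ 0 := by
    intro h0
    apply ha
    ext k
    rw [← hco k, h0]; simp
  have hdeg : p.natDegree ≤ d := by
    have := degree_sum_fin_lt (fun k => a k)
    exact natDegree_le_iff_degree_le.2 this.le
  have hev : ∀ t : ℝ, ⟪mom d t, a⟫ = p.eval t := by
    intro t
    rw [mom_inner, hp, eval_finsetSum]
    simp
  set Z := ((Finset.range N).filter fun t : ℕ => ⟪mom d (t : ℝ), a⟫ = 0).image (fun t : ℕ => (t : ℝ)) with hZ
  have hcard : Z.card = ((Finset.range N).filter fun t : ℕ => ⟪mom d (t : ℝ), a⟫ = 0).card :=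
    Finset.card_image_of_injective _ Nat.cast_injective
  rw [← hcard]
  refine le_trans (card_le_degree_of_subset_roots (p := p) ?_) hdeg
  intro z hz
  rw [Finset.mem_val, hZ, Finset.mem_image] at hz
  obtain ⟨t, ht, rfl⟩ := hz
  rw [mem_roots hp0, IsRoot.def, ← hev]
  exact (Finset.mem_filter.1 ht).2

/-- Hyperplanes are null sets. -/
lemma IsSph.hyper_null (hσ : IsSph σ) (hd : 0 < d) {w : E d} (hw : w ≠ 0) :
    σ {a | ⟪w, a⟫ = 0} = 0 := by
  have := hσ.prob
  have scale : ∀ (v : E d), v ≠ 0 → {a : E d | ⟪v, a⟫ = 0} = {a | ⟪‖v‖⁻¹ • v, a⟫ ∈ ({0} : Set ℝ)} := by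
    intro v hv
    ext a
    simp only [Set.mem_ofPred_eq, Set.mem_singleton_iff, real_inner_smul_left, mul_eq_zero,
      inv_eq_zero, norm_eq_zero, hv, false_or]
  have unit : ∀ (v : E d), v ≠ 0 → ‖(‖v‖⁻¹ • v)‖ = 1 := by
    intro v hv
    rw [norm_smul, norm_inv, norm_norm, inv_mul_cancel₀ (norm_ne_zero_iff.2 hv)]
  have heq : ∀ t : ℕ, σ {a | ⟪w, a⟫ = 0} = σ {a | ⟪mom d (t : ℝ), a⟫ = 0} := by
    intro t
    rw [scale w hw, scale _ (mom_ne hd _)]
    exact hσ.law_set (by rw [unit w hw, unit _ (mom_ne hd _)]) (measurableSet_singleton 0)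
  have hms : ∀ t : ℕ, MeasurableSet {a : E d | ⟪mom d (t : ℝ), a⟫ = 0} := by
    intro t
    exact (isClosed_eq (by fun_prop) continuous_const).measurableSet
  have hN : ∀ N : ℕ, (N : ℝ) * σ.real {a | ⟪w, a⟫ = 0} ≤ d := by
    intro N
    have h1 : ∀ t : ℕ, ∫ a, {a : E d | ⟪mom d (t : ℝ), a⟫ = 0}.indicator (fun _ => (1:ℝ)) a ∂σ =
        σ.real {a | ⟪w, a⟫ = 0} := by
      intro t
      rw [integral_indicator (hms t), setIntegral_const, smul_eq_mul, mul_one, measureReal_def,
        measureReal_def, heq t]
    have h2 : ∑ t ∈ Finset.range N, ∫ a, {a : E d | ⟪mom d (t : ℝ), a⟫ = 0}.indicator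
        (fun _ => (1:ℝ)) a ∂σ = N * σ.real {a | ⟪w, a⟫ = 0} := by
      rw [Finset.sum_congr rfl fun t _ => h1 t, Finset.sum_const, Finset.card_range, nsmul_eq_mul]
    rw [← h2, ← integral_finsetSum]
    · have h3 : ∀ᵐ a ∂σ, ∑ t ∈ Finset.range N, {a : E d | ⟪mom d (t : ℝ), a⟫ = 0}.indicator
          (fun _ => (1:ℝ)) a ≤ d := by
        refine hσ.norm_eq.mono fun a ha => ?_
        have ha0 : a ≠ 0 := by
          intro h; rw [h, norm_zero] at ha; exact zero_ne_one ha
        have h4 := roots_le ha0 N
        have h5 : ∑ t ∈ Finset.range N, {a : E d | ⟪mom d (t : ℝ), a⟫ = 0}.indicator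
          (fun _ => (1:ℝ)) a = (((Finset.range N).filter fun t : ℕ => ⟪mom d (t : ℝ), a⟫ = 0).card : ℝ) := by
          classical
          rw [Finset.card_filter]
          push_cast
          refine Finset.sum_congr rfl fun t _ => ?_
          by_cases h : ⟪mom d (t : ℝ), a⟫ = 0
          · rw [Set.indicator_of_mem (show a ∈ {a : E d | ⟪mom d (t : ℝ), a⟫ = 0} from h), if_pos h]
          · rw [Set.indicator_of_notMem (show a ∉ {a : E d | ⟪mom d (t : ℝ), a⟫ = 0} from h), if_neg h]
        rw [h5]
        exact_mod_cast h4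
      have h6 := integral_mono_ae (integrable_finsetSum _ fun t _ =>
        (integrable_const (1:ℝ)).indicator (hms t)) (integrable_const (d:ℝ)) h3
      refine h6.trans ?_
      simp
    · intro t _
      exact (integrable_const (1:ℝ)).indicator (hms t)
  by_contra hne
  have hpos : 0 < σ.real {a | ⟪w, a⟫ = 0} := by
    rw [measureReal_def]
    exact ENNReal.toReal_pos hne (measure_ne_top _ _)
  obtain ⟨N, hN'⟩ := exists_nat_gt ((d:ℝ) / σ.real {a | ⟪w, a⟫ = 0})
  rw [div_lt_iff₀ hpos] at hN'
  linarith [hN N]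

/-- Proper subspaces are null sets. -/
lemma IsSph.sub_null (hσ : IsSph σ) (hd : 0 < d) {V : Submodule ℝ (E d)} (hV : V ≠ ⊤) :
    σ (V : Set (E d)) = 0 := by
  have h1 : Vᗮ ≠ ⊥ := fun h => hV (Submodule.orthogonal_eq_bot_iff.1 h)
  obtain ⟨w, hw, hw0⟩ := Submodule.exists_mem_ne_zero_of_ne_bot h1
  refine measure_mono_null ?_ (hσ.hyper_null hd hw0)
  intro a ha
  exact Submodule.inner_left_of_mem_orthogonal ha hw

/-- Resampling one coordinate. -/
lemma mp_update [IsProbabilityMeasure σ] {n : ℕ} (i : Fin n) :
    MeasurePreserving (fun p : (Fin n → E d) × E d => Function.update p.1 i p.2)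
      ((Measure.pi fun _ : Fin n => σ).prod σ) (Measure.pi fun _ => σ) := by
  classical
  have hmeas : Measurable (fun p : (Fin n → E d) × E d => Function.update p.1 i p.2) := by
    refine measurable_pi_lambda _ fun k => ?_
    by_cases h : k = i
    · subst h; simpa using measurable_snd
    · simp only [Function.update_of_ne h]
      exact (measurable_pi_apply k).comp measurable_fst
  refine ⟨hmeas, ?_⟩
  refine (Measure.pi_eq fun s hs => ?_).symm
  rw [Measure.map_apply hmeas (MeasurableSet.univ_pi hs)]
  have e : (fun p : (Fin n → E d) × E d => Function.update p.1 i p.2) ⁻¹' Set.univ.pi s =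
      (Set.univ.pi (Function.update s i Set.univ)) ×ˢ (s i) := by
    ext ⟨x, a⟩
    simp only [Set.mem_preimage, Set.mem_pi, Set.mem_univ, forall_true_left, Set.mem_prod]
    constructor
    · intro h
      constructor
      · intro k
        by_cases hk : k = i
        · subst hk; simp
        · have := h k
          rw [Function.update_of_ne hk] at this ⊢
          exact this
      · have := h i
        rwa [Function.update_self] at this
    · rintro ⟨h1, h2⟩ k
      by_cases hk : k = i
      · subst hk; rwa [Function.update_self]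
      · have := h1 k
        rw [Function.update_of_ne hk] at this ⊢
        exact this
  rw [e, Measure.prod_prod, Measure.pi_pi]
  have e2 : ∀ k, σ (Function.update s i Set.univ k) = Function.update (fun k => σ (s k)) i 1 k := by
    intro k
    by_cases hk : k = i
    · subst hk; simp
    · rw [Function.update_of_ne hk, Function.update_of_ne hk]
  rw [Finset.prod_congr rfl fun k _ => e2 k, Finset.prod_update_of_mem (Finset.mem_univ i), one_mul,
    Finset.sdiff_singleton_eq_erase, mul_comm]
  exact Finset.mul_prod_erase Finset.univ (fun k => σ (s k)) (Finset.mem_univ i)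

lemma meas_indep {n : ℕ} (s : Finset (Fin n)) :
    MeasurableSet {x : Fin n → E d | LinearIndepOn ℝ x (s : Set (Fin n))} := by
  have h : IsOpen {f : ↥(s : Set (Fin n)) → E d | LinearIndependent ℝ f} :=
    isOpen_setOfPred_linearIndependent
  have hc : Continuous fun (x : Fin n → E d) (i : ↥(s : Set (Fin n))) => x i := by fun_prop
  have h2 : IsOpen ((fun (x : Fin n → E d) (i : ↥(s : Set (Fin n))) => x i) ⁻¹'
      {f : ↥(s : Set (Fin n)) → E d | LinearIndependent ℝ f}) := h.preimage hc
  exact h2.measurableSet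

/-- General position. -/
lemma IsSph.indep (hσ : IsSph σ) (hd : 0 < d) {n : ℕ} (s : Finset (Fin n)) (hs : s.card ≤ d) :
    ∀ᵐ x ∂(Measure.pi fun _ : Fin n => σ), LinearIndepOn ℝ x (s : Set (Fin n)) := by
  classical
  have := hσ.prob
  induction s using Finset.induction_on with
  | empty => exact Eventually.of_forall fun x => by simp
  | insert k s hk ih =>
    rw [Finset.card_insert_of_notMem hk] at hs
    have ih := ih (by omega)
    have hm := meas_indep (d := d) (insert k s)
    rw [ae_iff]
    have e : {x : Fin n → E d | ¬ LinearIndepOn ℝ x ((insert k s : Finset (Fin n)) : Set (Fin n))} =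
      {x : Fin n → E d | LinearIndepOn ℝ x ((insert k s : Finset (Fin n)) : Set (Fin n))}ᶜ := rfl
    rw [e, ← (mp_update (σ := σ) k).measure_preimage hm.compl.nullMeasurableSet,
      Measure.measure_prod_null ((mp_update (σ := σ) k).measurable hm.compl)]
    filter_upwards [ih] with x hx
    show σ _ = 0
    have hV : Submodule.span ℝ (x '' (s : Set (Fin n))) ≠ ⊤ := by
      intro htop
      have h1 : Module.finrank ℝ (Submodule.span ℝ (x '' (s : Set (Fin n)))) ≤ s.card := by
        have := finrank_span_finset_le_card (R := ℝ) (s.image x)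
        rw [Finset.coe_image] at this
        exact this.trans Finset.card_image_le
      rw [htop, finrank_top, finrank_euclideanSpace_fin] at h1
      omega
    refine measure_mono_null ?_ (hσ.sub_null hd hV)
    intro a ha
    by_contra hna
    apply ha
    show LinearIndepOn ℝ (Function.update x k a) _
    rw [Finset.coe_insert]
    have hcongr : ∀ l ∈ (s : Set (Fin n)), Function.update x k a l = x l := by
      intro l hl
      refine Function.update_of_ne ?_ _ _
      rintro rfl
      exact hk hl
    have himg : Function.update x k a '' (s : Set (Fin n)) = x '' s :=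
      Set.image_congr hcongr
    refine LinearIndepOn.insert ?_ ?_
    · exact (linearIndepOn_congr hcongr).2 hx
    · rw [himg, Function.update_self]
      exact hna

end Pool.Agent.R976.Cone
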