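import Pool.Agent.R976.ConeNull

set_option autoImplicit false

open MeasureTheory ProbabilityTheory Filter Topology
open scoped RealInnerProductSpace

namespace Pool.Agent.R976.Cone

variable {d : ℕ} {σ : Measure (E d)}

/-- The positive hull of `x_1, …, x_d`. -/
def posHull {d : ℕ} (x : Fin d → E d) : Set (E d) :=
  {y | ∃ l : Fin d → ℝ, (∀ i, 0 ≤ l i) ∧ y = ∑ i, l i • x i}

/-- The graph of the positive hull. -/
def graph (d : ℕ) : Set ((Fin d → E d) × E d) := {p | p.2 ∈ posHull p.1}

lemma meas_graph : MeasurableSet (graph d) := by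
  set AN : ℕ → Set ((Fin d → E d) × E d) := fun N =>
    {p | ∃ l ∈ Set.Icc (0 : Fin d → ℝ) (fun _ => (N:ℝ)), p.2 = ∑ i, l i • p.1 i} with hAN
  have h1 : graph d = ⋃ N, AN N := by
    ext p
    simp only [graph, posHull, hAN, Set.mem_ofPred_eq, Set.mem_iUnion]
    constructor
    · rintro ⟨l, hl, hp⟩
      obtain ⟨K, hK⟩ := (Set.toFinite (Set.range l)).bddAbove
      obtain ⟨N, hN⟩ := exists_nat_ge K
      refine ⟨N, l, ⟨hl, fun i => (hK ⟨i, rfl⟩).trans hN⟩, hp⟩
    · rintro ⟨N, l, hl, hp⟩
      exact ⟨l, hl.1, hp⟩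
  rw [h1]
  refine MeasurableSet.iUnion fun N => ?_
  have hcomp : CompactSpace (Set.Icc (0 : Fin d → ℝ) (fun _ => (N:ℝ))) :=
    isCompact_iff_compactSpace.1 isCompact_Icc
  have h2 : AN N = Prod.snd '' {q : (Set.Icc (0 : Fin d → ℝ) (fun _ => (N:ℝ))) × ((Fin d → E d) × E d) |
      q.2.2 = ∑ i, (q.1 : Fin d → ℝ) i • q.2.1 i} := by
    ext p
    simp only [hAN, Set.mem_ofPred_eq, Set.mem_image, Prod.exists, exists_eq_right]
    constructor
    · rintro ⟨l, hl, hp⟩
      exact ⟨⟨l, hl⟩, hp⟩
    · rintro ⟨l, hp⟩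
      exact ⟨l, l.2, hp⟩
  rw [h2]
  refine IsClosed.measurableSet (isClosedMap_snd_of_compactSpace _ ?_)
  refine isClosed_eq (by fun_prop) ?_
  refine continuous_finsetSum _ fun i _ => ?_
  have c1 : Continuous fun q : (Set.Icc (0 : Fin d → ℝ) (fun _ => (N:ℝ))) × ((Fin d → E d) × E d) =>
      (q.1 : Fin d → ℝ) i := (continuous_apply i).comp (continuous_subtype_val.comp continuous_fst)
  have c2 : Continuous fun q : (Set.Icc (0 : Fin d → ℝ) (fun _ => (N:ℝ))) × ((Fin d → E d) × E d) =>
      q.2.1 i := (continuous_apply i).comp (continuous_fst.comp continuous_snd)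
  exact c1.smul c2

/-- The sign attached to a Boolean. -/
def sg (b : Bool) : ℝ := if b then 1 else -1

lemma sg_mul_self (b : Bool) : sg b * sg b = 1 := by cases b <;> simp [sg]

lemma abs_sg (b : Bool) : |sg b| = 1 := by cases b <;> simp [sg]

/-- Change of signs. -/
def flip (ε : Fin d → Bool) (x : Fin d → E d) : Fin d → E d := fun k => sg (ε k) • x k

/-- The sign of a real number. -/
noncomputable def sgn (t : ℝ) : ℝ := if 0 < t then 1 else -1

lemma sgn_mul (t : ℝ) : sgn t * t = |t| := by
  unfold sgn; split_ifs with h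
  · rw [abs_of_pos h, one_mul]
  · rw [abs_of_nonpos (not_lt.1 h)]; ring

lemma abs_sgn (t : ℝ) : |sgn t| = 1 := by unfold sgn; split_ifs <;> simp

lemma sgn_meas : Measurable sgn := Measurable.ite measurableSet_Ioi measurable_const measurable_const

/-- General position. -/
def GP (p : (Fin d → E d) × E d) : Prop :=
  LinearIndependent ℝ p.1 ∧ ∀ k, LinearIndependent ℝ (Function.update p.1 k p.2)

lemma IsSph.GP_ae (hσ : IsSph σ) (hd : 0 < d) :
    ∀ᵐ p ∂((Measure.pi fun _ : Fin d => σ).prod σ), GP p := by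
  have := hσ.prob
  have h := hσ.indep hd (n := d) Finset.univ (by simp)
  have h' : ∀ᵐ x ∂(Measure.pi fun _ : Fin d => σ), LinearIndependent ℝ x := by
    filter_upwards [h] with x hx
    rw [Finset.coe_univ, linearIndepOn_univ_iff] at hx
    exact hx
  have h1 : ∀ᵐ p ∂((Measure.pi fun _ : Fin d => σ).prod σ), LinearIndependent ℝ p.1 :=
    Measure.quasiMeasurePreserving_fst.ae h'
  have h2 : ∀ k, ∀ᵐ p ∂((Measure.pi fun _ : Fin d => σ).prod σ),
      LinearIndependent ℝ (Function.update p.1 k p.2) := fun k =>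
    (mp_update (σ := σ) k).quasiMeasurePreserving.ae h'
  filter_upwards [h1, ae_all_iff.2 h2] with p h1 h2
  exact ⟨h1, h2⟩

lemma exists_coord {p : (Fin d → E d) × E d} (hp : GP p) :
    ∃ y : Fin d → ℝ, p.2 = ∑ k, y k • p.1 k ∧ ∀ k, y k ≠ 0 := by
  classical
  have htop := hp.1.span_eq_top_of_card_eq_finrank' (by simp)
  have hmem : p.2 ∈ Submodule.span ℝ (Set.range p.1) := by rw [htop]; trivial
  obtain ⟨y, hy⟩ := (Submodule.mem_span_range_iff_exists_fun ℝ).1 hmem
  refine ⟨y, hy.symm, fun k hk => ?_⟩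
  have hli := Fintype.linearIndependent_iff.1 (hp.2 k) (Function.update y k (-1)) ?_ k
  · rw [Function.update_self] at hli
    norm_num at hli
  · rw [← Finset.add_sum_erase _ _ (Finset.mem_univ k), Function.update_self, Function.update_self]
    have h1 : ∀ l ∈ Finset.univ.erase k, Function.update y k (-1) l • Function.update p.1 k p.2 l =
        y l • p.1 l := by
      intro l hl
      have := Finset.ne_of_mem_erase hl
      rw [Function.update_of_ne this, Function.update_of_ne this]
    rw [Finset.sum_congr rfl h1]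
    have h2 := Finset.add_sum_erase Finset.univ (fun l => y l • p.1 l) (Finset.mem_univ k)
    simp only [hk, zero_smul, zero_add] at h2
    rw [h2, hy]
    simp

lemma orth_zero {v : Fin d → E d} (hv : LinearIndependent ℝ v) {w : E d}
    (h : ∀ k, ⟪w, v k⟫ = (0:ℝ)) : w = 0 := by
  have htop := hv.span_eq_top_of_card_eq_finrank' (by simp)
  have hmem : w ∈ Submodule.span ℝ (Set.range v) := by rw [htop]; trivial
  obtain ⟨y, hy⟩ := (Submodule.mem_span_range_iff_exists_fun ℝ).1 hmem
  have h0 : ⟪w, ∑ k, y k • v k⟫ = (0:ℝ) := by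
    rw [inner_sum]
    refine Finset.sum_eq_zero fun k _ => ?_
    rw [real_inner_smul_right, h k, mul_zero]
  rw [hy] at h0
  exact inner_self_eq_zero.1 h0

/-- Exactly one of the sign changes gives a cone which contains the point. -/
lemma sum_sign {x : Fin d → E d} (hx : LinearIndependent ℝ x) {y : Fin d → ℝ}
    (hy : ∀ k, y k ≠ 0) (f : (Fin d → Bool) → ℝ) :
    ∑ ε, (graph d).indicator (fun _ => (1:ℝ)) (flip ε x, ∑ k, y k • x k) * f ε =
      f (fun k => decide (0 < y k)) := by
  classical
  rw [Finset.sum_eq_single (fun k => decide (0 < y k))]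
  · have hmem : (flip (fun k => decide (0 < y k)) x, ∑ k, y k • x k) ∈ graph d := by
      refine ⟨fun k => |y k|, fun k => abs_nonneg _, ?_⟩
      show (∑ k, y k • x k) = ∑ k, |y k| • (sg (decide (0 < y k)) • x k)
      refine Finset.sum_congr rfl fun k _ => ?_
      rw [smul_smul]
      congr 1
      simp only [sg, decide_eq_true_eq]
      split_ifs with h
      · rw [abs_of_pos h, mul_one]
      · rw [abs_of_nonpos (not_lt.1 h)]; ring
    rw [Set.indicator_of_mem hmem, one_mul]
  · intro ε _ hε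
    have hnot : (flip ε x, ∑ k, y k • x k) ∉ graph d := by
      rintro ⟨l, hl, he⟩
      apply hε
      funext k
      have he' : ∑ k, (y k - l k * sg (ε k)) • x k = 0 := by
        simp only [sub_smul, Finset.sum_sub_distrib, sub_eq_zero]
        have he2 : (∑ k, y k • x k) = ∑ k, l k • (sg (ε k) • x k) := he
        rw [he2]
        simp only [smul_smul]
      have h0 := Fintype.linearIndependent_iff.1 hx _ he' k
      have h1 := hy k
      have h2 := hl k
      cases hek : ε k
      · rw [hek] at h0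
        simp only [sg] at h0
        have : ¬ 0 < y k := by
          intro hpos
          simp at h0
          linarith
        simp [this]
      · rw [hek] at h0
        simp only [sg] at h0
        have : 0 < y k := by
          simp at h0
          rcases h2.lt_or_eq with h | h
          · linarith
          · exact absurd (by linarith) h1
        simp [this]
    rw [Set.indicator_of_notMem hnot, zero_mul]
  · intro h; exact absurd (Finset.mem_univ _) h

/-- The sum over the sign changes. -/
noncomputable def R (i j : Fin d) (p : (Fin d → E d) × E d) : ℝ :=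
  ∑ ε : Fin d → Bool, (graph d).indicator (fun _ => (1:ℝ)) (flip ε p.1, p.2) * (sg (ε i) * sg (ε j))

lemma R_diag {p : (Fin d → E d) × E d} (hp : GP p) (i : Fin d) : R i i p = 1 := by
  obtain ⟨y, hy, hy0⟩ := exists_coord hp
  unfold R
  rw [hy, sum_sign hp.1 hy0 (fun ε => sg (ε i) * sg (ε i)), sg_mul_self]

lemma R_off {p : (Fin d → E d) × E d} (hp : GP p) {i j : Fin d} (hij : i ≠ j) {w : E d}
    (hw : w ≠ 0) (hw2 : ⟪w, p.2⟫ = 0) (hwl : ∀ l, l ≠ i → l ≠ j → ⟪w, p.1 l⟫ = 0) :
    R i j p = - (sgn ⟪w, p.1 i⟫ * sgn ⟪w, p.1 j⟫) := by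
  obtain ⟨y, hy, hy0⟩ := exists_coord hp
  have hi : ⟪w, p.1 i⟫ ≠ 0 := by
    intro h
    apply hw
    refine orth_zero (hp.2 j) fun l => ?_
    by_cases hl : l = j
    · subst hl; rw [Function.update_self]; exact hw2
    · rw [Function.update_of_ne hl]
      by_cases hl' : l = i
      · rw [hl']; exact h
      · exact hwl l hl' hl
  have hj : ⟪w, p.1 j⟫ ≠ 0 := by
    intro h
    apply hw
    refine orth_zero (hp.2 i) fun l => ?_
    by_cases hl : l = i
    · subst hl; rw [Function.update_self]; exact hw2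
    · rw [Function.update_of_ne hl]
      by_cases hl' : l = j
      · rw [hl']; exact h
      · exact hwl l hl hl'
  have hsum : y i * ⟪w, p.1 i⟫ + y j * ⟪w, p.1 j⟫ = 0 := by
    have h1 : ⟪w, p.2⟫ = ∑ k, y k * ⟪w, p.1 k⟫ := by
      rw [hy, inner_sum]
      refine Finset.sum_congr rfl fun k _ => ?_
      rw [real_inner_smul_right]
    rw [hw2, ← Finset.add_sum_erase _ _ (Finset.mem_univ i),
      ← Finset.add_sum_erase _ _ (show j ∈ Finset.univ.erase i from
        Finset.mem_erase.2 ⟨hij.symm, Finset.mem_univ j⟩), Finset.sum_eq_zero] at h1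
    · linarith
    · intro k hk
      rw [Finset.mem_erase, Finset.mem_erase] at hk
      rw [hwl k hk.2.1 hk.1, mul_zero]
  unfold R
  rw [hy, sum_sign hp.1 hy0 (fun ε => sg (ε i) * sg (ε j))]
  simp only [sg, sgn, decide_eq_true_eq]
  have hi0 := hy0 i
  have hj0 := hy0 j
  rcases lt_or_gt_of_ne hi0 with a | a <;> rcases lt_or_gt_of_ne hj0 with b | b <;>
    rcases lt_or_gt_of_ne hi with c | c <;> rcases lt_or_gt_of_ne hj with e | e
  all_goals first
    | (exfalso; nlinarith [mul_pos_of_neg_of_neg a c, mul_pos_of_neg_of_neg b e])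
    | (exfalso; nlinarith [mul_pos_of_neg_of_neg a c, mul_pos b e])
    | (exfalso; nlinarith [mul_pos a c, mul_pos_of_neg_of_neg b e])
    | (exfalso; nlinarith [mul_pos a c, mul_pos b e])
    | (exfalso; nlinarith [mul_neg_of_neg_of_pos a c, mul_neg_of_neg_of_pos b e])
    | (exfalso; nlinarith [mul_neg_of_neg_of_pos a c, mul_neg_of_pos_of_neg b e])
    | (exfalso; nlinarith [mul_neg_of_pos_of_neg a c, mul_neg_of_neg_of_pos b e])
    | (exfalso; nlinarith [mul_neg_of_pos_of_neg a c, mul_neg_of_pos_of_neg b e])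
    | simp [a, b, c, e, not_lt.2 a.le, not_lt.2 b.le, not_lt.2 c.le, not_lt.2 e.le]

end Pool.Agent.R976.Cone
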