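import Pool.Agent.R976.ConeInt

set_option autoImplicit false

open MeasureTheory ProbabilityTheory Filter Topology
open scoped RealInnerProductSpace

namespace Pool.Agent.R976.Cone

variable {d : ℕ} {σ : Measure (E d)}

/-- The partial sums. -/
noncomputable def SS (s : Finset (Fin d)) (p : (Fin d → E d) × E d) : E d := ∑ i ∈ s, p.1 i

lemma SS_cont (s : Finset (Fin d)) : Continuous (SS s : (Fin d → E d) × E d → E d) := by
  unfold SS
  refine continuous_finsetSum _ fun i _ => ?_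
  exact (continuous_apply i).comp continuous_fst

lemma SS_bd {p : (Fin d → E d) × E d} (hp : ∀ k, ‖p.1 k‖ = 1) (s : Finset (Fin d)) :
    ‖SS s p‖ ≤ s.card := by
  unfold SS
  refine (norm_sum_le _ _).trans ?_
  rw [Finset.sum_congr rfl fun i _ => hp i]
  simp

lemma SS_insert {s : Finset (Fin d)} {k : Fin d} (hk : k ∉ s) (p : (Fin d → E d) × E d) (a : E d) :
    SS (insert k s) (V k p a) = a + SS s p := by
  unfold SS V
  rw [Finset.sum_insert hk]
  simp only [Function.update_self]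
  congr 1
  refine Finset.sum_congr rfl fun l hl => ?_
  rw [Function.update_of_ne]
  rintro rfl
  exact hk hl

lemma inner_int (hσ : IsSph σ) (v : E d) : Integrable (fun a : E d => ⟪v, a⟫) σ := by
  have := hσ.prob
  refine bdd_integrable hσ (by fun_prop) ‖v‖ fun a ha => ?_
  have := abs_real_inner_le_norm v a
  rwa [ha, mul_one] at this

lemma inner_sq_int (hσ : IsSph σ) (v : E d) : Integrable (fun a : E d => ⟪v, a⟫ ^ 2) σ := by
  have := hσ.prob
  refine bdd_integrable hσ (by fun_prop) (‖v‖ ^ 2) fun a ha => ?_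
  have := abs_real_inner_le_norm v a
  rw [ha, mul_one] at this
  rw [abs_pow]
  exact pow_le_pow_left₀ (abs_nonneg _) this 2

lemma inner_two (hσ : IsSph σ) (hd : 0 < d) (v : E d) (c : ℝ) :
    ∫ a, (‖a + v‖ ^ 2 - (c + 1)) ^ 2 ∂σ = (‖v‖ ^ 2 - c) ^ 2 + 4 * (‖v‖ ^ 2 / d) := by
  have := hσ.prob
  have h1 : ∫ a, (‖a + v‖ ^ 2 - (c + 1)) ^ 2 ∂σ =
      ∫ a, ((‖v‖ ^ 2 - c) ^ 2 + (4 * (‖v‖ ^ 2 - c)) * ⟪v, a⟫ + 4 * ⟪v, a⟫ ^ 2) ∂σ := by
    refine integral_congr_ae (hσ.norm_eq.mono fun a ha => ?_)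
    simp only
    rw [@norm_add_sq_real, ha, real_inner_comm]
    ring
  have i1 : Integrable (fun a : E d => (‖v‖ ^ 2 - c) ^ 2 + (4 * (‖v‖ ^ 2 - c)) * ⟪v, a⟫) σ :=
    (integrable_const _).add ((inner_int hσ v).const_mul _)
  rw [h1, integral_add i1 ((inner_sq_int hσ v).const_mul 4),
    integral_add (integrable_const _) ((inner_int hσ v).const_mul _), integral_const_mul,
    integral_const_mul, hσ.first, hσ.second' hd]
  simp

lemma inner_one (hσ : IsSph σ) (v : E d) :
    ∫ a, ‖a + v‖ ^ 2 ∂σ = ‖v‖ ^ 2 + 1 := by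
  have := hσ.prob
  have h1 : ∫ a, ‖a + v‖ ^ 2 ∂σ = ∫ a, ((‖v‖ ^ 2 + 1) + 2 * ⟪v, a⟫) ∂σ := by
    refine integral_congr_ae (hσ.norm_eq.mono fun a ha => ?_)
    simp only
    rw [@norm_add_sq_real, ha, real_inner_comm]
    ring
  rw [h1, integral_add (integrable_const _) ((inner_int hσ v).const_mul _), integral_const_mul,
    hσ.first]
  simp

lemma SS_int (hσ : IsSph σ) (s : Finset (Fin d)) :
    Integrable (fun p => ‖SS s p‖ ^ 2) ((Measure.pi fun _ : Fin d => σ).prod σ) := by
  have := hσ.prob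
  refine Integrable.of_bound ((SS_cont s).norm.pow 2).measurable.aestronglyMeasurable
    ((s.card : ℝ) ^ 2) ((norm_ae hσ).mono fun p hp => ?_)
  rw [Real.norm_eq_abs, abs_pow, abs_norm]
  exact pow_le_pow_left₀ (norm_nonneg _) (SS_bd hp.1 s) 2

lemma SS_int2 (hσ : IsSph σ) (s : Finset (Fin d)) (c : ℝ) :
    Integrable (fun p => (‖SS s p‖ ^ 2 - c) ^ 2) ((Measure.pi fun _ : Fin d => σ).prod σ) := by
  have := hσ.prob
  refine Integrable.of_bound (((SS_cont s).norm.pow 2).sub continuous_const |>.pow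
    2).measurable.aestronglyMeasurable (((s.card : ℝ) ^ 2 + |c|) ^ 2)
      ((norm_ae hσ).mono fun p hp => ?_)
  rw [Real.norm_eq_abs, abs_pow]
  refine pow_le_pow_left₀ (abs_nonneg _) ?_ 2
  refine (abs_sub _ _).trans (add_le_add_left ?_ _)
  rw [abs_pow, abs_norm]
  exact pow_le_pow_left₀ (norm_nonneg _) (SS_bd hp.1 s) 2

lemma mean_SS (hσ : IsSph σ) (s : Finset (Fin d)) :
    ∫ p, ‖SS s p‖ ^ 2 ∂((Measure.pi fun _ : Fin d => σ).prod σ) = s.card := by
  classical
  have := hσ.prob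
  induction s using Finset.induction_on with
  | empty => simp [SS]
  | insert k s hk ih =>
    rw [(resample hσ k (SS_int hσ (insert k s))).2]
    simp_rw [SS_insert hk, inner_one hσ]
    rw [integral_add (SS_int hσ s) (integrable_const _), ih, Finset.card_insert_of_notMem hk]
    simp

lemma var_SS (hσ : IsSph σ) (hd : 0 < d) (s : Finset (Fin d)) :
    ∫ p, (‖SS s p‖ ^ 2 - s.card) ^ 2 ∂((Measure.pi fun _ : Fin d => σ).prod σ) =
      2 * s.card * (s.card - 1) / d := by
  classical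
  have := hσ.prob
  have hd' : (0:ℝ) < d := by positivity
  induction s using Finset.induction_on with
  | empty => simp [SS]
  | insert k s hk ih =>
    rw [Finset.card_insert_of_notMem hk]
    push_cast
    rw [(resample hσ k (SS_int2 hσ (insert k s) _)).2]
    simp_rw [SS_insert hk, inner_two hσ hd]
    rw [integral_add (SS_int2 hσ s _) (((SS_int hσ s).div_const _).const_mul 4), ih,
      integral_const_mul, integral_div, mean_SS hσ]
    field_simp
    ring

/-- The size-biased mean. -/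
lemma biased (hσ : IsSph σ) (hd : 0 < d) :
    2 ^ d * ∫ p, ind p * ‖SS Finset.univ p‖ ^ 2 ∂((Measure.pi fun _ : Fin d => σ).prod σ) ≤
      (2 * d + 1) / 3 := by
  classical
  have := hσ.prob
  have hd' : (0:ℝ) < d := by positivity
  have h1 : ∀ p : (Fin d → E d) × E d, ind p * ‖SS Finset.univ p‖ ^ 2 =
      ∑ i, ∑ j, ind p * ⟪p.1 i, p.1 j⟫ := by
    intro p
    rw [← real_inner_self_eq_norm_sq]
    unfold SS
    rw [sum_inner, Finset.mul_sum]
    refine Finset.sum_congr rfl fun i _ => ?_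
    rw [inner_sum, Finset.mul_sum]
  simp_rw [h1]
  rw [integral_finsetSum _ fun i _ => integrable_finsetSum _ fun j _ => T_integrable hσ i j]
  have h2 : ∀ i : Fin d, ∫ p, ∑ j, ind p * ⟪p.1 i, p.1 j⟫ ∂((Measure.pi fun _ : Fin d => σ).prod σ) =
      ∑ j, T σ i j := fun i => integral_finsetSum _ fun j _ => T_integrable hσ i j
  rw [Finset.sum_congr rfl fun i _ => h2 i, Finset.mul_sum]
  have h3 : ∀ i : Fin d, 2 ^ d * ∑ j, T σ i j ≤ 1 + (d - 1) * (-(1 / (3 * d))) := by
    intro i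
    rw [Finset.mul_sum, ← Finset.add_sum_erase _ _ (Finset.mem_univ i), T_diag hσ hd i]
    refine add_le_add_right ?_ _
    have h4 : ∀ j ∈ Finset.univ.erase i, 2 ^ d * T σ i j ≤ -(1 / (3 * (d:ℝ))) := fun j hj =>
      T_off hσ hd (Finset.ne_of_mem_erase hj).symm
    refine (Finset.sum_le_card_nsmul _ _ _ h4).trans ?_
    rw [Finset.card_erase_of_mem (Finset.mem_univ i), Finset.card_univ, Fintype.card_fin,
      nsmul_eq_mul, Nat.cast_sub (by omega)]
    push_cast
    exact le_refl _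
  refine (Finset.sum_le_card_nsmul _ _ _ fun i _ => h3 i).trans ?_
  rw [Finset.card_univ, Fintype.card_fin, nsmul_eq_mul]
  apply le_of_eq
  field_simp
  ring

end Pool.Agent.R976.Cone
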