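import Mathlib

set_option autoImplicit false

open MeasureTheory ProbabilityTheory Set Filter Topology

namespace Pool.Agent.R976.Race

/-- The law of one toss: heads (`true`) with probability `p`, tails (`false`) with probability
`1 - p`. -/
noncomputable def toss (p : ℝ) : Measure Bool :=
  ENNReal.ofReal p • Measure.dirac true + ENNReal.ofReal (1 - p) • Measure.dirac false

/-- The law of an i.i.d. sequence of tosses. -/
noncomputable def coin (p : ℝ) : Measure (ℕ → Bool) := Measure.infinitePi fun _ : ℕ => toss p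

/-- The pattern `T` occurs in the sequence `x` at time `n`, i.e. the last `|T|` of the first `n` tosses
`x 0, …, x (n - 1)` are `T`. -/
def Occ (T : List Bool) (x : ℕ → Bool) (n : ℕ) : Prop :=
  T.length ≤ n ∧ ∀ i : Fin T.length, x (n - T.length + i) = T.get i

/-- The waiting time: the first time at which `T` occurs (`⊤` if it never occurs). -/
noncomputable def tau (T : List Bool) (x : ℕ → Bool) : ℕ∞ := ⨅ (n : ℕ) (_ : Occ T x n), (n : ℕ∞)

/-- The probability that `T₁` beats `T₂` if each pattern is watched on its own sequence and ties are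
decided by a fair coin. -/
noncomputable def W (T₁ T₂ : List Bool) (p : ℝ) : ℝ :=
  ((coin p).prod (coin p)).real {ω | tau T₁ ω.1 < tau T₂ ω.2} +
    1 / 2 * ((coin p).prod (coin p)).real {ω | tau T₁ ω.1 = tau T₂ ω.2}

lemma toss_prob {p : ℝ} (hp : p ∈ Ioo (0:ℝ) 1) : IsProbabilityMeasure (toss p) := by
  refine ⟨?_⟩
  simp only [toss, Measure.coe_add, Measure.coe_smul, Pi.add_apply, Pi.smul_apply, measure_univ,
    smul_eq_mul, mul_one]
  rw [← ENNReal.ofReal_add hp.1.le (by linarith [hp.2])]
  simp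

lemma coin_prob {p : ℝ} (hp : p ∈ Ioo (0:ℝ) 1) : IsProbabilityMeasure (coin p) := by
  have := toss_prob hp
  unfold coin
  infer_instance

/-- The weight of a letter. -/
def wt (p : ℝ) (b : Bool) : ℝ := if b then p else 1 - p

lemma toss_singleton {p : ℝ} (b : Bool) : toss p {b} = ENNReal.ofReal (wt p b) := by
  cases b <;> simp [toss, wt]

/-- `n < τ` iff the pattern does not occur up to time `n`. -/
lemma lt_tau_iff (T : List Bool) (x : ℕ → Bool) (n : ℕ) :
    (n : ℕ∞) < tau T x ↔ ∀ m ≤ n, ¬ Occ T x m := by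
  unfold tau
  constructor
  · intro h m hm ho
    have : (⨅ (n : ℕ) (_ : Occ T x n), (n : ℕ∞)) ≤ m := iInf₂_le m ho
    have h2 := lt_of_lt_of_le h this
    rw [Nat.cast_lt] at h2
    omega
  · intro h
    rw [← not_le]
    intro hle
    have h2 : ((n + 1 : ℕ) : ℕ∞) ≤ ⨅ (n : ℕ) (_ : Occ T x n), (n : ℕ∞) := by
      refine le_iInf₂ fun m ho => ?_
      rw [Nat.cast_le]
      by_contra hlt
      exact h m (by omega) ho
    have h3 := h2.trans hle
    rw [Nat.cast_le] at h3
    omega

/-- A set of sequences that depends on the coordinates in `S` only. -/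
def Dep (S : Finset ℕ) (A : Set (ℕ → Bool)) : Prop :=
  ∀ x y : ℕ → Bool, (∀ i ∈ S, x i = y i) → (x ∈ A → y ∈ A)

lemma Dep.eq_preimage {S : Finset ℕ} {A : Set (ℕ → Bool)} (h : Dep S A) :
    A = (fun (x : ℕ → Bool) (i : S) => x i) ⁻¹' ((fun (x : ℕ → Bool) (i : S) => x i) '' A) := by
  ext y
  constructor
  · exact fun hy => ⟨y, hy, rfl⟩
  · rintro ⟨x, hx, hxy⟩
    exact h x y (fun i hi => congrFun hxy ⟨i, hi⟩) hx

lemma Dep.measurable {S : Finset ℕ} {A : Set (ℕ → Bool)} (h : Dep S A) : MeasurableSet A := by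
  rw [h.eq_preimage]
  exact (measurable_pi_lambda _ fun i => measurable_pi_apply _) (Set.toFinite _).measurableSet

lemma Dep.indep {p : ℝ} (hp : p ∈ Ioo (0:ℝ) 1) {S S' : Finset ℕ} {A B : Set (ℕ → Bool)}
    (hA : Dep S A) (hB : Dep S' B) (hd : Disjoint S S') :
    (coin p).real (A ∩ B) = (coin p).real A * (coin p).real B := by
  have := toss_prob hp
  have hi : iIndepFun (fun (i : ℕ) (x : ℕ → Bool) => x i) (coin p) :=
    iIndepFun_infinitePi (P := fun _ : ℕ => toss p) (X := fun _ => id) fun _ => measurable_id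
  have h2 := hi.indepFun_finset S S' hd (fun i => measurable_pi_apply i)
  have h3 := h2.measure_inter_preimage_eq_mul _ _
    (Set.toFinite ((fun (x : ℕ → Bool) (i : S) => x i) '' A)).measurableSet
    (Set.toFinite ((fun (x : ℕ → Bool) (i : S') => x i) '' B)).measurableSet
  rw [← hA.eq_preimage, ← hB.eq_preimage] at h3
  rw [measureReal_def, h3, ENNReal.toReal_mul, measureReal_def, measureReal_def]

/-- The survival function. -/
noncomputable def surv (T : List Bool) (p : ℝ) (n : ℕ) : ℝ := (coin p).real {x | (n : ℕ∞) < tau T x}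

lemma dep_occ (T : List Bool) (n : ℕ) : Dep (Finset.Ico (n - T.length) n) {x | Occ T x n} := by
  intro x y h hx
  refine ⟨hx.1, fun i => ?_⟩
  rw [← hx.2 i]
  have := i.2
  have := hx.1
  exact (h _ (Finset.mem_Ico.2 ⟨by omega, by omega⟩)).symm

lemma dep_lt (T : List Bool) (n : ℕ) : Dep (Finset.range n) {x | (n : ℕ∞) < tau T x} := by
  intro x y h hx
  simp only [mem_ofPred_eq] at hx ⊢
  rw [lt_tau_iff] at hx ⊢
  intro m hm ho
  refine hx m hm (dep_occ T m y x (fun i hi => ?_) ho)
  rw [Finset.mem_Ico] at hi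
  exact (h i (Finset.mem_range.2 (by omega))).symm

/-- The probability of a word. -/
noncomputable def wp (p : ℝ) (T : List Bool) : ℝ := ∏ i : Fin T.length, wt p (T.get i)

lemma measure_occ {p : ℝ} (hp : p ∈ Ioo (0:ℝ) 1) (T : List Bool) (n : ℕ) :
    (coin p).real {x | Occ T x (n + T.length)} = wp p T := by
  have := toss_prob hp
  have hset : {x : ℕ → Bool | Occ T x (n + T.length)} =
      Set.pi (Finset.image (fun i : Fin T.length => n + (i : ℕ)) Finset.univ : Finset ℕ)
        (fun j => {b | ∀ i : Fin T.length, n + (i : ℕ) = j → b = T.get i}) := by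
    ext x
    simp only [Occ, mem_ofPred_eq, Set.mem_pi, Finset.coe_image, Finset.coe_univ, image_univ,
      mem_range, forall_exists_index, forall_apply_eq_imp_iff]
    constructor
    · rintro ⟨_, h⟩ i j hij
      have := h i
      rw [Nat.add_sub_cancel] at this
      have hji : j = i := Fin.ext (by omega)
      rw [hji, this]
    · intro h
      refine ⟨by omega, fun i => ?_⟩
      rw [Nat.add_sub_cancel]
      exact h i i rfl
  rw [hset, measureReal_def, coin, Measure.infinitePi_pi _ (fun _ _ => (Set.toFinite _).measurableSet),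
    Finset.prod_image (fun i _ j _ hij => Fin.ext (by simpa using hij)), ENNReal.toReal_prod, wp]
  refine Finset.prod_congr rfl fun i _ => ?_
  have : {b | ∀ j : Fin T.length, n + (j : ℕ) = n + (i : ℕ) → b = T.get j} = {T.get i} := by
    ext b
    simp only [mem_ofPred_eq, mem_singleton_iff]
    constructor
    · intro h; exact h i rfl
    · intro h j hj
      have : j = i := Fin.ext (by omega)
      rw [this, h]
  rw [this, toss_singleton, ENNReal.toReal_ofReal]
  unfold wt
  split_ifs
  · exact hp.1.le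
  · linarith [hp.2]

/-- The word has no border: it does not overlap itself. -/
def NoBorder (T : List Bool) : Prop :=
  ∀ s : ℕ, 0 < s → s < T.length → ∃ (i : Fin T.length) (h : i + s < T.length), T.get i ≠ T.get ⟨i + s, h⟩

lemma surv_lt {p : ℝ} (hp : p ∈ Ioo (0:ℝ) 1) (T : List Bool) (n : ℕ) (hn : n < T.length) :
    surv T p n = 1 := by
  have := coin_prob hp
  have : {x : ℕ → Bool | (n : ℕ∞) < tau T x} = Set.univ := by
    rw [Set.eq_univ_iff_forall]
    intro x
    simp only [mem_ofPred_eq]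
    rw [lt_tau_iff]
    intro m hm ho
    have := ho.1
    omega
  rw [surv, this, probReal_univ]

lemma surv_rec {p : ℝ} (hp : p ∈ Ioo (0:ℝ) 1) (T : List Bool) (hT : NoBorder T) (hT0 : 0 < T.length)
    (n : ℕ) : surv T p (n + T.length) = surv T p (n + T.length - 1) - wp p T * surv T p n := by
  have := coin_prob hp
  have hset : {x : ℕ → Bool | ((n + T.length - 1 : ℕ) : ℕ∞) < tau T x} =
      {x | ((n + T.length : ℕ) : ℕ∞) < tau T x} ∪
        ({x | (n : ℕ∞) < tau T x} ∩ {x | Occ T x (n + T.length)}) := by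
    ext x
    simp only [mem_union, mem_inter_iff, mem_ofPred_eq]
    rw [lt_tau_iff, lt_tau_iff, lt_tau_iff]
    constructor
    · intro h
      by_cases ho : Occ T x (n + T.length)
      · exact Or.inr ⟨fun m hm => h m (by omega), ho⟩
      · refine Or.inl fun m hm => ?_
        rcases Nat.lt_or_ge m (n + T.length) with h2 | h2
        · exact h m (by omega)
        · have : m = n + T.length := by omega
          rwa [this]
    · rintro (h | ⟨h, ho⟩) m hm
      · exact h m (by omega)
      · intro hm2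
        rcases Nat.lt_or_ge n m with h2 | h2
        · -- overlap
          obtain ⟨i, hi, hne⟩ := hT (n + T.length - m) (by omega) (by omega)
          apply hne
          have e1 := ho.2 i
          have e2 := hm2.2 ⟨i + (n + T.length - m), hi⟩
          rw [← e1, ← e2]
          congr 1
          have := hm2.1
          simp only
          omega
        · exact h m h2 hm2
  have hdisj : Disjoint {x : ℕ → Bool | ((n + T.length : ℕ) : ℕ∞) < tau T x}
      ({x | (n : ℕ∞) < tau T x} ∩ {x | Occ T x (n + T.length)}) := by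
    rw [Set.disjoint_left]
    rintro x hx ⟨_, ho⟩
    simp only [mem_ofPred_eq] at hx
    rw [lt_tau_iff] at hx
    exact hx _ le_rfl ho
  have hind := Dep.indep hp (dep_lt T n) (dep_occ T (n + T.length)) (by
    rw [Nat.add_sub_cancel, Finset.disjoint_left]
    intro i hi hi2
    rw [Finset.mem_range] at hi
    rw [Finset.mem_Ico] at hi2
    omega)
  have h1 : surv T p (n + T.length - 1) = surv T p (n + T.length) + surv T p n * wp p T := by
    unfold surv
    rw [hset, measureReal_union hdisj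
      ((dep_lt T n).measurable.inter (dep_occ T (n + T.length)).measurable), hind, measure_occ hp]
  linarith

lemma surv_anti {p : ℝ} (hp : p ∈ Ioo (0:ℝ) 1) (T : List Bool) : Antitone (surv T p) := by
  have := coin_prob hp
  refine antitone_nat_of_succ_le fun n => measureReal_mono fun x hx => ?_
  simp only [mem_ofPred_eq] at hx ⊢
  exact lt_of_le_of_lt (by exact_mod_cast Nat.le_succ n) hx

lemma surv_nonneg (T : List Bool) (p : ℝ) (n : ℕ) : 0 ≤ surv T p n := measureReal_nonneg

lemma wp_pos {p : ℝ} (hp : p ∈ Ioo (0:ℝ) 1) (T : List Bool) : 0 < wp p T := by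
  refine Finset.prod_pos fun i _ => ?_
  unfold wt
  split_ifs
  · exact hp.1
  · linarith [hp.2]

lemma surv_tendsto {p : ℝ} (hp : p ∈ Ioo (0:ℝ) 1) (T : List Bool) (hT : NoBorder T)
    (hT0 : 0 < T.length) : Tendsto (surv T p) atTop (𝓝 0) := by
  have h1 := tendsto_atTop_ciInf (surv_anti hp T) ⟨0, by rintro _ ⟨n, rfl⟩; exact surv_nonneg T p n⟩
  set l := ⨅ n, surv T p n with hl
  have h2 : Tendsto (fun n => surv T p (n + T.length)) atTop (𝓝 l) :=
    h1.comp (tendsto_add_atTop_nat _)
  have h3 : Tendsto (fun n => surv T p (n + T.length - 1)) atTop (𝓝 l) := by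
    have : (fun n => surv T p (n + T.length - 1)) = fun n => surv T p (n + (T.length - 1)) := by
      funext n; congr 1; omega
    rw [this]
    exact h1.comp (tendsto_add_atTop_nat _)
  have h4 := h3.sub (h1.const_mul (wp p T))
  have h5 := tendsto_nhds_unique h2 (h4.congr fun n => (surv_rec hp T hT hT0 n).symm)
  have h6 : wp p T * l = 0 := by linarith
  have h7 : l = 0 := by
    rcases mul_eq_zero.1 h6 with h | h
    · exact absurd h (wp_pos hp T).ne'
    · exact h
  rw [h7] at h1
  exact h1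

lemma measurable_lt (T : List Bool) (n : ℕ) : MeasurableSet {x : ℕ → Bool | (n : ℕ∞) < tau T x} :=
  (dep_lt T n).measurable

/-- `τ = n + 1` -/
lemma eq_set (T : List Bool) (n : ℕ) : {x : ℕ → Bool | tau T x = ((n + 1 : ℕ) : ℕ∞)} =
    {x | (n : ℕ∞) < tau T x} \ {x | ((n + 1 : ℕ) : ℕ∞) < tau T x} := by
  ext x
  simp only [mem_ofPred_eq, Set.mem_sdiff, not_lt]
  constructor
  · intro h
    rw [h]
    exact ⟨by exact_mod_cast Nat.lt_succ_self n, le_rfl⟩
  · rintro ⟨h1, h2⟩
    refine le_antisymm h2 ?_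
    have := Order.add_one_le_of_lt h1
    exact_mod_cast this

lemma measurable_eq (T : List Bool) (n : ℕ) :
    MeasurableSet {x : ℕ → Bool | tau T x = ((n + 1 : ℕ) : ℕ∞)} := by
  rw [eq_set]; exact (measurable_lt T n).diff (measurable_lt T (n + 1))

lemma real_eq {p : ℝ} (hp : p ∈ Ioo (0:ℝ) 1) (T : List Bool) (n : ℕ) :
    (coin p).real {x : ℕ → Bool | tau T x = ((n + 1 : ℕ) : ℕ∞)} = surv T p n - surv T p (n + 1) := by
  have := coin_prob hp
  rw [eq_set, measureReal_sdiff (fun x hx => ?_) (measurable_lt T (n + 1))]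
  · rfl
  · simp only [mem_ofPred_eq] at hx ⊢
    exact lt_of_le_of_lt (by exact_mod_cast Nat.le_succ n) hx

lemma tau_ne_zero (T : List Bool) (hT0 : 0 < T.length) (x : ℕ → Bool) : tau T x ≠ 0 := by
  have : ((0 : ℕ) : ℕ∞) < tau T x := by
    rw [lt_tau_iff]
    intro m hm ho
    have := ho.1
    omega
  exact (ne_of_gt (by exact_mod_cast this))

lemma real_top {p : ℝ} (hp : p ∈ Ioo (0:ℝ) 1) (T : List Bool) (hT : NoBorder T)
    (hT0 : 0 < T.length) : (coin p) {x : ℕ → Bool | tau T x = ⊤} = 0 := by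
  have := coin_prob hp
  rw [← measureReal_eq_zero_iff]
  refine le_antisymm ?_ measureReal_nonneg
  refine ge_of_tendsto' (surv_tendsto hp T hT hT0) fun n => measureReal_mono fun x hx => ?_
  simp only [mem_ofPred_eq] at hx ⊢
  rw [hx]; exact ENat.natCast_lt_top n

lemma hasSum_real {α : Type} [MeasurableSpace α] (μ : Measure α) [IsFiniteMeasure μ] {f : ℕ → Set α}
    (hd : Pairwise (Function.onFun Disjoint f)) (hm : ∀ n, MeasurableSet (f n)) :
    HasSum (fun n => μ.real (f n)) (μ.real (⋃ n, f n)) := by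
  have h := measure_iUnion (μ := μ) hd hm
  rw [measureReal_def, h, ENNReal.tsum_toReal_eq fun n => measure_ne_top _ _]
  exact (ENNReal.summable_toReal (by rw [← h]; exact measure_ne_top _ _)).hasSum

/-- The formula for `W` as a series of the survival functions. -/
theorem hasSum_W {p : ℝ} (hp : p ∈ Ioo (0:ℝ) 1) (T₁ T₂ : List Bool) (h1 : NoBorder T₁)
    (h10 : 0 < T₁.length) :
    HasSum (fun n => (surv T₁ p n - surv T₁ p (n + 1)) * (surv T₂ p n + surv T₂ p (n + 1)) / 2)
      (W T₁ T₂ p) := by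
  have := coin_prob hp
  -- the strict part
  have hA : {ω : (ℕ → Bool) × (ℕ → Bool) | tau T₁ ω.1 < tau T₂ ω.2} =
      ⋃ n : ℕ, {x | tau T₁ x = ((n + 1 : ℕ) : ℕ∞)} ×ˢ {y | ((n + 1 : ℕ) : ℕ∞) < tau T₂ y} := by
    ext ⟨x, y⟩
    simp only [mem_ofPred_eq, mem_iUnion, mem_prod]
    constructor
    · intro h
      obtain ⟨m, hm⟩ := ENat.ne_top_iff_exists.1 (ne_top_of_lt h)
      have : m ≠ 0 := by
        rintro rfl
        exact tau_ne_zero T₁ h10 x (by rw [← hm]; rfl)
      obtain ⟨n, rfl⟩ := Nat.exists_eq_succ_of_ne_zero this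
      exact ⟨n, hm.symm, by rw [← hm] at h; exact h⟩
    · rintro ⟨n, hx, hy⟩
      rw [hx]; exact hy
  have hB : {ω : (ℕ → Bool) × (ℕ → Bool) | tau T₁ ω.1 = tau T₂ ω.2} =
      (⋃ n : ℕ, {x | tau T₁ x = ((n + 1 : ℕ) : ℕ∞)} ×ˢ {y | tau T₂ y = ((n + 1 : ℕ) : ℕ∞)}) ∪
        {x | tau T₁ x = ⊤} ×ˢ {y | tau T₂ y = ⊤} := by
    ext ⟨x, y⟩
    simp only [mem_ofPred_eq, mem_union, mem_iUnion, mem_prod]
    constructor
    · intro h
      by_cases ht : tau T₁ x = ⊤
      · exact Or.inr ⟨ht, by rw [← h]; exact ht⟩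
      · obtain ⟨m, hm⟩ := ENat.ne_top_iff_exists.1 ht
        have : m ≠ 0 := by
          rintro rfl
          exact tau_ne_zero T₁ h10 x (by rw [← hm]; rfl)
        obtain ⟨n, rfl⟩ := Nat.exists_eq_succ_of_ne_zero this
        exact Or.inl ⟨n, hm.symm, by rw [← h]; exact hm.symm⟩
    · rintro (⟨n, hx, hy⟩ | ⟨hx, hy⟩)
      · rw [hx, hy]
      · rw [hx, hy]
  have hdisj : ∀ f : ℕ → Set (ℕ → Bool), Pairwise (Function.onFun Disjoint
      fun n : ℕ => {x : ℕ → Bool | tau T₁ x = ((n + 1 : ℕ) : ℕ∞)} ×ˢ f n) := by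
    intro f m n hmn
    rw [Function.onFun, Set.disjoint_left]
    rintro ⟨x, y⟩ hx hy
    have e1 : tau T₁ x = ((m + 1 : ℕ) : ℕ∞) := hx.1
    have e2 : tau T₁ x = ((n + 1 : ℕ) : ℕ∞) := hy.1
    rw [e1, Nat.cast_inj] at e2
    omega
  have hsA : HasSum (fun n : ℕ => (surv T₁ p n - surv T₁ p (n + 1)) * surv T₂ p (n + 1))
      (((coin p).prod (coin p)).real {ω | tau T₁ ω.1 < tau T₂ ω.2}) := by
    rw [hA]
    have h := hasSum_real ((coin p).prod (coin p))
      (hdisj fun n => {y | ((n + 1 : ℕ) : ℕ∞) < tau T₂ y})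
      (fun n => (measurable_eq T₁ n).prod (measurable_lt T₂ (n + 1)))
    convert h using 1
    funext n
    rw [measureReal_prod_prod, real_eq hp]
    rfl
  have hsB : HasSum (fun n : ℕ => (surv T₁ p n - surv T₁ p (n + 1)) *
      (surv T₂ p n - surv T₂ p (n + 1)))
      (((coin p).prod (coin p)).real {ω | tau T₁ ω.1 = tau T₂ ω.2}) := by
    have hz : ((coin p).prod (coin p)) ({x | tau T₁ x = ⊤} ×ˢ {y | tau T₂ y = ⊤}) = 0 := by
      rw [Measure.prod_prod, real_top hp T₁ h1 h10, zero_mul]
    have hunion : ((coin p).prod (coin p)).real {ω | tau T₁ ω.1 = tau T₂ ω.2} =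
        ((coin p).prod (coin p)).real (⋃ n : ℕ, {x | tau T₁ x = ((n + 1 : ℕ) : ℕ∞)} ×ˢ
          {y | tau T₂ y = ((n + 1 : ℕ) : ℕ∞)}) := by
      rw [hB, measureReal_def, measureReal_def]
      congr 1
      exact le_antisymm ((measure_union_le _ _).trans (by rw [hz, add_zero]))
        (measure_mono subset_union_left)
    rw [hunion]
    have h := hasSum_real ((coin p).prod (coin p))
      (hdisj fun n => {y | tau T₂ y = ((n + 1 : ℕ) : ℕ∞)})
      (fun n => (measurable_eq T₁ n).prod (measurable_eq T₂ n))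
    convert h using 1
    funext n
    rw [measureReal_prod_prod, real_eq hp, real_eq hp]
  have h := hsA.add (hsB.mul_left (1 / 2))
  unfold W
  convert h using 1
  funext n
  ring

end Pool.Agent.R976.Race
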