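import Mathlib

set_option autoImplicit false

open MeasureTheory Set Filter Topology

namespace Pool.Agent.R976.TR

/-- The laws of the problem: probability measures on `[0, ∞)` which are absolutely continuous with
respect to Lebesgue measure and not compactly supported. -/
structure Admissible (μ : Measure ℝ) : Prop where
  prob : IsProbabilityMeasure μ
  nonneg : μ (Iio 0) = 0
  ac : μ ≪ volume
  tail : ∀ t : ℝ, 0 < μ (Ioi t)

/-- The ratio `R(z) = ℙ(X + Y ≥ 2 z, min (X, Y) ≤ z) / ℙ(X + Y ≥ 2 z, min (X, Y) ≥ z)` for independent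
`X`, `Y` with law `μ`. -/
noncomputable def R (μ : Measure ℝ) (z : ℝ) : ℝ :=
  (μ.prod μ).real {p : ℝ × ℝ | 2 * z ≤ p.1 + p.2 ∧ min p.1 p.2 ≤ z} /
    (μ.prod μ).real {p : ℝ × ℝ | 2 * z ≤ p.1 + p.2 ∧ z ≤ min p.1 p.2}

/-- The median: the smallest `m ≥ 0` with `ℙ(X ≤ m) = 1 / 2`. -/
noncomputable def med (μ : Measure ℝ) : ℝ := sInf {m : ℝ | 0 ≤ m ∧ μ.real (Iic m) = 1 / 2}

/-- The tail `ℙ(X ≥ t)`. -/
noncomputable def G (μ : Measure ℝ) (t : ℝ) : ℝ := μ.real (Ici t)

section general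

variable {μ : Measure ℝ} (h : Admissible μ)

include h

lemma noAtoms : NullSingletonClass μ := ⟨fun x => h.ac (by simp)⟩

lemma G_eq (t : ℝ) (ht : 0 ≤ t) : G μ t = 1 - ∫ _ in (0:ℝ)..t, (1:ℝ) ∂μ := by
  have := h.prob
  have := noAtoms h
  rw [intervalIntegral.integral_of_le ht]
  simp only [integral_const, smul_eq_mul, mul_one, measureReal_restrict_apply_univ]
  have h1 : μ.real (Ioc 0 t) = μ.real (Ico 0 t) := by
    rw [measureReal_def, measureReal_def, measure_congr Ico_ae_eq_Ioc]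
  have h2 : μ.real (Iio t) = μ.real (Ico 0 t) := by
    rw [measureReal_def, measureReal_def, ← Iio_union_Ico_eq_Iio ht]
    rw [measure_union (by
      rw [Set.disjoint_left]; intro x hx hx'; exact absurd hx (not_lt.2 hx'.1)) measurableSet_Ico,
      h.nonneg, zero_add]
  rw [h1, ← h2, G, ← compl_Iio, probReal_compl_eq_one_sub measurableSet_Iio]

lemma G_cont : ContinuousOn (G μ) (Ici 0) := by
  have := h.prob
  have := noAtoms h
  have hc : Continuous fun t : ℝ => ∫ _ in (0:ℝ)..t, (1:ℝ) ∂μ :=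
    intervalIntegral.continuous_primitive (fun a b => by simp) 0
  exact ((continuous_const.sub hc).continuousOn).congr fun t ht => G_eq h t ht

lemma G_zero : G μ 0 = 1 := by
  rw [G_eq h 0 le_rfl]; simp

lemma G_anti : Antitone (G μ) := by
  have := h.prob
  intro a b hab
  exact measureReal_mono (Ici_subset_Ici.2 hab)

lemma G_pos (t : ℝ) : 0 < G μ t := by
  have := h.prob
  refine ENNReal.toReal_pos (lt_of_lt_of_le (h.tail t) (measure_mono Ioi_subset_Ici_self)).ne'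
    (measure_ne_top _ _)

lemma G_tendsto : Tendsto (G μ) atTop (𝓝 0) := by
  have := h.prob
  have h1 : Tendsto (fun t : ℝ => μ.real (Iic t)) atTop (𝓝 1) := by
    have := tendsto_measure_Iic_atTop μ
    rw [measure_univ] at this
    exact (ENNReal.tendsto_toReal ENNReal.one_ne_top).comp this
  have h2 : ∀ t, G μ t = 1 - μ.real (Iic t) := by
    have := noAtoms h
    intro t
    rw [G, ← probReal_compl_eq_one_sub measurableSet_Iic, compl_Iic, measureReal_def, measureReal_def,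
      measure_congr Ioi_ae_eq_Ici]
  have h3 := (tendsto_const_nhds (x := (1:ℝ)) (f := atTop)).sub h1
  rw [sub_self] at h3
  exact h3.congr fun t => (h2 t).symm

lemma Iic_real (t : ℝ) : μ.real (Iic t) = 1 - G μ t := by
  have := h.prob
  have := noAtoms h
  have : G μ t = 1 - μ.real (Iic t) := by
    rw [G, ← probReal_compl_eq_one_sub measurableSet_Iic, compl_Iic, measureReal_def, measureReal_def,
      measure_congr Ioi_ae_eq_Ici]
  linarith

lemma denom (z : ℝ) : (μ.prod μ).real {p : ℝ × ℝ | 2 * z ≤ p.1 + p.2 ∧ z ≤ min p.1 p.2} = G μ z ^ 2 := by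
  have := h.prob
  have : {p : ℝ × ℝ | 2 * z ≤ p.1 + p.2 ∧ z ≤ min p.1 p.2} = Ici z ×ˢ Ici z := by
    ext ⟨x, y⟩
    simp only [mem_ofPred_eq, le_min_iff, mem_prod, mem_Ici]
    constructor
    · rintro ⟨_, h⟩; exact h
    · rintro ⟨h1, h2⟩; exact ⟨by linarith, h1, h2⟩
  rw [this, measureReal_prod_prod, sq, G]

/-- The lower bound for the numerator. -/
lemma numer_ge (z δ : ℝ) (hδ : 0 < δ) :
    2 * ((G μ (z - δ) - G μ z) * G μ (z + δ)) ≤
      (μ.prod μ).real {p : ℝ × ℝ | 2 * z ≤ p.1 + p.2 ∧ min p.1 p.2 ≤ z} := by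
  have := h.prob
  have hI : μ.real (Ico (z - δ) z) = G μ (z - δ) - G μ z := by
    have h1 : G μ (z - δ) = μ.real (Ico (z - δ) z) + G μ z := by
      rw [G, G, ← measureReal_union _ measurableSet_Ici, Ico_union_Ici_eq_Ici (by linarith)]
      rw [Set.disjoint_left]; intro x hx hx'; exact absurd hx.2 (not_lt.2 hx')
    linarith
  have hsub : Ico (z - δ) z ×ˢ Ici (z + δ) ∪ Ici (z + δ) ×ˢ Ico (z - δ) z ⊆
      {p : ℝ × ℝ | 2 * z ≤ p.1 + p.2 ∧ min p.1 p.2 ≤ z} := by
    rintro ⟨x, y⟩ (⟨h1, h2⟩ | ⟨h1, h2⟩)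
    · simp only [mem_Ico, mem_Ici] at h1 h2
      exact ⟨by simp only; linarith, (min_le_left _ _).trans h1.2.le⟩
    · simp only [mem_Ico, mem_Ici] at h1 h2
      exact ⟨by simp only; linarith, (min_le_right _ _).trans h2.2.le⟩
  refine le_trans (le_of_eq ?_) (measureReal_mono hsub)
  rw [measureReal_union _ (measurableSet_Ici.prod measurableSet_Ico), measureReal_prod_prod,
    measureReal_prod_prod, hI, G, G, G]
  · ring
  · rw [Set.disjoint_left]
    rintro ⟨x, y⟩ h1 h2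
    have h3 := h1.1.2
    have h4 := h2.1
    simp only [mem_Ici] at h4
    simp only at h3
    linarith

lemma key (z δ ε : ℝ) (hδ : 0 < δ) (hR : R μ z ≤ 2 * ε) :
    (G μ (z - δ) - G μ z) * G μ (z + δ) ≤ ε * G μ z ^ 2 := by
  have h1 := numer_ge h z δ hδ
  have h2 := G_pos h z
  unfold R at hR
  rw [denom h, div_le_iff₀ (by positivity)] at hR
  linarith

/-- the first time at which the tail is `2 ^ (-k)` -/
noncomputable def T (μ : Measure ℝ) (k : ℕ) : ℝ := sInf {t : ℝ | 0 ≤ t ∧ G μ t ≤ (1 / 2) ^ k}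

lemma T_set_nonempty (k : ℕ) : {t : ℝ | 0 ≤ t ∧ G μ t ≤ (1 / 2) ^ k}.Nonempty := by
  have h1 := (G_tendsto h).eventually (gt_mem_nhds (show (0:ℝ) < (1 / 2) ^ k by positivity))
  obtain ⟨t, ht⟩ := (h1.and (eventually_ge_atTop 0)).exists
  exact ⟨t, ht.2, ht.1.le⟩

omit h in
lemma T_bdd (k : ℕ) : BddBelow {t : ℝ | 0 ≤ t ∧ G μ t ≤ (1 / 2) ^ k} := ⟨0, fun _ ht => ht.1⟩

lemma T_nonneg (k : ℕ) : 0 ≤ T μ k := le_csInf (T_set_nonempty h k) fun _ ht => ht.1

lemma T_closed (k : ℕ) : IsClosed {t : ℝ | 0 ≤ t ∧ G μ t ≤ (1 / 2) ^ k} := by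
  have := (G_cont h).preimage_isClosed_of_isClosed isClosed_Ici (isClosed_Iic (a := (1 / 2 : ℝ) ^ k))
  exact this

lemma G_T_le (k : ℕ) : G μ (T μ k) ≤ (1 / 2) ^ k :=
  ((T_closed h k).csInf_mem (T_set_nonempty h k) (T_bdd k)).2

lemma G_T (k : ℕ) : G μ (T μ k) = (1 / 2) ^ k := by
  refine le_antisymm (G_T_le h k) ?_
  by_contra hlt
  push Not at hlt
  have h0 : G μ 0 = 1 := G_zero h
  have hT := T_nonneg h k
  have : (1 / 2 : ℝ) ^ k ∈ Icc (G μ (T μ k)) (G μ 0) := by
    rw [h0]; exact ⟨hlt.le, pow_le_one₀ (by norm_num) (by norm_num)⟩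
  obtain ⟨s, hs, hs2⟩ := intermediate_value_Icc' hT ((G_cont h).mono Icc_subset_Ici_self) this
  have h3 : T μ k ≤ s := csInf_le (T_bdd k) ⟨hs.1, hs2.le⟩
  have h4 : s = T μ k := le_antisymm hs.2 h3
  rw [h4] at hs2
  linarith

omit h in
lemma T_le_of (k : ℕ) (t : ℝ) (ht : 0 ≤ t) (hG : G μ t ≤ (1 / 2) ^ k) : T μ k ≤ t :=
  csInf_le (T_bdd k) ⟨ht, hG⟩

lemma T_strictMono : StrictMono (T μ) := by
  refine strictMono_nat_of_lt_succ fun k => ?_
  by_contra hle
  push Not at hle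
  have := G_anti h hle
  rw [G_T h, G_T h, pow_succ] at this
  have : (0:ℝ) < (1 / 2) ^ k := by positivity
  linarith

lemma T_zero : T μ 0 = 0 := by
  refine le_antisymm (T_le_of 0 0 le_rfl ?_) (T_nonneg h 0)
  rw [G_zero h]; simp

lemma T_unbounded (B : ℝ) : ∃ k, B < T μ k := by
  have hB := G_pos h B
  obtain ⟨k, hk⟩ := exists_pow_lt_of_lt_one hB (show (1 / 2 : ℝ) < 1 by norm_num)
  refine ⟨k, ?_⟩
  by_contra hle
  push Not at hle
  have := G_anti h hle
  rw [G_T h] at this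
  linarith

lemma med_eq : med μ = T μ 1 := by
  have hset : T μ 1 ∈ {m : ℝ | 0 ≤ m ∧ μ.real (Iic m) = 1 / 2} := by
    refine ⟨T_nonneg h 1, ?_⟩
    rw [Iic_real h, G_T h]; norm_num
  refine le_antisymm (csInf_le ⟨0, fun _ ht => ht.1⟩ hset) ?_
  refine le_csInf ⟨_, hset⟩ fun m hm => T_le_of 1 m hm.1 ?_
  have := hm.2
  rw [Iic_real h] at this
  norm_num at this ⊢
  linarith

lemma med_pos : 0 < med μ := by
  rw [med_eq h, ← T_zero h]
  exact T_strictMono h (by norm_num)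

/-- One step: if `R ≤ 1 / 2` at `T k` (`k ≥ 1`) then `T (k + 2) ≤ T k + (T k - T (k - 1))`. -/
lemma step (k : ℕ) (hR : R μ (T μ (k + 1)) ≤ 1 / 2) :
    T μ (k + 3) ≤ T μ (k + 1) + (T μ (k + 1) - T μ k) := by
  have hlt : T μ k < T μ (k + 1) := T_strictMono h (by omega)
  have h1 := key h (T μ (k + 1)) (T μ (k + 1) - T μ k) (1 / 4) (by linarith) (by linarith)
  rw [sub_sub_cancel, G_T h, G_T h] at h1
  have h2 := T_nonneg h (k + 1)
  refine T_le_of _ _ (by linarith) ?_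
  have h3 : (0:ℝ) < (1 / 2) ^ k := by positivity
  have h4 : ((1 / 2 : ℝ) ^ k - (1 / 2) ^ (k + 1)) = (1 / 2) ^ k / 2 := by rw [pow_succ]; ring
  have h5 : (1 / 4 : ℝ) * ((1 / 2) ^ (k + 1)) ^ 2 = (1 / 2) ^ k / 2 * (1 / 2) ^ (k + 3) := by
    rw [pow_succ, pow_add]; ring
  rw [h4, h5] at h1
  exact le_of_mul_le_mul_left h1 (by positivity)

/-- **The constant.** Every admissible law has a `z > 0` with `R(z) ≥ z / (8 med)`. -/
theorem exists_large : ∃ z : ℝ, 0 < z ∧ 1 / 8 * z / med μ ≤ R μ z := by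
  by_contra hcon
  push Not at hcon
  have hm := med_pos h
  have hR : ∀ z, 0 < z → z ≤ 4 * med μ → R μ z ≤ 1 / 2 := by
    intro z hz hz4
    refine (hcon z hz).le.trans ?_
    rw [div_le_iff₀ hm]
    linarith
  have hmT := med_eq h
  -- induction over odd indices
  have hind : ∀ i : ℕ, T μ (2 * i + 1) ≤ med μ + 2 * med μ * (1 - (1 / 2) ^ i) ∧
      T μ (2 * i + 1) - T μ (2 * i) ≤ (1 / 2) ^ i * med μ := by
    intro i
    induction i with
    | zero =>
      simp only [mul_zero, zero_add, pow_zero, sub_self, mul_zero, add_zero, one_mul]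
      rw [T_zero h, hmT]; simp
    | succ i ih =>
      obtain ⟨ih1, ih2⟩ := ih
      have hp : (0:ℝ) < (1 / 2) ^ i := by positivity
      have hp1 : ((1:ℝ) / 2) ^ i ≤ 1 := pow_le_one₀ (by norm_num) (by norm_num)
      have hpos : 0 < T μ (2 * i + 1) := by
        rw [← T_zero h]; exact T_strictMono h (by omega)
      have hle : T μ (2 * i + 1) ≤ 4 * med μ := by nlinarith
      have hs := step h (2 * i) (hR _ hpos hle)
      have e3 : 2 * (i + 1) + 1 = 2 * i + 3 := by ring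
      have e2 : 2 * (i + 1) = 2 * i + 2 := by ring
      have hmono : T μ (2 * i + 1) < T μ (2 * i + 2) := T_strictMono h (by omega)
      -- second difference
      have hle3 : T μ (2 * i + 1) + (T μ (2 * i + 1) - T μ (2 * i)) ≤ 3 * med μ := by
        nlinarith
      have h23 : T μ (2 * i + 2) < T μ (2 * i + 3) := T_strictMono h (by omega)
      have hs2 := step h (2 * i + 1) (hR _ (hpos.trans hmono) (by
        show T μ (2 * i + 2) ≤ _
        linarith))
      have h34 : T μ (2 * i + 3) < T μ (2 * i + 1 + 3) := T_strictMono h (by omega)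
      have hs2' : T μ (2 * i + 1 + 3) ≤ T μ (2 * i + 2) + (T μ (2 * i + 2) - T μ (2 * i + 1)) := hs2
      rw [e3, e2, pow_succ]
      constructor
      · nlinarith
      · nlinarith
  obtain ⟨k, hk⟩ := T_unbounded h (4 * med μ)
  have h1 := (hind k).1
  have h2 : T μ k ≤ T μ (2 * k + 1) := (T_strictMono h).monotone (by omega)
  have hp : (0:ℝ) < (1 / 2) ^ k := by positivity
  nlinarith

end general

end Pool.Agent.R976.TR
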