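import Pool.Agent.R976.TailRatio

set_option autoImplicit false

open MeasureTheory Set Filter Topology

namespace Pool.Agent.R976.TR

/-- The tail `exp (-t - t² / 2)`. -/
noncomputable def tl (t : ℝ) : ℝ := Real.exp (-t - t ^ 2 / 2)

/-- The density `(1 + t) exp (-t - t² / 2)` on `(0, ∞)`. -/
noncomputable def dens (t : ℝ) : ℝ := (1 + t) * Real.exp (-t - t ^ 2 / 2)

/-- The law on `(0, ∞)` with density `(1 + t) exp (-t - t² / 2)`. -/
noncomputable def law : Measure ℝ := (volume.restrict (Ioi 0)).withDensity fun t => ENNReal.ofReal (dens t)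

lemma dens_meas : Measurable dens := by
  unfold dens; fun_prop

lemma dens_nonneg {t : ℝ} (ht : 0 ≤ t) : 0 ≤ dens t := by
  unfold dens; positivity

lemma hasDeriv (t : ℝ) : HasDerivAt (fun t => -tl t) (dens t) t := by
  unfold tl dens
  have h1 : HasDerivAt (fun t : ℝ => -t - t ^ 2 / 2) (-1 - t) t := by
    have h2 : HasDerivAt (fun t : ℝ => t ^ 2 / 2) t t := by
      have := (hasDerivAt_pow 2 t).div_const 2
      exact this.congr_deriv (by simp)
    exact (hasDerivAt_neg t).sub h2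
  have := h1.exp.neg
  exact this.congr_deriv (by ring)

lemma tl_tendsto : Tendsto tl atTop (𝓝 0) := by
  unfold tl
  refine Real.tendsto_exp_comp_nhds_zero.2 ?_
  refine tendsto_atBot_mono' atTop ?_ tendsto_neg_atTop_atBot
  filter_upwards with t
  nlinarith [sq_nonneg t]

lemma dens_integrableOn (t : ℝ) (ht : 0 ≤ t) : IntegrableOn dens (Ioi t) :=
  integrableOn_Ioi_deriv_of_nonneg' (g := fun t => -tl t) (l := -0)
    (fun x _ => hasDeriv x) (fun _ hx => dens_nonneg (ht.trans (le_of_lt hx))) tl_tendsto.neg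

lemma integral_dens (t : ℝ) (ht : 0 ≤ t) : ∫ x in Ioi t, dens x = tl t := by
  have := integral_Ioi_of_hasDerivAt_of_nonneg' (g := fun t => -tl t) (g' := dens) (a := t) (l := -0)
    (fun x _ => hasDeriv x) (fun x hx => dens_nonneg (ht.trans (le_of_lt hx))) tl_tendsto.neg
  rw [this]; ring

lemma law_Ioi (t : ℝ) (ht : 0 ≤ t) : law (Ioi t) = ENNReal.ofReal (tl t) := by
  rw [law, withDensity_apply _ measurableSet_Ioi, Measure.restrict_restrict measurableSet_Ioi,
    Ioi_inter_Ioi, sup_eq_left.2 ht, ← integral_dens t ht]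
  rw [ofReal_integral_eq_lintegral_ofReal (dens_integrableOn t ht)]
  filter_upwards [ae_restrict_mem measurableSet_Ioi] with x hx
  exact dens_nonneg (ht.trans (le_of_lt hx))

lemma law_ac : law ≪ volume :=
  (withDensity_absolutelyContinuous _ _).trans Measure.restrict_le_self.absolutelyContinuous

lemma law_Iic0 : law (Iic 0) = 0 := by
  have h1 : (volume.restrict (Ioi (0:ℝ))) (Iic 0) = 0 := by
    rw [Measure.restrict_apply measurableSet_Iic, Iic_inter_Ioi, Ioc_self, measure_empty]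
  exact withDensity_absolutelyContinuous _ _ h1

lemma law_prob : IsProbabilityMeasure law := by
  refine ⟨?_⟩
  rw [← Iic_union_Ioi (a := (0:ℝ)), measure_union (Set.Iic_disjoint_Ioi le_rfl) measurableSet_Ioi,
    law_Iic0, law_Ioi 0 le_rfl, zero_add, tl]
  norm_num

lemma tl_pos (t : ℝ) : 0 < tl t := Real.exp_pos _

lemma law_admissible : Admissible law where
  prob := law_prob
  nonneg := measure_mono_null Iio_subset_Iic_self law_Iic0
  ac := law_ac
  tail := fun t => by
    refine lt_of_lt_of_le ?_ (measure_mono (Ioi_subset_Ioi (le_max_left t 0)))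
    rw [law_Ioi _ (le_max_right t 0)]
    exact ENNReal.ofReal_pos.2 (tl_pos _)

lemma law_Ici (t : ℝ) (ht : 0 ≤ t) : law (Ici t) = ENNReal.ofReal (tl t) := by
  have := noAtoms law_admissible
  rw [← measure_congr Ioi_ae_eq_Ici, law_Ioi t ht]

lemma G_law (t : ℝ) (ht : 0 ≤ t) : G law t = tl t := by
  rw [G, measureReal_def, law_Ici t ht, ENNReal.toReal_ofReal (tl_pos t).le]

/-- half of the numerator over the denominator -/
noncomputable def Fz (z : ℝ) : ℝ := ∫ x in (0:ℝ)..z, (1 + x) * Real.exp (-(z - x) ^ 2)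

lemma half_le (z : ℝ) (hz : 0 < z) :
    (law.prod law) {p : ℝ × ℝ | p.1 ≤ z ∧ 2 * z - p.1 ≤ p.2} ≤ ENNReal.ofReal (tl z ^ 2 * Fz z) := by
  have := law_prob
  have hmeas : MeasurableSet {p : ℝ × ℝ | p.1 ≤ z ∧ 2 * z - p.1 ≤ p.2} :=
    (measurableSet_le measurable_fst measurable_const).inter
      (measurableSet_le (measurable_const.sub measurable_fst) measurable_snd)
  rw [Measure.prod_apply hmeas]
  have h1 : ∀ x : ℝ, law (Prod.mk x ⁻¹' {p : ℝ × ℝ | p.1 ≤ z ∧ 2 * z - p.1 ≤ p.2}) =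
      (Iic z).indicator (fun x => ENNReal.ofReal (tl (2 * z - x))) x := by
    intro x
    by_cases hx : x ≤ z
    · rw [Set.indicator_of_mem (mem_Iic.2 hx)]
      rw [← law_Ici (2 * z - x) (by linarith)]
      congr 1
      ext y
      simp [hx]
    · rw [Set.indicator_of_notMem (by simpa using hx)]
      have : Prod.mk x ⁻¹' {p : ℝ × ℝ | p.1 ≤ z ∧ 2 * z - p.1 ≤ p.2} = ∅ := by
        ext y; simp [hx]
      rw [this, measure_empty]
  simp_rw [h1]
  rw [lintegral_indicator measurableSet_Iic, law,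
    restrict_withDensity measurableSet_Iic, Measure.restrict_restrict measurableSet_Iic,
    lintegral_withDensity_eq_lintegral_mul _ (by exact dens_meas.ennreal_ofReal)
      (by unfold tl; fun_prop)]
  have h2 : Iic z ∩ Ioi 0 = Ioc 0 z := by ext x; simp [and_comm]
  rw [h2]
  have h3 : ∀ x ∈ Ioc 0 z, ((fun t => ENNReal.ofReal (dens t)) * fun x => ENNReal.ofReal (tl (2 * z - x))) x
      = ENNReal.ofReal (tl z ^ 2 * ((1 + x) * Real.exp (-(z - x) ^ 2))) := by
    intro x hx
    rw [Pi.mul_apply, ← ENNReal.ofReal_mul (dens_nonneg hx.1.le)]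
    congr 1
    unfold dens tl
    rw [mul_assoc, ← Real.exp_add, ← Real.exp_nat_mul, mul_comm (Real.exp _), mul_assoc, ← Real.exp_add]
    congr 2
    push_cast
    ring
  rw [setLIntegral_congr_fun measurableSet_Ioc h3]
  rw [← ofReal_integral_eq_lintegral_ofReal]
  · apply le_of_eq
    congr 1
    rw [integral_const_mul, Fz, intervalIntegral.integral_of_le hz.le]
  · refine (Continuous.integrableOn_Icc (by fun_prop)).mono_set Ioc_subset_Icc_self
  · filter_upwards [ae_restrict_mem measurableSet_Ioc] with x hx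
    have := hx.1
    positivity

lemma numer_le (z : ℝ) (hz : 0 < z) :
    (law.prod law).real {p : ℝ × ℝ | 2 * z ≤ p.1 + p.2 ∧ min p.1 p.2 ≤ z} ≤
      2 * (tl z ^ 2 * Fz z) := by
  have := law_prob
  have hF : 0 ≤ Fz z := intervalIntegral.integral_nonneg hz.le fun x hx => by
    have := hx.1
    positivity
  have hmeas : MeasurableSet {p : ℝ × ℝ | p.1 ≤ z ∧ 2 * z - p.1 ≤ p.2} :=
    (measurableSet_le measurable_fst measurable_const).inter
      (measurableSet_le (measurable_const.sub measurable_fst) measurable_snd)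
  have hA : (law.prod law).real {p : ℝ × ℝ | p.1 ≤ z ∧ 2 * z - p.1 ≤ p.2} ≤ tl z ^ 2 * Fz z := by
    rw [measureReal_def]
    exact ENNReal.toReal_le_of_le_ofReal (mul_nonneg (sq_nonneg _) hF) (half_le z hz)
  have hB : (law.prod law).real {p : ℝ × ℝ | p.2 ≤ z ∧ 2 * z - p.2 ≤ p.1} =
      (law.prod law).real {p : ℝ × ℝ | p.1 ≤ z ∧ 2 * z - p.1 ≤ p.2} := by
    rw [measureReal_def, measureReal_def]
    congr 1
    rw [← Measure.prod_swap, Measure.map_apply measurable_swap]
    · rw [Measure.prod_swap]; rfl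
    · exact hmeas.preimage measurable_swap
  have hsub : {p : ℝ × ℝ | 2 * z ≤ p.1 + p.2 ∧ min p.1 p.2 ≤ z} ⊆
      {p : ℝ × ℝ | p.1 ≤ z ∧ 2 * z - p.1 ≤ p.2} ∪ {p : ℝ × ℝ | p.2 ≤ z ∧ 2 * z - p.2 ≤ p.1} := by
    rintro ⟨x, y⟩ ⟨h1, h2⟩
    rcases min_le_iff.1 h2 with h3 | h3
    · exact Or.inl ⟨h3, by simp only at h1 ⊢; linarith⟩
    · exact Or.inr ⟨h3, by simp only at h1 ⊢; linarith⟩
  refine (measureReal_mono hsub).trans ((measureReal_union_le _ _).trans ?_)
  rw [hB]; linarith

/-- `∫₀ᶻ exp (-u²) du` -/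
noncomputable def Er (z : ℝ) : ℝ := ∫ u in (0:ℝ)..z, Real.exp (-u ^ 2)

lemma Er_deriv (z : ℝ) : HasDerivAt Er (Real.exp (-z ^ 2)) z := by
  have hc : Continuous fun u : ℝ => Real.exp (-u ^ 2) := by fun_prop
  exact intervalIntegral.integral_hasDerivAt_right (hc.intervalIntegrable _ _)
    (hc.stronglyMeasurableAtFilter _ _) hc.continuousAt

lemma expsq_deriv (z : ℝ) : HasDerivAt (fun z : ℝ => Real.exp (-z ^ 2)) (-2 * z * Real.exp (-z ^ 2)) z := by
  have h1 : HasDerivAt (fun z : ℝ => -z ^ 2) (-(2 * z)) z := by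
    have := (hasDerivAt_pow 2 z).neg
    exact this.congr_deriv (by simp)
  exact h1.exp.congr_deriv (by ring)

lemma Fz_eq (z : ℝ) : Fz z = (1 + z) * Er z - (1 - Real.exp (-z ^ 2)) / 2 := by
  have h1 : Fz z = ∫ u in (0:ℝ)..z, (1 + z - u) * Real.exp (-u ^ 2) := by
    have := intervalIntegral.integral_comp_sub_left (a := 0) (b := z)
      (fun u => (1 + z - u) * Real.exp (-u ^ 2)) z
    simp only [sub_self, sub_zero] at this
    rw [← this, Fz]
    refine intervalIntegral.integral_congr fun x _ => ?_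
    show (1 + x) * Real.exp (-(z - x) ^ 2) = (1 + z - (z - x)) * Real.exp (-(z - x) ^ 2)
    ring
  rw [h1]
  have hd : ∀ x ∈ uIcc 0 z, HasDerivAt (fun x => (1 + z) * Er x + Real.exp (-x ^ 2) / 2)
      ((1 + z - x) * Real.exp (-x ^ 2)) x := by
    intro x _
    have := ((Er_deriv x).const_mul (1 + z)).add ((expsq_deriv x).div_const 2)
    exact this.congr_deriv (by ring)
  rw [intervalIntegral.integral_eq_sub_of_hasDerivAt hd
    (Continuous.intervalIntegrable (by fun_prop) _ _)]
  simp [Er]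
  ring

lemma exp_neg_le_quad (v : ℝ) (hv : 0 ≤ v) : Real.exp (-v) ≤ 1 - v + v ^ 2 / 2 := by
  rw [Real.exp_neg]
  have h1 := Real.quadratic_le_exp_of_nonneg hv
  have h2 : 0 < Real.exp v := Real.exp_pos v
  have h3 : 0 < 1 - v + v ^ 2 / 2 := by nlinarith [sq_nonneg (v - 1)]
  rw [inv_le_iff_one_le_mul₀ h2]
  calc (1:ℝ) ≤ (1 - v + v ^ 2 / 2) * (1 + v + v ^ 2 / 2) := by nlinarith [sq_nonneg (v ^ 2)]
    _ ≤ (1 - v + v ^ 2 / 2) * Real.exp v := mul_le_mul_of_nonneg_left h1 h3.le

lemma Er_half : Er (1 / 2) ≤ 443 / 960 := by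
  have h1 : Er (1 / 2) ≤ ∫ u in (0:ℝ)..(1 / 2), (1 - u ^ 2 + u ^ 4 / 2) := by
    refine intervalIntegral.integral_mono_on (by norm_num)
      (Continuous.intervalIntegrable (by fun_prop) _ _)
      (Continuous.intervalIntegrable (by fun_prop) _ _) fun u _ => ?_
    have := exp_neg_le_quad (u ^ 2) (sq_nonneg u)
    calc Real.exp (-u ^ 2) ≤ _ := this
      _ = _ := by ring
  refine h1.trans (le_of_eq ?_)
  rw [intervalIntegral.integral_add, intervalIntegral.integral_sub, intervalIntegral.integral_div]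
  · simp
    norm_num
  all_goals exact Continuous.intervalIntegrable (by fun_prop) _ _

lemma exp_quarter : Real.exp (-(1 / 2) ^ 2) ≤ 0.77881 := by
  have h1 := Real.sum_le_exp_of_nonneg (show (0:ℝ) ≤ 1 / 4 by norm_num) 5
  have h2 : (1.284016 : ℝ) ≤ Real.exp (1 / 4) := by
    refine le_trans ?_ h1
    norm_num [Finset.sum_range_succ, Nat.factorial]
  have h3 : (-(1 / 2 : ℝ) ^ 2) = -(1 / 4) := by norm_num
  rw [h3, Real.exp_neg, inv_le_comm₀ (Real.exp_pos _) (by norm_num)]
  refine le_trans ?_ h2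
  norm_num

/-- `g(z) = Er z + exp (-z²)` is at most `1.2403` on `[0, ∞)`. -/
lemma g_le (z : ℝ) (hz : 0 ≤ z) : Er z + Real.exp (-z ^ 2) ≤ 1.2403 := by
  have hd : ∀ x, HasDerivAt (fun x => Er x + Real.exp (-x ^ 2)) ((1 - 2 * x) * Real.exp (-x ^ 2)) x := by
    intro x
    have := (Er_deriv x).add (expsq_deriv x)
    exact this.congr_deriv (by ring)
  have hc : Continuous fun x => Er x + Real.exp (-x ^ 2) :=
    continuous_iff_continuousAt.2 fun x => (hd x).continuousAt
  have hhalf : Er (1 / 2) + Real.exp (-(1 / 2) ^ 2) ≤ 1.2403 := by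
    have h1 := Er_half
    have h2 := exp_quarter
    have h3 : (443 : ℝ) / 960 + 0.77881 ≤ 1.2403 := by norm_num
    linarith
  refine le_trans ?_ hhalf
  rcases le_total z (1 / 2) with h | h
  · have hm : MonotoneOn (fun x => Er x + Real.exp (-x ^ 2)) (Icc 0 (1 / 2)) := by
      refine monotoneOn_of_deriv_nonneg (convex_Icc _ _) hc.continuousOn
        (fun x _ => (hd x).differentiableAt.differentiableWithinAt) fun x hx => ?_
      rw [interior_Icc] at hx
      rw [(hd x).deriv]
      exact mul_nonneg (by linarith [hx.2]) (Real.exp_pos _).le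
    exact hm ⟨hz, h⟩ ⟨by norm_num, le_rfl⟩ h
  · have hm : AntitoneOn (fun x => Er x + Real.exp (-x ^ 2)) (Ici (1 / 2)) := by
      refine antitoneOn_of_deriv_nonpos (convex_Ici _) hc.continuousOn
        (fun x _ => (hd x).differentiableAt.differentiableWithinAt) fun x hx => ?_
      rw [interior_Ici] at hx
      rw [(hd x).deriv]
      exact mul_nonpos_of_nonpos_of_nonneg (by linarith [mem_Ioi.1 hx]) (Real.exp_pos _).le
    exact hm self_mem_Ici (mem_Ici.2 h) h

lemma Fz_le (z : ℝ) (hz : 0 ≤ z) : Fz z ≤ 1.2403 * z := by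
  have hd : ∀ x, HasDerivAt (fun x => 1.2403 * x - ((1 + x) * Er x - (1 - Real.exp (-x ^ 2)) / 2))
      (1.2403 - (Er x + Real.exp (-x ^ 2))) x := by
    intro x
    have h1 : HasDerivAt (fun x : ℝ => (1 + x) * Er x) (1 * Er x + (1 + x) * Real.exp (-x ^ 2)) x :=
      ((hasDerivAt_id x).const_add 1).mul (Er_deriv x)
    have h2 : HasDerivAt (fun x : ℝ => (1 - Real.exp (-x ^ 2)) / 2) (-(-2 * x * Real.exp (-x ^ 2)) / 2) x :=
      ((expsq_deriv x).const_sub 1).div_const 2
    have h3 := ((hasDerivAt_id x).const_mul (1.2403 : ℝ)).sub (h1.sub h2)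
    exact h3.congr_deriv (by ring)
  have hc : Continuous fun x => 1.2403 * x - ((1 + x) * Er x - (1 - Real.exp (-x ^ 2)) / 2) :=
    continuous_iff_continuousAt.2 fun x => (hd x).continuousAt
  have hm : MonotoneOn (fun x => 1.2403 * x - ((1 + x) * Er x - (1 - Real.exp (-x ^ 2)) / 2))
      (Ici 0) := by
    refine monotoneOn_of_deriv_nonneg (convex_Ici _) hc.continuousOn
      (fun x _ => (hd x).differentiableAt.differentiableWithinAt) fun x hx => ?_
    rw [interior_Ici] at hx
    rw [(hd x).deriv]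
    linarith [g_le x (le_of_lt hx)]
  have := hm self_mem_Ici (mem_Ici.2 hz) hz
  simp only at this
  rw [Fz_eq]
  have h0 : (1.2403 * 0 - ((1 + 0) * Er 0 - (1 - Real.exp (-(0:ℝ) ^ 2)) / 2)) = 0 := by
    simp [Er]
  rw [h0] at this
  linarith

lemma R_law_le (z : ℝ) (hz : 0 < z) : R law z ≤ 2.4806 * z := by
  unfold R
  rw [denom law_admissible, G_law z hz.le, div_le_iff₀ (by have := tl_pos z; positivity)]
  refine (numer_le z hz).trans ?_
  have h1 := Fz_le z hz.le
  have h2 : 0 < tl z ^ 2 := by have := tl_pos z; positivity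
  nlinarith

lemma med_law : med law + med law ^ 2 / 2 = Real.log 2 := by
  have h := law_admissible
  have h1 := G_T h 1
  rw [← med_eq h, G_law _ (med_pos h).le, tl] at h1
  have h2 := congrArg Real.log h1
  rw [Real.log_exp, pow_one, one_div, Real.log_inv] at h2
  linarith

/-- `R(z) < 2 log 2 z / med` for all `z > 0`. -/
theorem law_median (z : ℝ) (hz : 0 < z) : R law z < 2 * Real.log 2 * z / med law := by
  have hm := med_pos law_admissible
  have h1 := R_law_le z hz
  have h2 := med_law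
  have h3 := Real.log_two_gt_d9
  have h4 : 0.4807 < med law := by nlinarith
  have h5 : 2 * Real.log 2 * z / med law = (2 + med law) * z := by
    rw [← h2]; field_simp
  rw [h5]
  nlinarith

lemma tl_le (t : ℝ) : tl t ≤ Real.exp (1 / 8) * Real.exp (-(3 / 2) * t) := by
  rw [tl, ← Real.exp_add]
  apply Real.exp_le_exp.2
  nlinarith [sq_nonneg (t - 1 / 2)]

lemma law_nonneg : 0 ≤ᵐ[law] fun x : ℝ => x := by
  rw [EventuallyLE, ae_iff]
  refine measure_mono_null ?_ law_Iic0
  intro x hx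
  simp only [Pi.zero_apply, mem_ofPred_eq, not_le] at hx
  exact hx.le

lemma lint : ∫⁻ x, ENNReal.ofReal x ∂law ≤ ENNReal.ofReal (Real.exp (1 / 8) * (2 / 3)) := by
  rw [lintegral_eq_lintegral_meas_lt law law_nonneg measurable_id.aemeasurable]
  have h1 : ∀ t ∈ Ioi (0:ℝ), law {a : ℝ | t < a} = ENNReal.ofReal (tl t) := fun t ht =>
    law_Ioi t (le_of_lt ht)
  rw [setLIntegral_congr_fun measurableSet_Ioi h1]
  have h2 : ∫⁻ t in Ioi (0:ℝ), ENNReal.ofReal (tl t) ≤
      ∫⁻ t in Ioi (0:ℝ), ENNReal.ofReal (Real.exp (1 / 8) * Real.exp (-(3 / 2) * t)) :=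
    lintegral_mono fun t => ENNReal.ofReal_le_ofReal (tl_le t)
  refine h2.trans (le_of_eq ?_)
  have hint : IntegrableOn (fun t : ℝ => Real.exp (1 / 8) * Real.exp (-(3 / 2) * t)) (Ioi 0) :=
    (integrableOn_exp_mul_Ioi (by norm_num) 0).const_mul _
  rw [← ofReal_integral_eq_lintegral_ofReal hint]
  · congr 1
    rw [integral_const_mul, integral_exp_mul_Ioi (by norm_num)]
    norm_num
  · exact Eventually.of_forall fun t => by positivity

lemma law_integrable : Integrable (fun x : ℝ => x) law := by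
  refine ⟨measurable_id.aestronglyMeasurable, ?_⟩
  rw [hasFiniteIntegral_iff_ofReal law_nonneg]
  exact lint.trans_lt ENNReal.ofReal_lt_top

lemma law_mean : ∫ x, x ∂law ≤ 0.8 := by
  rw [integral_eq_lintegral_of_nonneg_ae law_nonneg measurable_id.aestronglyMeasurable]
  have h1 : Real.exp (1 / 8) * (2 / 3) ≤ 0.8 := by
    have h2 : Real.exp (1 / 8) ≤ 1.2 := by
      have := Real.exp_bound_div_one_sub_of_interval (x := 1 / 8) (by norm_num) (by norm_num)
      refine this.trans ?_
      norm_num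
    linarith
  exact (ENNReal.toReal_le_of_le_ofReal (by positivity) lint).trans h1

/-- `R(z) < 2 z / 𝔼 X` for all `z > 0`. -/
theorem law_mean_ratio (z : ℝ) (hz : 0 < z) : R law z < 2 * z / ∫ x, x ∂law := by
  have h0 : 0 < ∫ x, x ∂law := by
    have h := law_admissible
    have := h.prob
    have hm := med_pos h
    rw [integral_pos_iff_support_of_nonneg_ae law_nonneg law_integrable]
    refine lt_of_lt_of_le (h.tail 0) (measure_mono fun x hx => ?_)
    exact (ne_of_gt hx : x ≠ 0)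
  have h1 := R_law_le z hz
  have h2 := law_mean
  rw [lt_div_iff₀ h0]
  have h3 : 2.4806 * z * ∫ x, x ∂law ≤ 2.4806 * z * 0.8 :=
    mul_le_mul_of_nonneg_left h2 (by positivity)
  have h4 : R law z * ∫ x, x ∂law ≤ 2.4806 * z * ∫ x, x ∂law :=
    mul_le_mul_of_nonneg_right h1 h0.le
  linarith

/-- `med ≤ 2 𝔼 X` -/
lemma med_le_mean {μ : Measure ℝ} (h : Admissible μ) (hi : Integrable (fun x : ℝ => x) μ) :
    med μ ≤ 2 * ∫ x, x ∂μ := by
  have := h.prob
  have hnn : 0 ≤ᵐ[μ] fun x : ℝ => x := by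
    rw [EventuallyLE, ae_iff]
    refine measure_mono_null ?_ h.nonneg
    intro x hx
    simp only [Pi.zero_apply, mem_ofPred_eq, not_le] at hx
    exact hx
  have h1 := mul_meas_ge_le_integral_of_nonneg hnn hi (med μ)
  have h2 : μ.real {x | med μ ≤ x} = 1 / 2 := by
    have := G_T h 1
    rw [← med_eq h, G, pow_one] at this
    exact this
  rw [h2] at h1
  linarith

/-- Every admissible law with finite mean has a `z > 0` with `R(z) ≥ z / (16 𝔼 X)`. -/
theorem exists_large_mean {μ : Measure ℝ} (h : Admissible μ) (hi : Integrable (fun x : ℝ => x) μ) :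
    ∃ z : ℝ, 0 < z ∧ 1 / 16 * z / ∫ x, x ∂μ ≤ R μ z := by
  obtain ⟨z, hz, hR⟩ := exists_large h
  refine ⟨z, hz, le_trans ?_ hR⟩
  have hm := med_pos h
  have hle := med_le_mean h hi
  have h0 : 0 < ∫ x, x ∂μ := by linarith
  rw [div_le_div_iff₀ h0 hm]
  nlinarith

end Pool.Agent.R976.TR
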